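import Pool.Agent.Run7.h414.PM.Pp

set_option autoImplicit false

/-! Perturbed primes: the set of the `n` for which `n + J_n w_n` is prime, for independent uniform `J_n`, is a sieved random
model of the primes. -/

namespace Pool.Agent.Run7.h414.PM
open Finset Filter MeasureTheory ProbabilityTheory
open scoped Topology
open Pool.Agent.R528.RM (log_succ_ratio)

/-- the random variables `J_n` are independent and `J_n` is uniformly distributed on `{0, …, Q n - 1}` -/
structure IndepUnif {Ω : Type} [MeasurableSpace Ω] (μ : Measure Ω) (Q : ℕ → ℕ) (J : ℕ → Ω → ℕ) : Prop where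
  meas : ∀ n, Measurable (J n)
  indep : iIndepFun J μ
  unif : ∀ n, 0 < Q n ∧ ∀ j < Q n, μ.real {ω | J n ω = j} = 1 / Q n

/-- `n` belongs to the perturbed primes: `n + J_n w_n` is a prime larger than `z n`, `w_n` the product of the primes up to `z n` -/
def PA {Ω : Type} (z : ℕ → ℕ) (J : ℕ → Ω → ℕ) (n : ℕ) : Set Ω :=
  {ω | (n + J n ω * primorial (z n)).Prime ∧ z n < n + J n ω * primorial (z n)}

section

variable {Ω : Type} {m0 : MeasurableSpace Ω} {μ : Measure Ω} [IsProbabilityMeasure μ]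

lemma PA_empty (z : ℕ → ℕ) (J : ℕ → Ω → ℕ) (n : ℕ) (hr : ¬ Rough z n) : PA z J n = ∅ := by
  rw [Set.eq_empty_iff_forall_notMem]
  rintro ω ⟨h1, h2⟩
  unfold Rough at hr
  push Not at hr
  obtain ⟨q, hq, hqz, hqn⟩ := hr
  have h3 : q ∣ n + J n ω * primorial (z n) := dvd_add hqn (Dvd.dvd.mul_left (hq.dvd_primorial_iff.2 hqz) _)
  have h4 := (Nat.prime_dvd_prime_iff_eq hq h1).1 h3
  omega

open Classical in
lemma PA_prob (z Q : ℕ → ℕ) (J : ℕ → Ω → ℕ) (hJ : IndepUnif μ Q J) (n : ℕ) (hzn : z n < n) :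
    μ.real (PA z J n) = (cP n (primorial (z n)) (Q n) : ℝ) / Q n := by
  obtain ⟨hQ0, hu⟩ := hJ.unif n
  have hQr : (0 : ℝ) < Q n := by exact_mod_cast hQ0
  have hms : ∀ j, MeasurableSet {ω | J n ω = j} := fun j => hJ.meas n (measurableSet_singleton j)
  have hun : ∀ S : Finset ℕ, (∀ j ∈ S, j < Q n) → μ.real (⋃ j ∈ S, {ω | J n ω = j}) = S.card / Q n := by
    intro S hS
    rw [measureReal_biUnion_finset]
    · rw [sum_congr rfl fun j hj => hu j (hS j hj), sum_const, nsmul_eq_mul]
      ring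
    · intro i _ j _ hij
      rw [Function.onFun, Set.disjoint_left]
      intro ω h1 h2
      exact hij (h1.symm.trans h2)
    · intro j _
      exact hms j
  have hfull : μ.real (⋃ j ∈ range (Q n), {ω | J n ω = j}) = 1 := by
    rw [hun _ fun j hj => mem_range.1 hj, card_range, div_self hQr.ne']
  have hnull : μ.real (⋃ j ∈ range (Q n), {ω | J n ω = j})ᶜ = 0 := by
    rw [measureReal_compl (Finset.measurableSet_biUnion _ fun j _ => hms j), hfull]
    simp
  have hset : PA z J n ∩ (⋃ j ∈ range (Q n), {ω | J n ω = j}) =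
      ⋃ j ∈ (range (Q n)).filter (fun j => (n + j * primorial (z n)).Prime), {ω | J n ω = j} := by
    ext ω
    simp only [PA, Set.mem_inter_iff, Set.mem_ofPred_eq, Set.mem_iUnion, Finset.mem_range, Finset.mem_filter, exists_prop]
    constructor
    · rintro ⟨⟨h1, -⟩, j, hj, h2⟩
      exact ⟨j, ⟨hj, by rw [← h2]; exact h1⟩, h2⟩
    · rintro ⟨j, ⟨hj, h1⟩, h2⟩
      refine ⟨⟨by rw [h2]; exact h1, ?_⟩, j, hj, h2⟩
      exact lt_of_lt_of_le hzn (Nat.le_add_right _ _)
  have hle : μ.real (PA z J n) = μ.real (PA z J n ∩ (⋃ j ∈ range (Q n), {ω | J n ω = j})) := by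
    apply le_antisymm
    · calc μ.real (PA z J n) ≤ μ.real ((PA z J n ∩ (⋃ j ∈ range (Q n), {ω | J n ω = j})) ∪ (⋃ j ∈ range (Q n), {ω | J n ω = j})ᶜ) := by
            refine measureReal_mono ?_ (measure_ne_top μ _)
            intro ω hω
            by_cases h : ω ∈ ⋃ j ∈ range (Q n), {ω | J n ω = j}
            · exact Or.inl ⟨hω, h⟩
            · exact Or.inr h
        _ ≤ _ := by
            refine (measureReal_union_le _ _).trans ?_
            rw [hnull, add_zero]
    · exact measureReal_mono Set.inter_subset_left (measure_ne_top μ _)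
  rw [hle, hset, hun _ fun j hj => mem_range.1 (mem_filter.1 hj).1]
  rfl

/-- **the perturbed primes are a sieved random model of the primes** -/
theorem pert (z Q : ℕ → ℕ) (C : ℕ) (hz : ∀ᶠ n : ℕ in atTop, (z n : ℝ) ≤ C * Real.log (Real.log n))
    (hQ : ∀ᶠ n : ℕ in atTop, (n : ℝ) / Real.log n ^ C ≤ Q n * primorial (z n) ∧ Q n * primorial (z n) ≤ n)
    (J : ℕ → Ω → ℕ) (hJ : IndepUnif μ Q J) :
    ∃ ℱ : Filtration ℕ m0, (∀ n, MeasurableSet[ℱ n] (PA z J n)) ∧ (∀ n, ¬ Rough z n → PA z J n = ∅) ∧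
      ∀ᵐ ω ∂μ, Tendsto (fun n : ℕ => (μ[(PA z J (n + 1)).indicator (fun _ => (1 : ℝ)) | ℱ n]) ω * Real.log n / W (z (n + 1)))
        (atTop ⊓ 𝓟 {n : ℕ | Rough z (n + 1)}) (𝓝 1) := by
  obtain ⟨K, hK⟩ : ∃ K : ℕ → Ω → ℝ, K = fun n ω => (J n ω : ℝ) := ⟨_, rfl⟩
  have hKm : ∀ n, Measurable (K n) := by
    intro n
    rw [hK]
    exact measurable_from_nat.comp (hJ.meas n)
  have hKi : iIndepFun K μ := by
    have := hJ.indep.comp (fun _ => (Nat.cast : ℕ → ℝ)) (fun _ => measurable_from_nat)
    rw [hK]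
    exact this
  have hsm : ∀ n, StronglyMeasurable (K n) := fun n => (hKm n).stronglyMeasurable
  have hcm' : ∀ n, MeasurableSet[MeasurableSpace.comap (K n) inferInstance] (PA z J n) := by
    intro n
    refine ⟨(Nat.cast : ℕ → ℝ) '' {j | (n + j * primorial (z n)).Prime ∧ z n < n + j * primorial (z n)},
      ((Set.to_countable _).image _).measurableSet, ?_⟩
    ext ω
    rw [hK]
    simp only [PA, Set.mem_preimage, Set.mem_image, Set.mem_ofPred_eq, Nat.cast_inj, exists_eq_right]
  refine ⟨Filtration.natural K hsm, ?_, fun n hr => PA_empty z J n hr, ?_⟩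
  · intro n
    have h1 : MeasurableSpace.comap (K n) inferInstance ≤ (Filtration.natural K hsm) n :=
      le_iSup₂ (f := fun j (_ : j ≤ n) => MeasurableSpace.comap (K j) inferInstance) n le_rfl
    exact h1 _ (hcm' n)
  · have hce : ∀ᵐ ω ∂μ, ∀ n : ℕ, (μ[(PA z J (n + 1)).indicator (fun _ => (1 : ℝ)) | (Filtration.natural K hsm) n]) ω =
        μ.real (PA z J (n + 1)) := by
      rw [ae_all_iff]
      intro n
      have h1 := condExp_indep_eq (μ := μ) (m₁ := MeasurableSpace.comap (K (n + 1)) inferInstance)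
        (m₂ := (Filtration.natural K hsm) n) (f := (PA z J (n + 1)).indicator (fun _ => (1 : ℝ)))
        (hKm (n + 1)).comap_le ((Filtration.natural K hsm).le n)
        ((@stronglyMeasurable_const _ _ (MeasurableSpace.comap (K (n + 1)) inferInstance) _ _).indicator (hcm' (n + 1)))
        (hKi.indep_comap_natural_of_lt hsm (Nat.lt_succ_self n))
      filter_upwards [h1] with ω hω
      rw [hω]
      have hm : MeasurableSet (PA z J (n + 1)) := (hKm (n + 1)).comap_le _ (hcm' (n + 1))
      rw [integral_indicator hm, setIntegral_const, smul_eq_mul, mul_one]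
    filter_upwards [hce] with ω hω
    rw [Metric.tendsto_nhds]
    intro ε hε
    have hlr : Tendsto (fun n : ℕ => Real.log n / Real.log ((n + 1 : ℕ) : ℝ)) atTop (𝓝 1) := by
      have := log_succ_ratio.inv₀ one_ne_zero
      rw [inv_one] at this
      refine this.congr fun n => ?_
      rw [inv_div]
    obtain ⟨δ, hδ0, hδ1, hδε⟩ : ∃ δ : ℝ, 0 < δ ∧ δ ≤ 1 ∧ 4 * δ ≤ ε := ⟨min 1 (ε / 4), lt_min one_pos (by positivity),
      min_le_left _ _, by
        have := min_le_right 1 (ε / 4)
        linarith⟩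
    have h1 := (tendsto_add_atTop_nat 1).eventually (prog_primes z Q C hz hQ δ hδ0)
    have hzn : ∀ᶠ n : ℕ in atTop, z n < n := by
      have h2 := (Real.isLittleO_log_id_atTop.def (c := 1 / (2 * (C + 1))) (by positivity))
      have h3 := h2
      filter_upwards [hz, logt.eventually h2, tendsto_natCast_atTop_atTop.eventually h3, logt.eventually_ge_atTop 1,
        eventually_ge_atTop 1] with n g1 g2 g3 g4 g5
      have hn : (1 : ℝ) ≤ n := by exact_mod_cast g5
      rw [Real.norm_of_nonneg (Real.log_nonneg g4), id, Real.norm_of_nonneg (by linarith)] at g2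
      rw [Real.norm_of_nonneg (by linarith), id, Real.norm_of_nonneg (by linarith)] at g3
      have hC : (0 : ℝ) ≤ C := Nat.cast_nonneg C
      have g6 : (z n : ℝ) < n := by
        have e1 : (C : ℝ) * Real.log (Real.log n) ≤ C * (1 / (2 * (C + 1)) * Real.log n) := mul_le_mul_of_nonneg_left g2 hC
        have e2 : (C : ℝ) * (1 / (2 * (C + 1)) * Real.log n) ≤ Real.log n := by
          have : (C : ℝ) * (1 / (2 * (C + 1))) ≤ 1 := by
            rw [mul_one_div, div_le_one (by positivity)]
            linarith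
          calc (C : ℝ) * (1 / (2 * (C + 1)) * Real.log n) = (C * (1 / (2 * (C + 1)))) * Real.log n := by ring
            _ ≤ 1 * Real.log n := mul_le_mul_of_nonneg_right this (by linarith)
            _ = _ := one_mul _
        have e3 : Real.log (n : ℝ) < n := by
          have : 1 / (2 * ((C : ℝ) + 1)) ≤ 1 / 2 := by
            apply one_div_le_one_div_of_le (by norm_num)
            linarith
          nlinarith
        linarith
      exact_mod_cast g6
    rw [eventually_inf_principal]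
    filter_upwards [h1, (tendsto_add_atTop_nat 1).eventually hzn, (Metric.tendsto_nhds.1 hlr) δ hδ0,
      (tendsto_add_atTop_nat 1).eventually (logt.eventually_ge_atTop 1)] with n g1 g2 g3 g4 hr
    rw [hω n, PA_prob z Q J hJ (n + 1) g2]
    have g5 := g1 hr
    have hl : 0 < Real.log ((n + 1 : ℕ) : ℝ) := by linarith
    have hW : 0 < W (z (n + 1)) := lt_of_lt_of_le one_pos (W_ge _)
    obtain ⟨r, hr'⟩ : ∃ r, r = (cP (n + 1) (primorial (z (n + 1))) (Q (n + 1)) : ℝ) / Q (n + 1) * Real.log ((n + 1 : ℕ) : ℝ) / W (z (n + 1)) := ⟨_, rfl⟩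
    obtain ⟨s, hs⟩ : ∃ s, s = Real.log n / Real.log ((n + 1 : ℕ) : ℝ) := ⟨_, rfl⟩
    rw [← hr'] at g5
    rw [← hs, Real.dist_eq] at g3
    have e : (cP (n + 1) (primorial (z (n + 1))) (Q (n + 1)) : ℝ) / Q (n + 1) * Real.log n / W (z (n + 1)) = r * s := by
      rw [hr', hs]
      field_simp
    rw [e, Real.dist_eq]
    have e2 : r * s - 1 = (r - 1) * (s - 1) + (r - 1) + (s - 1) := by ring
    rw [e2]
    have b1 := abs_add_le ((r - 1) * (s - 1) + (r - 1)) (s - 1)
    have b2 := abs_add_le ((r - 1) * (s - 1)) (r - 1)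
    have b3 : |(r - 1) * (s - 1)| ≤ δ * 1 := by
      rw [abs_mul]
      exact mul_le_mul g5 (g3.le.trans hδ1) (abs_nonneg _) hδ0.le
    linarith

end

end Pool.Agent.Run7.h414.PM
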