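import Pool.Agent.R494.SPL2
import Pool.Agent.N233.GM.Law
import Pool.Agent.Run7.h414.PM.Pert

set_option autoImplicit false

/-! Decimal palindromes with missing digits in random models. -/

namespace Pool.Agent.Run7.h414.PM.PalD
open Finset Filter MeasureTheory
open scoped Topology
open Pool.Agent.R528.RM (dens In)

open Classical in
/-- the palindromes below `10 ^ (2 N + 1)` with the leading digits `w` and the other digits in `{a, …, a + k - 1}` -/
noncomputable def Cl (k N K w a : ℕ) : Finset ℕ :=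
  (range (10 ^ (2 * N + 1))).filter (fun n => n / 10 ^ (2 * N - K) = w ∧ (Nat.digits 10 n).reverse = Nat.digits 10 n ∧
    ∀ i : ℕ, K < i → i < 2 * N - K → a ≤ n / 10 ^ i % 10 ∧ n / 10 ^ i % 10 < a + k)

/-- admissible data -/
def Adm (k N K w a : ℕ) : Prop := K ≤ N ∧ 10 ^ K ≤ w ∧ w < 10 ^ (K + 1) ∧ a + k ≤ 10

open Classical in
lemma Cl_low (k N K w a n : ℕ) (hK : K ≤ N) (hw : 10 ^ K ≤ w) (hn : n ∈ Cl k N K w a) :
    10 ^ (2 * N) ≤ n ∧ n < 10 ^ (2 * N + 1) := by
  unfold Cl at hn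
  rw [mem_filter, mem_range] at hn
  obtain ⟨h1, h2, -⟩ := hn
  refine ⟨?_, h1⟩
  have e : 10 ^ (2 * N) = 10 ^ K * 10 ^ (2 * N - K) := by
    rw [← pow_add]
    congr 1
    omega
  calc 10 ^ (2 * N) = 10 ^ K * 10 ^ (2 * N - K) := e
    _ ≤ w * 10 ^ (2 * N - K) := Nat.mul_le_mul_right _ hw
    _ = n / 10 ^ (2 * N - K) * 10 ^ (2 * N - K) := by rw [h2]
    _ ≤ n := Nat.div_mul_le_self _ _

lemma logt' : Tendsto (fun n : ℕ => Real.log (n : ℝ)) atTop atTop := Real.tendsto_log_atTop.comp tendsto_natCast_atTop_atTop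

section

variable {Ω : Type} {m0 : MeasurableSpace Ω} {μ : Measure Ω} [IsProbabilityMeasure μ] {ℱ : Filtration ℕ m0} {A : ℕ → Set Ω}

open Classical in
/-- the law in the models -/
theorem model (k : ℕ) (z : ℕ → ℕ) (hV : ∀ᶠ m : ℕ in atTop, Pool.Agent.N233.GM.W (z m) / Real.log m < 1)
    (hA : ∀ n, MeasurableSet[ℱ n] (A n)) (hcop : ∀ n, ¬ Pool.Agent.N233.GM.Rough z n → A n = ∅)
    (hd : ∀ᵐ ω ∂μ, Tendsto (fun n : ℕ => dens μ ℱ A n ω * Real.log n / Pool.Agent.N233.GM.W (z (n + 1)))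
      (atTop ⊓ 𝓟 {n : ℕ | Pool.Agent.N233.GM.Rough z (n + 1)}) (𝓝 1)) :
    ∀ᵐ ω ∂μ, ∀ η : ℝ, 0 < η → ∃ C : ℝ, 0 ≤ C ∧ ∀ᶠ N : ℕ in atTop, ∀ K w a : ℕ, Adm k N K w a →
      |∑ m ∈ Cl k N K w a, In A m ω - ∑ m ∈ Cl k N K w a, Pool.Agent.N233.GM.rho z m| ≤
        η * ∑ m ∈ Cl k N K w a, Pool.Agent.N233.GM.rho z m + C * N := by
  have hprof := Pool.Agent.N233.GM.profile (μ := μ) (ℱ := ℱ) (A := A) z hV hcop hd
  have h := Pool.Agent.R494.SPL.sparse_law (μ := μ) (ℱ := ℱ) (A := A) hA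
    (fun n => (Pool.Agent.N233.GM.rho1_bounds z n).1) hprof 8
    (fun x : ℕ => ((range (x + 1)).filter (fun N => 10 ^ N = x)) ×ˢ (range (x + 1) ×ˢ (range (10 * x) ×ˢ range 11)))
    (by
      filter_upwards [eventually_ge_atTop 20] with x hx
      rw [card_product, card_product, card_product, card_range, card_range, card_range]
      have h1 : ((range (x + 1)).filter (fun N => 10 ^ N = x)).card ≤ x + 1 := by
        calc ((range (x + 1)).filter (fun N => 10 ^ N = x)).card ≤ (range (x + 1)).card := card_filter_le _ _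
          _ = x + 1 := card_range _
      calc ((range (x + 1)).filter (fun N => 10 ^ N = x)).card * ((x + 1) * (10 * x * 11))
          ≤ (x + 1) * ((x + 1) * (10 * x * 11)) := Nat.mul_le_mul_right _ h1
        _ ≤ x ^ 2 * (x ^ 2 * (x * x ^ 3)) := by
            have e1 : x + 1 ≤ x ^ 2 := by nlinarith
            have e2 : 10 * x * 11 ≤ x * x ^ 3 := by
              have : 110 ≤ x ^ 3 := by
                calc 110 ≤ 20 ^ 3 := by norm_num
                  _ ≤ x ^ 3 := Nat.pow_le_pow_left hx 3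
              calc 10 * x * 11 = x * 110 := by ring
                _ ≤ x * x ^ 3 := Nat.mul_le_mul_left _ this
            exact Nat.mul_le_mul e1 (Nat.mul_le_mul e1 e2)
        _ = x ^ 8 := by ring)
    (fun b : ℕ × (ℕ × (ℕ × ℕ)) => if Adm k b.1 b.2.1 b.2.2.1 b.2.2.2 then Cl k b.1 b.2.1 b.2.2.1 b.2.2.2 else ∅)
    (fun x => x) tendsto_id
    (by
      refine Eventually.of_forall fun x b hb m hm => ?_
      obtain ⟨N, K, w, a⟩ := b
      rw [mem_product, mem_filter] at hb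
      have hx : 10 ^ N = x := hb.1.2
      simp only at hm
      split_ifs at hm with hc
      · have h1 := (Cl_low k N K w a m hc.1 hc.2.1 hm).1
        have h2 : 10 ^ N ≤ 10 ^ (2 * N) := Nat.pow_le_pow_right (by norm_num) (by omega)
        show x ≤ m
        omega
      · exact absurd hm (notMem_empty m))
  obtain ⟨m1, hm1⟩ := eventually_atTop.1 hV
  filter_upwards [h] with ω hω η hη
  obtain ⟨C, hC0, hC⟩ := hω η hη
  obtain ⟨x1, hx1⟩ := eventually_atTop.1 hC
  refine ⟨C * Real.log 10, mul_nonneg hC0 (Real.log_nonneg (by norm_num)), ?_⟩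
  filter_upwards [eventually_ge_atTop (max x1 m1)] with N hN K w a hadm
  have hNx : N < 10 ^ N := Nat.lt_pow_self (by norm_num)
  have hx : x1 ≤ 10 ^ N := by
    have := le_trans (le_max_left x1 m1) hN
    omega
  have g1 := hx1 (10 ^ N) hx (N, (K, (w, a))) (by
    rw [mem_product, mem_filter, mem_range, mem_product, mem_range, mem_product, mem_range, mem_range]
    refine ⟨⟨by simp only; omega, rfl⟩, ?_, ?_, ?_⟩
    · show K < 10 ^ N + 1
      have := hadm.1
      omega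
    · show w < 10 * 10 ^ N
      have h2 : 10 ^ (K + 1) ≤ 10 ^ (N + 1) := Nat.pow_le_pow_right (by norm_num) (by have := hadm.1; omega)
      have h3 : 10 ^ (N + 1) = 10 * 10 ^ N := by ring
      have := hadm.2.2.1
      omega
    · show a < 11
      have := hadm.2.2.2
      omega)
  simp only at g1
  rw [if_pos hadm] at g1
  have e2 : ∑ m ∈ Cl k N K w a, Pool.Agent.N233.GM.rho1 z m = ∑ m ∈ Cl k N K w a, Pool.Agent.N233.GM.rho z m := by
    refine sum_congr rfl fun m hm => ?_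
    refine Pool.Agent.N233.GM.rho1_eq z _ (hm1 m ?_)
    have h1 := (Cl_low k N K w a m hadm.1 hadm.2.1 hm).1
    have h2 : 10 ^ N ≤ 10 ^ (2 * N) := Nat.pow_le_pow_right (by norm_num) (by omega)
    have := le_trans (le_max_right x1 m1) hN
    omega
  rw [e2] at g1
  refine g1.trans (le_of_eq ?_)
  push_cast
  rw [Real.log_pow]
  ring

end

open Classical in
/-- the expected number is large -/
theorem E_low (k : ℕ) (θ : ℝ) (hθ1 : θ < 1) (z : ℕ → ℕ)
    (hz : ∀ᶠ m : ℕ in atTop, (z m : ℝ) ≤ (m : ℝ) ^ ((1 - θ) / 51))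
    (hlow : ∀ᶠ N : ℕ in atTop, ∀ K : ℕ, (K : ℝ) ≤ θ * N → ∀ w : ℕ, 10 ^ K ≤ w → w < 10 ^ (K + 1) → (w / 10 ^ K).Coprime 10 →
      ∀ a : ℕ, a + k ≤ 10 → (6 : ℝ) ^ (N - K) ≤
        (((Cl k N K w a).filter (fun n => ∀ p : ℕ, p ∈ n.primeFactorsList → (10 : ℝ) ^ (((N - K : ℕ) : ℝ) / 25) < p)).card : ℝ)) :
    ∀ᶠ N : ℕ in atTop, ∀ K : ℕ, (K : ℝ) ≤ θ * N → ∀ w : ℕ, 10 ^ K ≤ w → w < 10 ^ (K + 1) → (w / 10 ^ K).Coprime 10 →
      ∀ a : ℕ, a + k ≤ 10 → (6 : ℝ) ^ (N - K) / (9 * N) ≤ ∑ m ∈ Cl k N K w a, Pool.Agent.N233.GM.rho z m := by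
  obtain ⟨m1, hm1⟩ := eventually_atTop.1 hz
  filter_upwards [hlow, eventually_ge_atTop (max m1 25)] with N h1 h2 K hK w hw1 hw2 hw3 a ha
  have hN25 : 25 ≤ N := le_trans (le_max_right _ _) h2
  have hNr : (25 : ℝ) ≤ N := by exact_mod_cast hN25
  have hKN : K ≤ N := by
    have : (K : ℝ) ≤ N := by nlinarith
    exact_mod_cast this
  have hcard := h1 K hK w hw1 hw2 hw3 a ha
  have hlog10 : Real.log 10 ≤ 3 := by
    have : (10 : ℝ) ≤ 2 ^ 4 := by norm_num
    have h := Real.log_le_log (by norm_num) this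
    rw [Real.log_pow] at h
    have := Real.log_two_lt_d9
    push_cast at h
    linarith
  have hlog10' : 0 < Real.log 10 := Real.log_pos (by norm_num)
  have hterm : ∀ m ∈ (Cl k N K w a).filter (fun n => ∀ p : ℕ, p ∈ n.primeFactorsList → (10 : ℝ) ^ (((N - K : ℕ) : ℝ) / 25) < p),
      1 / (9 * (N : ℝ)) ≤ Pool.Agent.N233.GM.rho z m := by
    intro m hm
    rw [mem_filter] at hm
    obtain ⟨hm2, hm3⟩ := hm
    obtain ⟨g1, g2⟩ := Cl_low k N K w a m hKN hw1 hm2
    have hNm : N < m := by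
      have e1 : N < 10 ^ N := Nat.lt_pow_self (by norm_num)
      have e3 : 10 ^ N ≤ 10 ^ (2 * N) := Nat.pow_le_pow_right (by norm_num) (by omega)
      omega
    have hmr : (1 : ℝ) < m := by exact_mod_cast (by omega : 1 < m)
    have hlm0 : 0 < Real.log m := Real.log_pos hmr
    have e10 : (m : ℝ) ≤ (10 : ℝ) ^ (2 * N + 1) := by exact_mod_cast g2.le
    have hlm : Real.log m ≤ 9 * N := by
      have e2 := Real.log_le_log (by linarith) e10
      rw [Real.log_pow] at e2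
      push_cast at e2
      nlinarith
    have hr : Pool.Agent.N233.GM.Rough z m := by
      intro q hq hqz hqm
      have e1 := hm3 q ((Nat.mem_primeFactorsList (by omega)).2 ⟨hq, hqm⟩)
      have e3 : (q : ℝ) ≤ (10 : ℝ) ^ (((N - K : ℕ) : ℝ) / 25) := by
        calc (q : ℝ) ≤ z m := by exact_mod_cast hqz
          _ ≤ (m : ℝ) ^ ((1 - θ) / 51) := hm1 m (by have := le_trans (le_max_left m1 25) h2; omega)
          _ ≤ ((10 : ℝ) ^ (2 * N + 1)) ^ ((1 - θ) / 51) := Real.rpow_le_rpow (by linarith) e10 (by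
              have : 0 < 1 - θ := by linarith
              positivity)
          _ = (10 : ℝ) ^ (((2 * N + 1 : ℕ) : ℝ) * ((1 - θ) / 51)) := by
              rw [← Real.rpow_natCast, ← Real.rpow_mul (by norm_num)]
          _ ≤ (10 : ℝ) ^ (((N - K : ℕ) : ℝ) / 25) := by
              apply Real.rpow_le_rpow_of_exponent_le (by norm_num)
              rw [Nat.cast_sub hKN]
              push_cast
              have f1 : (1 - θ) * N ≤ (N : ℝ) - K := by linarith
              have f2 : 0 < 1 - θ := by linarith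
              rw [le_div_iff₀ (by norm_num)]
              nlinarith
      linarith
    unfold Pool.Agent.N233.GM.rho
    rw [if_pos hr]
    have hW := Pool.Agent.N233.GM.W_ge (z m)
    rw [div_le_div_iff₀ (by positivity) hlm0]
    nlinarith
  have hnn : ∀ m, 0 ≤ Pool.Agent.N233.GM.rho z m := by
    intro m
    unfold Pool.Agent.N233.GM.rho
    split_ifs
    · exact div_nonneg (zero_le_one.trans (Pool.Agent.N233.GM.W_ge _)) (Real.log_natCast_nonneg m)
    · exact le_rfl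
  calc (6 : ℝ) ^ (N - K) / (9 * N) = (6 : ℝ) ^ (N - K) * (1 / (9 * N)) := by rw [mul_one_div]
    _ ≤ ((Cl k N K w a).filter (fun n => ∀ p : ℕ, p ∈ n.primeFactorsList → (10 : ℝ) ^ (((N - K : ℕ) : ℝ) / 25) < p)).card * (1 / (9 * N)) :=
        mul_le_mul_of_nonneg_right hcard (by positivity)
    _ = ∑ m ∈ (Cl k N K w a).filter (fun n => ∀ p : ℕ, p ∈ n.primeFactorsList → (10 : ℝ) ^ (((N - K : ℕ) : ℝ) / 25) < p), 1 / (9 * (N : ℝ)) := by
        rw [sum_const, nsmul_eq_mul]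
    _ ≤ ∑ m ∈ (Cl k N K w a).filter (fun n => ∀ p : ℕ, p ∈ n.primeFactorsList → (10 : ℝ) ^ (((N - K : ℕ) : ℝ) / 25) < p),
        Pool.Agent.N233.GM.rho z m := sum_le_sum hterm
    _ ≤ _ := sum_le_sum_of_subset_of_nonneg (filter_subset _ _) fun m _ _ => hnn m

/-- from the law with an error to the asymptotic formula -/
theorem final (k : ℕ) (θ : ℝ) (hθ1 : θ < 1) (R E : ℕ → ℕ → ℕ → ℕ → ℝ)
    (hE : ∀ᶠ N : ℕ in atTop, ∀ K : ℕ, (K : ℝ) ≤ θ * N → ∀ w : ℕ, 10 ^ K ≤ w → w < 10 ^ (K + 1) → (w / 10 ^ K).Coprime 10 →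
      ∀ a : ℕ, a + k ≤ 10 → (6 : ℝ) ^ (N - K) / (9 * N) ≤ E N K w a)
    (h : ∀ η : ℝ, 0 < η → ∃ C : ℝ, 0 ≤ C ∧ ∀ᶠ N : ℕ in atTop, ∀ K w a : ℕ, Adm k N K w a →
      |R N K w a - E N K w a| ≤ η * E N K w a + C * N) :
    ∀ η : ℝ, 0 < η → ∀ᶠ N : ℕ in atTop, ∀ K : ℕ, (K : ℝ) ≤ θ * N → ∀ w : ℕ, 10 ^ K ≤ w → w < 10 ^ (K + 1) →
      (w / 10 ^ K).Coprime 10 → ∀ a : ℕ, a + k ≤ 10 → |R N K w a - E N K w a| ≤ η * E N K w a := by
  intro η hη
  obtain ⟨C, hC0, hC⟩ := h (η / 2) (by positivity)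
  have hθ : 0 < 1 - θ := by linarith
  -- `6 ^ ((1 - θ) N)` is larger than any constant times `N ^ 2`
  have hexp : ∀ᶠ N : ℕ in atTop, (18 * C + 1) / η * (N : ℝ) ^ 2 ≤ (6 : ℝ) ^ ((1 - θ) * N) := by
    have h1 := isLittleO_pow_exp_pos_mul_atTop (k := 2) (b := (1 - θ)) hθ
    have h2 := h1.def (c := η / (18 * C + 1)) (by positivity)
    filter_upwards [tendsto_natCast_atTop_atTop.eventually h2] with N hN
    rw [Real.norm_of_nonneg (by positivity), Real.norm_of_nonneg (by positivity)] at hN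
    have h3 : Real.exp ((1 - θ) * N) ≤ (6 : ℝ) ^ ((1 - θ) * N) := by
      rw [Real.rpow_def_of_pos (by norm_num)]
      apply Real.exp_le_exp.2
      have h6 : 1 ≤ Real.log 6 := by
        have e1 : Real.exp 1 ≤ 6 := by
          have := Real.exp_one_lt_d9
          linarith
        have := Real.log_le_log (Real.exp_pos 1) e1
        rwa [Real.log_exp] at this
      have : 0 ≤ (1 - θ) * N := by positivity
      nlinarith
    calc (18 * C + 1) / η * (N : ℝ) ^ 2 ≤ (18 * C + 1) / η * (η / (18 * C + 1) * Real.exp ((1 - θ) * N)) :=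
          mul_le_mul_of_nonneg_left hN (by positivity)
      _ = Real.exp ((1 - θ) * N) := by field_simp
      _ ≤ _ := h3
  filter_upwards [hC, hE, hexp, eventually_ge_atTop 1] with N h1 h2 h3 h4 K hK w hw1 hw2 hw3 a ha
  have hNr : (1 : ℝ) ≤ N := by exact_mod_cast h4
  have hKN : K ≤ N := by
    have : (K : ℝ) ≤ N := by nlinarith
    exact_mod_cast this
  have g1 := h1 K w a ⟨hKN, hw1, hw2, ha⟩
  have g2 := h2 K hK w hw1 hw2 hw3 a ha
  have g3 : (6 : ℝ) ^ ((1 - θ) * N) ≤ (6 : ℝ) ^ (N - K) := by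
    rw [← Real.rpow_natCast]
    apply Real.rpow_le_rpow_of_exponent_le (by norm_num)
    rw [Nat.cast_sub hKN]
    linarith
  have g4 : C * N ≤ η / 2 * E N K w a := by
    have g5 : (18 * C + 1) / η * (N : ℝ) ^ 2 / (9 * N) ≤ E N K w a := by
      refine le_trans ?_ g2
      exact div_le_div_of_nonneg_right (h3.trans g3) (by positivity)
    have g6 : C * N ≤ η / 2 * ((18 * C + 1) / η * (N : ℝ) ^ 2 / (9 * N)) := by
      have e : η / 2 * ((18 * C + 1) / η * (N : ℝ) ^ 2 / (9 * N)) = (C + 1 / 18) * N := by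
        field_simp
        ring
      rw [e]
      nlinarith
    exact g6.trans (mul_le_mul_of_nonneg_left g5 (by positivity))
  linarith

end Pool.Agent.Run7.h414.PM.PalD
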