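import Mathlib

set_option autoImplicit false

/-! From the frequencies of the patterns along the indices to the ratios of the counting functions. -/

namespace Pool.Agent.Run7.h414.PM
open Finset Filter
open scoped Topology

open Classical in
lemma le_iff_lt_count (T : Set ℕ) (hT : T.Infinite) (i x : ℕ) :
    Nat.nth (· ∈ T) i ≤ x ↔ i < Nat.count (· ∈ T) (x + 1) := by
  have h : (Set.ofPred (· ∈ T)).Infinite := hT
  rw [Nat.lt_nth_iff_count_lt h, Nat.lt_succ_iff]

open Classical in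
lemma count_top (T : Set ℕ) (hT : T.Infinite) : Tendsto (fun x : ℕ => Nat.count (· ∈ T) (x + 1)) atTop atTop := by
  have h : (Set.ofPred (· ∈ T)).Infinite := hT
  rw [tendsto_atTop]
  intro b
  filter_upwards [eventually_ge_atTop (Nat.nth (· ∈ T) b)] with x hx
  exact ((le_iff_lt_count T hT b x).1 hx).le

open Classical in
/-- the ratios of the counting functions -/
theorem ratios (T : Set ℕ) (hT : T.Infinite)
    (h : ∀ (k : ℕ) (a : ℕ → ℕ), (∀ j ≤ k, a j = 1 ∨ a j = 3) →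
      Tendsto (fun M : ℕ => (((range M).filter (fun i => ∀ j ≤ k, Nat.nth (· ∈ T) (i + j) % 4 = a j)).card : ℝ) / M)
        atTop (𝓝 ((1 / 2) ^ (k + 1)))) (a b : ℕ) (ha : a = 1 ∨ a = 3) (hb : b = 1 ∨ b = 3) :
    Tendsto (fun x : ℕ => (Set.ncard {i : ℕ | Nat.nth (· ∈ T) i ≤ x ∧ Nat.nth (· ∈ T) i % 4 = a ∧ Nat.nth (· ∈ T) (i + 1) % 4 = b} : ℝ)
      / Set.ncard {i : ℕ | Nat.nth (· ∈ T) i ≤ x ∧ Nat.nth (· ∈ T) i % 4 = a}) atTop (𝓝 (1 / 2)) := by
  have h0 := (h 0 (fun _ => a) (fun _ _ => ha)).comp (count_top T hT)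
  have h1 := (h 1 (fun j => if j = 0 then a else b) (by
    intro j _
    by_cases hj : j = 0
    · simp only [hj, if_true]
      exact ha
    · simp only [hj, if_false]
      exact hb)).comp (count_top T hT)
  have h2 := h1.div h0 (by norm_num)
  have e : ((1 : ℝ) / 2) ^ (1 + 1) / (1 / 2) ^ (0 + 1) = 1 / 2 := by norm_num
  rw [e] at h2
  refine h2.congr' ?_
  filter_upwards [(count_top T hT).eventually_ge_atTop 1] with x hx
  obtain ⟨M, hM⟩ : ∃ M, M = Nat.count (· ∈ T) (x + 1) := ⟨_, rfl⟩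
  have hM0 : (0 : ℝ) < M := by
    rw [hM]
    exact_mod_cast hx
  have s1 : {i : ℕ | Nat.nth (· ∈ T) i ≤ x ∧ Nat.nth (· ∈ T) i % 4 = a ∧ Nat.nth (· ∈ T) (i + 1) % 4 = b} =
      ↑((range M).filter (fun i => ∀ j ≤ 1, Nat.nth (· ∈ T) (i + j) % 4 = if j = 0 then a else b)) := by
    ext i
    simp only [Set.mem_ofPred_eq, coe_filter, mem_range, le_iff_lt_count T hT, ← hM]
    constructor
    · rintro ⟨g1, g2, g3⟩
      refine ⟨g1, fun j hj => ?_⟩
      interval_cases j
      · simpa using g2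
      · simpa using g3
    · rintro ⟨g1, g2⟩
      exact ⟨g1, by simpa using g2 0 (by norm_num), by simpa using g2 1 le_rfl⟩
  have s0 : {i : ℕ | Nat.nth (· ∈ T) i ≤ x ∧ Nat.nth (· ∈ T) i % 4 = a} =
      ↑((range M).filter (fun i => ∀ j ≤ 0, Nat.nth (· ∈ T) (i + j) % 4 = a)) := by
    ext i
    simp only [Set.mem_ofPred_eq, coe_filter, mem_range, le_iff_lt_count T hT, ← hM]
    constructor
    · rintro ⟨g1, g2⟩
      refine ⟨g1, fun j hj => ?_⟩
      rw [Nat.le_zero.1 hj]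
      exact g2
    · rintro ⟨g1, g2⟩
      exact ⟨g1, g2 0 le_rfl⟩
  rw [s1, s0, Set.ncard_coe_finset, Set.ncard_coe_finset]
  simp only [Function.comp, Pi.div_apply, ← hM]
  rw [div_div_div_cancel_right₀ hM0.ne']
  congr!

end Pool.Agent.Run7.h414.PM
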