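import Pool.Agent.R494.SPL2
import Pool.Agent.N233.GM.Law
import Pool.Agent.Run7.h414.PM.Pert

set_option autoImplicit false

/-! Palindromes with prescribed leading digits in random models. -/

namespace Pool.Agent.Run7.h414.PM.Pal
open Finset Filter MeasureTheory
open scoped Topology
open Pool.Agent.R528.RM (dens In)

/-- the palindromes with at most `2 N + 1` base `b` digits which have the same `N - L` leading digits as `x` -/
def Cl (b N L x : ℕ) : Finset ℕ :=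
  (range (b ^ (2 * N + 1))).filter (fun n => (Nat.digits b n).reverse = Nat.digits b n ∧ n / b ^ (N + L + 1) = x / b ^ (N + L + 1))

lemma Cl_low (b N L x n : ℕ) (hb : 2 ≤ b) (hL : L < N) (hx : b ^ (2 * N) ≤ x) (hn : n ∈ Cl b N L x) :
    b ^ (2 * N) ≤ n ∧ n < b ^ (2 * N + 1) := by
  unfold Cl at hn
  rw [mem_filter, mem_range] at hn
  obtain ⟨h1, -, h2⟩ := hn
  refine ⟨?_, h1⟩
  obtain ⟨D, hD⟩ : ∃ D, D = b ^ (N + L + 1) := ⟨_, rfl⟩
  have hdv : D ∣ b ^ (2 * N) := by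
    rw [hD]
    exact pow_dvd_pow b (by omega)
  rw [← hD] at h2
  calc b ^ (2 * N) = D * (b ^ (2 * N) / D) := (Nat.mul_div_cancel' hdv).symm
    _ ≤ D * (x / D) := Nat.mul_le_mul_left _ (Nat.div_le_div_right hx)
    _ = D * (n / D) := by rw [h2]
    _ ≤ n := Nat.mul_div_le _ _

lemma logt' : Tendsto (fun n : ℕ => Real.log (n : ℝ)) atTop atTop := Real.tendsto_log_atTop.comp tendsto_natCast_atTop_atTop

section

variable {Ω : Type} {m0 : MeasurableSpace Ω} {μ : Measure Ω} [IsProbabilityMeasure μ] {ℱ : Filtration ℕ m0} {A : ℕ → Set Ω}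

/-- the law in the models -/
theorem model (b : ℕ) (hb : 2 ≤ b) (z : ℕ → ℕ) (hV : ∀ᶠ m : ℕ in atTop, Pool.Agent.N233.GM.W (z m) / Real.log m < 1)
    (hA : ∀ n, MeasurableSet[ℱ n] (A n)) (hcop : ∀ n, ¬ Pool.Agent.N233.GM.Rough z n → A n = ∅)
    (hd : ∀ᵐ ω ∂μ, Tendsto (fun n : ℕ => dens μ ℱ A n ω * Real.log n / Pool.Agent.N233.GM.W (z (n + 1)))
      (atTop ⊓ 𝓟 {n : ℕ | Pool.Agent.N233.GM.Rough z (n + 1)}) (𝓝 1)) :
    ∀ᵐ ω ∂μ, ∀ η : ℝ, 0 < η → ∃ K : ℝ, 0 ≤ K ∧ ∀ᶠ x : ℕ in atTop, ∀ N L : ℕ, L < N → b ^ (2 * N) ≤ x → x < b ^ (2 * N + 1) →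
      |∑ m ∈ Cl b N L x, In A m ω - ∑ m ∈ Cl b N L x, Pool.Agent.N233.GM.rho z m| ≤
        η * ∑ m ∈ Cl b N L x, Pool.Agent.N233.GM.rho z m + K * Real.log x := by
  classical
  have hprof := Pool.Agent.N233.GM.profile (μ := μ) (ℱ := ℱ) (A := A) z hV hcop hd
  have hdiv : Tendsto (fun x : ℕ => x / b) atTop atTop := Nat.tendsto_div_const_atTop (by omega)
  have h := Pool.Agent.R494.SPL.sparse_law (μ := μ) (ℱ := ℱ) (A := A) hA
    (fun n => (Pool.Agent.N233.GM.rho1_bounds z n).1) hprof 4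
    (fun x : ℕ => ({x} : Finset ℕ) ×ˢ (range (x + 1) ×ˢ range (x + 1)))
    (by
      filter_upwards [eventually_ge_atTop 2] with x hx
      rw [card_product, card_product, card_singleton, card_range, one_mul]
      nlinarith [Nat.mul_le_mul hx hx, Nat.mul_le_mul (Nat.mul_le_mul hx hx) (Nat.mul_le_mul hx hx)])
    (fun a : ℕ × (ℕ × ℕ) => if b ^ (2 * a.2.1) ≤ a.1 ∧ a.1 < b ^ (2 * a.2.1 + 1) ∧ a.2.2 < a.2.1 then Cl b a.2.1 a.2.2 a.1 else ∅)
    (fun x => x / b) hdiv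
    (by
      refine Eventually.of_forall fun x a ha m hm => ?_
      obtain ⟨a1, N, L⟩ := a
      rw [mem_product, mem_singleton] at ha
      obtain ⟨ha1, -⟩ := ha
      simp only at ha1
      subst ha1
      beta_reduce at hm
      simp only at hm
      split_ifs at hm with hc
      · obtain ⟨c1, c2, c3⟩ := hc
        have h1 := (Cl_low b N L a1 m hb c3 c1 hm).1
        have h2 : a1 / b < b ^ (2 * N) := by
          rw [Nat.div_lt_iff_lt_mul (by omega), ← pow_succ]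
          exact c2
        omega
      · exact absurd hm (notMem_empty m))
  obtain ⟨m1, hm1⟩ := eventually_atTop.1 hV
  filter_upwards [h] with ω hω η hη
  obtain ⟨K, hK0, hK⟩ := hω η hη
  refine ⟨K, hK0, ?_⟩
  filter_upwards [hK, eventually_ge_atTop (m1 * b)] with x g1 g2 N L hL hx1 hx2
  have hNx : N ≤ x := by
    have e1 : N < 2 ^ N := Nat.lt_two_pow_self
    have e2 : 2 ^ N ≤ b ^ N := Nat.pow_le_pow_left hb N
    have e3 : b ^ N ≤ b ^ (2 * N) := Nat.pow_le_pow_right (by omega) (by omega)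
    omega
  have g4 := g1 (x, (N, L)) (by
    rw [mem_product, mem_singleton, mem_product, mem_range, mem_range]
    exact ⟨rfl, by simp only; omega, by simp only; omega⟩)
  simp only at g4
  rw [if_pos ⟨hx1, hx2, hL⟩] at g4
  have e2 : ∑ m ∈ Cl b N L x, Pool.Agent.N233.GM.rho1 z m = ∑ m ∈ Cl b N L x, Pool.Agent.N233.GM.rho z m := by
    refine sum_congr rfl fun m hm => ?_
    refine Pool.Agent.N233.GM.rho1_eq z _ (hm1 m ?_)
    have h1 := (Cl_low b N L x m hb hL hx1 hm).1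
    have h3 : m1 * b < b ^ (2 * N) * b := by
      rw [← pow_succ]
      exact lt_of_le_of_lt g2 hx2
    have h4 : m1 < b ^ (2 * N) := Nat.lt_of_mul_lt_mul_right h3
    omega
  rw [e2] at g4
  exact g4

end

/-- powers of the number of digits are small -/
lemma pow_small (b C₀ : ℕ) (hb : 2 ≤ b) (N L : ℕ) (hN : 1 ≤ N) (hL : ((35 * C₀ + 6 : ℕ) : ℝ) * Real.log N ≤ L) :
    (N : ℝ) ^ (24 * C₀ + 4) ≤ (b : ℝ) ^ L := by
  have hNr : (1 : ℝ) ≤ N := by exact_mod_cast hN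
  have hl0 : 0 ≤ Real.log N := Real.log_nonneg hNr
  have h2 : (0.69 : ℝ) < Real.log 2 := by
    have := Real.log_two_gt_d9
    linarith
  have hbr : (2 : ℝ) ≤ b := by exact_mod_cast hb
  have h3 : Real.log 2 ≤ Real.log b := Real.log_le_log (by norm_num) hbr
  rw [← Real.exp_log (show (0 : ℝ) < (N : ℝ) ^ (24 * C₀ + 4) by positivity),
    ← Real.exp_log (show (0 : ℝ) < (b : ℝ) ^ L by positivity)]
  apply Real.exp_le_exp.2
  rw [Real.log_pow, Real.log_pow]
  have hC : (0 : ℝ) ≤ C₀ := Nat.cast_nonneg C₀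
  push_cast at hL ⊢
  have h4 : (24 * (C₀ : ℝ) + 4) * Real.log N ≤ (35 * C₀ + 6) * Real.log N * 0.69 := by
    have : (24 * (C₀ : ℝ) + 4) ≤ (35 * C₀ + 6) * 0.69 := by nlinarith
    nlinarith
  have h5 : (35 * (C₀ : ℝ) + 6) * Real.log N * 0.69 ≤ L * Real.log b := by
    have h6 : (0 : ℝ) ≤ (35 * (C₀ : ℝ) + 6) * Real.log N := by positivity
    calc (35 * (C₀ : ℝ) + 6) * Real.log N * 0.69 ≤ (35 * (C₀ : ℝ) + 6) * Real.log N * Real.log b := by
          apply mul_le_mul_of_nonneg_left _ h6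
          linarith
      _ ≤ L * Real.log b := mul_le_mul_of_nonneg_right hL (by linarith)
  linarith

/-- the expected number is large -/
theorem E_low (b C₀ : ℕ) (hb : 2 ≤ b) (z : ℕ → ℕ) (hz : ∀ᶠ m : ℕ in atTop, (z m : ℝ) ≤ Real.log m ^ C₀) (c : ℝ) (L₀ : ℕ)
    (hlow : ∀ L N x : ℕ, L₀ ≤ L → L < N → b ^ (2 * N) ≤ x → x < b ^ (2 * N + 1) → (x / b ^ (2 * N)).Coprime b →
      c * (b : ℝ) ^ L / L ≤ (((Cl b N L x).filter (fun n => ∀ p ∈ n.primeFactorsList, b ^ L < p ^ 12)).card : ℝ)) :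
    ∀ᶠ N : ℕ in atTop, ∀ L x : ℕ, ((35 * C₀ + 6 : ℕ) : ℝ) * Real.log N ≤ L → L < N → b ^ (2 * N) ≤ x → x < b ^ (2 * N + 1) →
      (x / b ^ (2 * N)).Coprime b →
      c * (b : ℝ) ^ L / (L * (3 * N * Real.log b)) ≤ ∑ m ∈ Cl b N L x, Pool.Agent.N233.GM.rho z m := by
  classical
  obtain ⟨m1, hm1⟩ := eventually_atTop.1 hz
  have hbr : (2 : ℝ) ≤ b := by exact_mod_cast hb
  have hlb : 0 < Real.log b := Real.log_pos (by linarith)
  filter_upwards [eventually_ge_atTop (max m1 2), logt'.eventually_ge_atTop (L₀ : ℝ),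
    tendsto_natCast_atTop_atTop.eventually_ge_atTop (3 * Real.log b)] with N h1 h2 h3 L x hL1 hL2 hx1 hx2 hx3
  have hN2 : 2 ≤ N := le_trans (le_max_right _ _) h1
  have hNr : (2 : ℝ) ≤ N := by exact_mod_cast hN2
  have hL0 : L₀ ≤ L := by
    have : (L₀ : ℝ) ≤ L := by
      refine h2.trans (le_trans ?_ hL1)
      have hC : (1 : ℝ) ≤ ((35 * C₀ + 6 : ℕ) : ℝ) := by
        push_cast
        have : (0 : ℝ) ≤ C₀ := Nat.cast_nonneg C₀
        linarith
      have : 0 ≤ Real.log N := Real.log_natCast_nonneg N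
      nlinarith
    exact_mod_cast this
  have hcard := hlow L N x hL0 hL2 hx1 hx2 hx3
  have hpow := pow_small b C₀ hb N L (by omega) hL1
  have hterm : ∀ m ∈ (Cl b N L x).filter (fun n => ∀ p ∈ n.primeFactorsList, b ^ L < p ^ 12),
      1 / (3 * N * Real.log b) ≤ Pool.Agent.N233.GM.rho z m := by
    intro m hm
    rw [mem_filter] at hm
    obtain ⟨hm2, hm3⟩ := hm
    obtain ⟨g1, g2⟩ := Cl_low b N L x m hb hL2 hx1 hm2
    have hNm : N < m := by
      have e1 : N < 2 ^ N := Nat.lt_two_pow_self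
      have e2 : 2 ^ N ≤ b ^ N := Nat.pow_le_pow_left hb N
      have e3 : b ^ N ≤ b ^ (2 * N) := Nat.pow_le_pow_right (by omega) (by omega)
      omega
    have hmr : (1 : ℝ) < m := by exact_mod_cast (by omega : 1 < m)
    have hlm0 : 0 < Real.log m := Real.log_pos hmr
    have hlm : Real.log m ≤ 3 * N * Real.log b := by
      have e1 : (m : ℝ) ≤ (b : ℝ) ^ (2 * N + 1) := by exact_mod_cast g2.le
      have e2 := Real.log_le_log (by linarith) e1
      rw [Real.log_pow] at e2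
      push_cast at e2
      nlinarith
    have hr : Pool.Agent.N233.GM.Rough z m := by
      intro q hq hqz hqm
      have e1 := hm3 q ((Nat.mem_primeFactorsList (by omega)).2 ⟨hq, hqm⟩)
      have e2 : (b : ℝ) ^ L < (q : ℝ) ^ 12 := by exact_mod_cast e1
      have e3 : (q : ℝ) ≤ (N : ℝ) ^ (2 * C₀) := by
        calc (q : ℝ) ≤ z m := by exact_mod_cast hqz
          _ ≤ Real.log m ^ C₀ := hm1 m (by have := le_trans (le_max_left m1 2) h1; omega)
          _ ≤ ((N : ℝ) ^ 2) ^ C₀ := by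
              apply pow_le_pow_left₀ hlm0.le
              refine hlm.trans ?_
              nlinarith
          _ = (N : ℝ) ^ (2 * C₀) := by rw [← pow_mul]
      have e4 : (q : ℝ) ^ 12 ≤ (N : ℝ) ^ (24 * C₀) := by
        calc (q : ℝ) ^ 12 ≤ ((N : ℝ) ^ (2 * C₀)) ^ 12 := pow_le_pow_left₀ (Nat.cast_nonneg _) e3 12
          _ = (N : ℝ) ^ (24 * C₀) := by rw [← pow_mul]; congr 1; ring
      have e5 : (N : ℝ) ^ (24 * C₀) ≤ (N : ℝ) ^ (24 * C₀ + 4) := pow_le_pow_right₀ (by linarith) (by omega)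
      linarith
    unfold Pool.Agent.N233.GM.rho
    rw [if_pos hr]
    have hW := Pool.Agent.N233.GM.W_ge (z m)
    rw [div_le_div_iff₀ (by positivity) hlm0]
    nlinarith
  have hnn : ∀ m, 0 ≤ Pool.Agent.N233.GM.rho z m := by
    intro m
    unfold Pool.Agent.N233.GM.rho
    split_ifs
    · exact div_nonneg (zero_le_one.trans (Pool.Agent.N233.GM.W_ge _)) (Real.log_natCast_nonneg m)
    · exact le_rfl
  calc c * (b : ℝ) ^ L / (L * (3 * N * Real.log b)) = c * (b : ℝ) ^ L / L * (1 / (3 * N * Real.log b)) := by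
        rw [div_mul_div_comm, mul_one]
    _ ≤ ((Cl b N L x).filter (fun n => ∀ p ∈ n.primeFactorsList, b ^ L < p ^ 12)).card * (1 / (3 * N * Real.log b)) :=
        mul_le_mul_of_nonneg_right hcard (by positivity)
    _ = ∑ m ∈ (Cl b N L x).filter (fun n => ∀ p ∈ n.primeFactorsList, b ^ L < p ^ 12), 1 / (3 * N * Real.log b) := by
        rw [sum_const, nsmul_eq_mul]
    _ ≤ ∑ m ∈ (Cl b N L x).filter (fun n => ∀ p ∈ n.primeFactorsList, b ^ L < p ^ 12), Pool.Agent.N233.GM.rho z m := sum_le_sum hterm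
    _ ≤ _ := sum_le_sum_of_subset_of_nonneg (filter_subset _ _) fun m _ _ => hnn m

/-- from the law with an error to the asymptotic formula -/
theorem final (b C₀ : ℕ) (hb : 2 ≤ b) (R E : ℕ → ℕ → ℕ → ℝ) (c : ℝ) (hc : 0 < c)
    (hE : ∀ᶠ N : ℕ in atTop, ∀ L x : ℕ, ((35 * C₀ + 6 : ℕ) : ℝ) * Real.log N ≤ L → L < N → b ^ (2 * N) ≤ x → x < b ^ (2 * N + 1) →
      (x / b ^ (2 * N)).Coprime b → c * (b : ℝ) ^ L / (L * (3 * N * Real.log b)) ≤ E N L x)
    (h : ∀ η : ℝ, 0 < η → ∃ K : ℝ, 0 ≤ K ∧ ∀ᶠ x : ℕ in atTop, ∀ N L : ℕ, L < N → b ^ (2 * N) ≤ x → x < b ^ (2 * N + 1) →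
      |R N L x - E N L x| ≤ η * E N L x + K * Real.log x) :
    ∀ η : ℝ, 0 < η → ∀ᶠ N : ℕ in atTop, ∀ L x : ℕ, ((35 * C₀ + 6 : ℕ) : ℝ) * Real.log N ≤ L → L < N →
      b ^ (2 * N) ≤ x → x < b ^ (2 * N + 1) → (x / b ^ (2 * N)).Coprime b → |R N L x - E N L x| ≤ η * E N L x := by
  intro η hη
  obtain ⟨K, hK0, hK⟩ := h (η / 2) (by positivity)
  obtain ⟨x1, hx1'⟩ := eventually_atTop.1 hK
  have hbr : (2 : ℝ) ≤ b := by exact_mod_cast hb
  have hlb : 0 < Real.log b := Real.log_pos (by linarith)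
  filter_upwards [hE, eventually_ge_atTop (max x1 1),
    tendsto_natCast_atTop_atTop.eventually_ge_atTop (18 * K * Real.log b ^ 2 / (η * c)),
    logt'.eventually_gt_atTop 0] with N h1 h2 h3 h3' L x hL1 hL2 hxa hxb hxc
  have hN1 : 1 ≤ N := le_trans (le_max_right _ _) h2
  have hNr : (1 : ℝ) ≤ N := by exact_mod_cast hN1
  have hNx : N ≤ x := by
    have e1 : N < 2 ^ N := Nat.lt_two_pow_self
    have e2 : 2 ^ N ≤ b ^ N := Nat.pow_le_pow_left hb N
    have e3 : b ^ N ≤ b ^ (2 * N) := Nat.pow_le_pow_right (by omega) (by omega)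
    omega
  have g1 := h1 L x hL1 hL2 hxa hxb hxc
  have g2 := hx1' x ((le_trans (le_max_left _ _) h2).trans hNx) N L hL2 hxa hxb
  have hpow := pow_small b C₀ hb N L hN1 hL1
  have hL0 : (0 : ℝ) < L := by
    refine lt_of_lt_of_le ?_ hL1
    have : (0 : ℝ) < ((35 * C₀ + 6 : ℕ) : ℝ) := by positivity
    positivity
  have hLN : (L : ℝ) ≤ N := by exact_mod_cast hL2.le
  have hlx : Real.log x ≤ 3 * N * Real.log b := by
    have hx0 : (0 : ℝ) < x := by exact_mod_cast (by omega : 0 < x)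
    have e1 : (x : ℝ) ≤ (b : ℝ) ^ (2 * N + 1) := by exact_mod_cast hxb.le
    have e2 := Real.log_le_log hx0 e1
    rw [Real.log_pow] at e2
    push_cast at e2
    nlinarith
  have hb4 : (N : ℝ) ^ 4 ≤ (b : ℝ) ^ L := (pow_le_pow_right₀ hNr (by omega)).trans hpow
  have hE2 : c * (N : ℝ) ^ 2 / (3 * Real.log b) ≤ E N L x := by
    refine le_trans ?_ g1
    rw [div_le_div_iff₀ (by positivity) (by positivity)]
    have e1 : (N : ℝ) ^ 2 * (L * N) ≤ (b : ℝ) ^ L := by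
      calc (N : ℝ) ^ 2 * (L * N) ≤ (N : ℝ) ^ 2 * (N * N) := by
            apply mul_le_mul_of_nonneg_left _ (by positivity)
            exact mul_le_mul_of_nonneg_right hLN (by linarith)
        _ = (N : ℝ) ^ 4 := by ring
        _ ≤ _ := hb4
    calc c * (N : ℝ) ^ 2 * (L * (3 * N * Real.log b)) = c * (3 * Real.log b) * ((N : ℝ) ^ 2 * (L * N)) := by ring
      _ ≤ c * (3 * Real.log b) * (b : ℝ) ^ L := mul_le_mul_of_nonneg_left e1 (by positivity)
      _ = c * (b : ℝ) ^ L * (3 * Real.log b) := by ring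
  have hKE : K * Real.log x ≤ η / 2 * E N L x := by
    have e1 : K * Real.log x ≤ K * (3 * N * Real.log b) := mul_le_mul_of_nonneg_left hlx hK0
    have e2 : K * (3 * N * Real.log b) ≤ η / 2 * (c * (N : ℝ) ^ 2 / (3 * Real.log b)) := by
      rw [div_le_iff₀ (by positivity)] at h3
      rw [← mul_div_assoc, le_div_iff₀ (by positivity)]
      have e3 : K * (3 * N * Real.log b) * (3 * Real.log b) = N / 2 * (18 * K * Real.log b ^ 2) := by ring
      have e4 : η / 2 * (c * (N : ℝ) ^ 2) = N / 2 * (N * (η * c)) := by ring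
      rw [e3, e4]
      exact mul_le_mul_of_nonneg_left h3 (by positivity)
    have e5 : η / 2 * (c * (N : ℝ) ^ 2 / (3 * Real.log b)) ≤ η / 2 * E N L x := mul_le_mul_of_nonneg_left hE2 (by positivity)
    linarith
  linarith

end Pool.Agent.Run7.h414.PM.Pal
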