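import Pool.Agent.Run7.h414.PM.Det

set_option autoImplicit false

/-! Patterns of residues modulo 4 of consecutive elements of a set: the balance of the two classes. -/

namespace Pool.Agent.Run7.h414.PM
open Finset Filter
open scoped Topology

/-- `m` has no prime factor at most `z m` -/
def Rough (z : ℕ → ℕ) (m : ℕ) : Prop := ∀ q : ℕ, q.Prime → q ≤ z m → ¬ q ∣ m

/-- `∏_{q ≤ x} (1 - 1 / q)⁻¹` -/
noncomputable def W (x : ℕ) : ℝ := ∏ q ∈ (Icc 1 x).filter Nat.Prime, (1 - (q : ℝ)⁻¹)⁻¹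

open Classical in
/-- the density, at most one -/
noncomputable def rho1 (z : ℕ → ℕ) (m : ℕ) : ℝ := if Rough z m then min 1 (W (z m) / Real.log m) else 0

lemma fac_ge (q : ℕ) (hq : q.Prime) : 1 ≤ (1 - (q : ℝ)⁻¹)⁻¹ := by
  have hq2 : (1 : ℝ) < q := by exact_mod_cast hq.one_lt
  have h1 : (q : ℝ)⁻¹ < 1 := inv_lt_one_of_one_lt₀ hq2
  have h2 : 0 < (q : ℝ)⁻¹ := by positivity
  rw [one_le_inv₀ (by linarith)]
  linarith

lemma W_ge (x : ℕ) : 1 ≤ W x := by
  unfold W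
  have : ∀ q ∈ (Icc 1 x).filter Nat.Prime, 1 ≤ (1 - (q : ℝ)⁻¹)⁻¹ := fun q hq => fac_ge q (mem_filter.1 hq).2
  calc (1 : ℝ) = ∏ q ∈ (Icc 1 x).filter Nat.Prime, (1 : ℝ) := by simp
    _ ≤ _ := Finset.prod_le_prod (fun _ _ => zero_le_one) this

lemma ins (x : ℕ) : Icc 1 (x + 1) = insert (x + 1) (Icc 1 x) := by
  ext n
  simp only [mem_Icc, mem_insert]
  omega

lemma pw (a : ℝ) (ha : a < 2) (C : ℝ) : ∀ᶠ t : ℝ in atTop, C * t ^ a ≤ t ^ 2 := by
  filter_upwards [(tendsto_rpow_atTop (show 0 < 2 - a by linarith)).eventually_ge_atTop C, eventually_gt_atTop 0] with t h1 h2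
  calc C * t ^ a ≤ t ^ (2 - a) * t ^ a := mul_le_mul_of_nonneg_right h1 (by positivity)
    _ = t ^ 2 := by rw [← Real.rpow_add h2, sub_add_cancel, Real.rpow_two]

lemma W_le (x : ℕ) (hx : 1 ≤ x) : W x ≤ x := by
  induction x, hx using Nat.le_induction with
  | base =>
    unfold W
    have : (Icc 1 1).filter Nat.Prime = ∅ := by decide
    rw [this]
    simp
  | succ x hx ih =>
    have hx' : (0 : ℝ) < x := by exact_mod_cast hx
    by_cases hp : (x + 1).Prime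
    · have e : W (x + 1) = (1 - ((x + 1 : ℕ) : ℝ)⁻¹)⁻¹ * W x := by
        unfold W
        rw [ins x, filter_insert, if_pos hp, prod_insert (by simp)]
      have e2 : (1 - ((x + 1 : ℕ) : ℝ)⁻¹)⁻¹ = ((x + 1 : ℕ) : ℝ) / x := by
        push_cast
        field_simp
        rw [add_sub_cancel_right]
        field_simp
      rw [e, e2, div_mul_eq_mul_div, div_le_iff₀ hx']
      exact mul_le_mul_of_nonneg_left ih (Nat.cast_nonneg _)
    · have e : W (x + 1) = W x := by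
        unfold W
        rw [ins x, filter_insert, if_neg hp]
      rw [e]
      push_cast
      linarith

lemma rho1_bounds (z : ℕ → ℕ) (n : ℕ) : 0 ≤ rho1 z n ∧ rho1 z n ≤ 1 := by
  unfold rho1
  have h1 : 0 ≤ W (z n) := zero_le_one.trans (W_ge _)
  have h2 := Real.log_natCast_nonneg n
  split_ifs
  · exact ⟨by positivity, min_le_left _ _⟩
  · exact ⟨le_rfl, zero_le_one⟩

/-- the weight of the pair `m + 5, m + 7` -/
noncomputable def hh (z : ℕ → ℕ) (m : ℕ) : ℝ := rho1 z (m + 5) * rho1 z (m + 7)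

lemma hh_bounds (z : ℕ → ℕ) (n : ℕ) : 0 ≤ hh z n ∧ hh z n ≤ 1 :=
  ⟨mul_nonneg (rho1_bounds z _).1 (rho1_bounds z _).1, mul_le_one₀ (rho1_bounds z _).2 (rho1_bounds z _).1 (rho1_bounds z _).2⟩

/-- the sum of the weights -/
noncomputable def HH (z : ℕ → ℕ) (x : ℕ) : ℝ := ∑ m ∈ range x, hh z m

lemma hh_le_one (z : ℕ → ℕ) (x : ℕ) : HH z x ≤ x := by
  unfold HH
  calc ∑ m ∈ range x, hh z m ≤ ∑ m ∈ range x, (1 : ℝ) := sum_le_sum fun m _ => (hh_bounds z m).2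
    _ = x := by simp

/-- the sizes: for large `x`, all that is needed about `L = ∏_{q ≤ z (2 x)} q` -/
structure Sizes (z : ℕ → ℕ) (ε : ℝ) (x : ℕ) : Prop where
  logx : 8 ≤ Real.log x
  epsx : 8 ≤ ε * Real.log x
  L1 : (primorial (z (2 * x)) : ℝ) ≤ Real.log x ^ 2
  zx : (z (2 * x) : ℝ) ≤ Real.log x
  eta : 16 * (z (2 * x) : ℝ) ^ 2 * primorial (z (2 * x)) ≤ ε * Real.log x ^ 2
  big : Real.log x ^ 8 ≤ (x : ℝ) ^ (1 / 16 : ℝ)
  big2 : 16 ≤ (x : ℝ) ^ (1 / 16 : ℝ)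

lemma ratio2 : ∀ᶠ x : ℕ in atTop, Real.log ((2 * x : ℕ) : ℝ) ≤ 2 * Real.log x ∧ 8 ≤ Real.log x := by
  have h1 : Tendsto (fun x : ℕ => Real.log (x : ℝ)) atTop atTop := Real.tendsto_log_atTop.comp tendsto_natCast_atTop_atTop
  filter_upwards [h1.eventually_ge_atTop 8, eventually_ge_atTop 2] with x h2 h3
  refine ⟨?_, h2⟩
  have h4 : (2 : ℝ) ≤ x := by exact_mod_cast h3
  push_cast
  rw [Real.log_mul (by norm_num) (by positivity)]
  have := Real.log_le_log (by norm_num) h4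
  linarith

theorem sizes (z : ℕ → ℕ) (hz : ∀ᶠ n : ℕ in atTop, (z n : ℝ) ≤ Real.log (Real.log n)) (ε : ℝ) (hε : 0 < ε) :
    ∀ᶠ x : ℕ in atTop, Sizes z ε x := by
  have hlog : Tendsto (fun x : ℕ => Real.log (x : ℝ)) atTop atTop := Real.tendsto_log_atTop.comp tendsto_natCast_atTop_atTop
  have h2x : Tendsto (fun x : ℕ => 2 * x) atTop atTop := tendsto_id.const_mul_atTop' (by norm_num)
  have hz2 := h2x.eventually hz
  -- polynomial bounds in `log x`
  have a1 : ∀ᶠ t : ℝ in atTop, 2 * (2 * t) ^ (7 / 5 : ℝ) ≤ t ^ 2 := by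
    filter_upwards [pw (7 / 5) (by norm_num) 16, eventually_ge_atTop 1] with t ht ht1
    rw [Real.mul_rpow (by norm_num) (by linarith)]
    have h2 : (2 : ℝ) ^ (7 / 5 : ℝ) ≤ 2 ^ (2 : ℝ) := Real.rpow_le_rpow_of_exponent_le (by norm_num) (by norm_num)
    rw [Real.rpow_two] at h2
    have h3 : 0 ≤ t ^ (7 / 5 : ℝ) := by positivity
    nlinarith
  have a2 : ∀ᶠ t : ℝ in atTop, 16 * (Real.log (2 * t)) ^ 2 * (2 * t) ^ (7 / 5 : ℝ) ≤ ε * t ^ 2 := by
    have h := ((isLittleO_log_rpow_atTop (show (0 : ℝ) < 1 / 5 by norm_num)).def (c := 1) one_pos)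
    have h' := pw (9 / 5) (by norm_num) (64 / ε)
    have h2t : Tendsto (fun t : ℝ => 2 * t) atTop atTop := tendsto_id.const_mul_atTop (by norm_num)
    filter_upwards [h2t.eventually h, h', eventually_ge_atTop 1] with t ht ht' ht1
    rw [one_mul, Real.norm_of_nonneg (Real.log_nonneg (by linarith)), Real.norm_of_nonneg (by positivity)] at ht
    rw [div_mul_eq_mul_div, div_le_iff₀ hε] at ht'
    have h0 : 0 ≤ Real.log (2 * t) := Real.log_nonneg (by linarith)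
    have h3 : (Real.log (2 * t)) ^ 2 ≤ (2 * t) ^ (2 / 5 : ℝ) := by
      calc (Real.log (2 * t)) ^ 2 ≤ ((2 * t) ^ (1 / 5 : ℝ)) ^ 2 := pow_le_pow_left₀ h0 ht 2
        _ = (2 * t) ^ (2 / 5 : ℝ) := by
          rw [← Real.rpow_natCast, ← Real.rpow_mul (by linarith)]
          norm_num
    have h4 : (2 * t) ^ (2 / 5 : ℝ) * (2 * t) ^ (7 / 5 : ℝ) = (2 * t) ^ (9 / 5 : ℝ) := by
      rw [← Real.rpow_add (by linarith)]
      norm_num
    have h5 : (2 * t) ^ (9 / 5 : ℝ) ≤ 4 * t ^ (9 / 5 : ℝ) := by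
      rw [Real.mul_rpow (by norm_num) (by linarith)]
      have h2 : (2 : ℝ) ^ (9 / 5 : ℝ) ≤ 2 ^ (2 : ℝ) := Real.rpow_le_rpow_of_exponent_le (by norm_num) (by norm_num)
      rw [Real.rpow_two] at h2
      have h3 : 0 ≤ t ^ (9 / 5 : ℝ) := by positivity
      nlinarith
    have h6 : 0 ≤ (2 * t) ^ (7 / 5 : ℝ) := by positivity
    calc 16 * (Real.log (2 * t)) ^ 2 * (2 * t) ^ (7 / 5 : ℝ) ≤ 16 * (2 * t) ^ (2 / 5 : ℝ) * (2 * t) ^ (7 / 5 : ℝ) := by gcongr
      _ = 16 * (2 * t) ^ (9 / 5 : ℝ) := by rw [mul_assoc, h4]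
      _ ≤ ε * t ^ 2 := by nlinarith
  have a3 : ∀ᶠ t : ℝ in atTop, Real.log (2 * t) ≤ t := by
    have h := (Real.isLittleO_log_id_atTop.def (c := 1 / 2) (by norm_num))
    have h2t : Tendsto (fun t : ℝ => 2 * t) atTop atTop := tendsto_id.const_mul_atTop (by norm_num)
    filter_upwards [h2t.eventually h, eventually_ge_atTop 1] with t ht ht1
    rw [Real.norm_of_nonneg (Real.log_nonneg (by linarith)), id, Real.norm_of_nonneg (by linarith)] at ht
    linarith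
  have a4 : ∀ᶠ x : ℕ in atTop, Real.log x ^ 8 ≤ (x : ℝ) ^ (1 / 16 : ℝ) := by
    have h := (isLittleO_log_rpow_rpow_atTop (8 : ℝ) (show (0 : ℝ) < 1 / 16 by norm_num)).def (c := 1) one_pos
    filter_upwards [tendsto_natCast_atTop_atTop.eventually h, eventually_ge_atTop 1] with x hx hx1
    have h1 : 0 ≤ Real.log (x : ℝ) := Real.log_natCast_nonneg x
    rw [one_mul, Real.norm_of_nonneg (by positivity), Real.norm_of_nonneg (by positivity)] at hx
    have e : Real.log (x : ℝ) ^ (8 : ℝ) = Real.log (x : ℝ) ^ 8 := by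
      rw [← Real.rpow_natCast]; norm_num
    rwa [e] at hx
  have a5 : ∀ᶠ x : ℕ in atTop, (16 : ℝ) ≤ (x : ℝ) ^ (1 / 16 : ℝ) :=
    ((tendsto_rpow_atTop (show (0 : ℝ) < 1 / 16 by norm_num)).comp tendsto_natCast_atTop_atTop).eventually_ge_atTop 16
  filter_upwards [hz2, ratio2, hlog.eventually a1, hlog.eventually a2, hlog.eventually a3, a4, a5, eventually_ge_atTop 2,
    hlog.eventually_ge_atTop (8 / ε)] with x h1 h2 h3 h4 h5 h6 h7 h8 h9
  obtain ⟨g1, g2⟩ := h2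
  obtain ⟨t, ht⟩ : ∃ t, t = Real.log (x : ℝ) := ⟨_, rfl⟩
  rw [← ht] at g1 g2 h3 h4 h5
  have hx1 : (1 : ℝ) < ((2 * x : ℕ) : ℝ) := by
    have : 1 < 2 * x := by omega
    exact_mod_cast this
  have hl0 : 0 < Real.log ((2 * x : ℕ) : ℝ) := Real.log_pos hx1
  have hzt : (z (2 * x) : ℝ) ≤ Real.log (2 * t) := h1.trans (Real.log_le_log hl0 g1)
  have ht0 : 0 < 2 * t := by linarith
  have hprim : (primorial (z (2 * x)) : ℝ) ≤ (2 * t) ^ (7 / 5 : ℝ) := by
    have h10 : (primorial (z (2 * x)) : ℝ) ≤ (4 : ℝ) ^ (z (2 * x)) := by exact_mod_cast primorial_le_four_pow (z (2 * x))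
    refine h10.trans ?_
    have h11 : Real.log 4 ≤ 7 / 5 := by
      have e : (4 : ℝ) = 2 ^ 2 := by norm_num
      rw [e, Real.log_pow]
      have := Real.log_two_lt_d9
      push_cast
      linarith
    rw [Real.rpow_def_of_pos ht0, ← Real.rpow_natCast, Real.rpow_def_of_pos (by norm_num)]
    apply Real.exp_le_exp.2
    have h12 : 0 ≤ (z (2 * x) : ℝ) := Nat.cast_nonneg _
    have h13 : 0 ≤ Real.log 4 := Real.log_nonneg (by norm_num)
    nlinarith
  have h9' : 8 ≤ ε * Real.log x := by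
    rw [div_le_iff₀ hε] at h9
    linarith
  refine ⟨by rw [← ht]; exact g2, h9', ?_, ?_, ?_, h6, h7⟩
  · rw [← ht]
    have : 0 ≤ (2 * t) ^ (7 / 5 : ℝ) := by positivity
    linarith
  · rw [← ht]
    exact hzt.trans h5
  · rw [← ht]
    refine le_trans ?_ h4
    have h14 : (z (2 * x) : ℝ) ^ 2 ≤ (Real.log (2 * t)) ^ 2 := pow_le_pow_left₀ (Nat.cast_nonneg _) hzt 2
    gcongr

end Pool.Agent.Run7.h414.PM
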