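import Pool.Agent.Run7.h414.PM.Bal

set_option autoImplicit false

/-! Patterns of residues modulo 4 of consecutive elements of a set: the balance of the two classes, part 2. -/

namespace Pool.Agent.Run7.h414.PM
open Finset Filter
open scoped Topology

lemma mono_sum (f : ℕ → ℕ) (hf : Monotone f) (c x : ℕ) : ∑ m ∈ range x, ((f (m + c) : ℝ) - f m) ≤ c * f (x + c) := by
  induction c with
  | zero => simp
  | succ c ih =>
    have h1 : ∑ m ∈ range x, ((f (m + (c + 1)) : ℝ) - f m) =
        ∑ m ∈ range x, ((f (m + 1 + c) : ℝ) - f (m + c)) + ∑ m ∈ range x, ((f (m + c) : ℝ) - f m) := by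
      rw [← sum_add_distrib]
      refine sum_congr rfl fun m _ => ?_
      rw [show m + (c + 1) = m + 1 + c by ring]
      ring
    have h2 := sum_range_sub (fun m => (f (m + c) : ℝ)) x
    have h3 : (f (x + c) : ℝ) ≤ f (x + (c + 1)) := by exact_mod_cast hf (by omega)
    have h4 : (0 : ℝ) ≤ f (0 + c) := Nat.cast_nonneg _
    have h5 : (c : ℝ) * f (x + c) ≤ c * f (x + (c + 1)) := mul_le_mul_of_nonneg_left h3 (Nat.cast_nonneg c)
    rw [h1]
    push_cast
    linarith

/-- the sign of the class modulo 4 of `m + 5` -/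
noncomputable def chi (m : ℕ) : ℝ := if (m + 5) % 4 = 1 then 1 else if (m + 5) % 4 = 3 then -1 else 0

lemma chi_abs (m : ℕ) : |chi m| ≤ 1 := by
  unfold chi
  split_ifs <;> simp

lemma chi_shift (m L : ℕ) (hL : L % 4 = 2) : chi (m + L) = - chi m := by
  unfold chi
  have h : (m + L + 5) % 4 = (m + 5 + 2) % 4 := by omega
  rw [h]
  have h0 : (m + 5) % 4 = 0 ∨ (m + 5) % 4 = 1 ∨ (m + 5) % 4 = 2 ∨ (m + 5) % 4 = 3 := by omega
  rcases h0 with h0 | h0 | h0 | h0
  · have h1 : (m + 5 + 2) % 4 = 2 := by omega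
    rw [h0, h1]; norm_num
  · have h1 : (m + 5 + 2) % 4 = 3 := by omega
    rw [h0, h1]; norm_num
  · have h1 : (m + 5 + 2) % 4 = 0 := by omega
    rw [h0, h1]; norm_num
  · have h1 : (m + 5 + 2) % 4 = 1 := by omega
    rw [h0, h1]; norm_num

/-- the sum against the sign and the shift by `L` -/
lemma shift_sum (g : ℕ → ℝ) (hg : ∀ m, |g m| ≤ 1) (L x : ℕ) (hL : L % 4 = 2) :
    2 * |∑ m ∈ range x, chi m * g m| ≤ ∑ m ∈ range x, |g m - g (m + L)| + 2 * L := by
  obtain ⟨S, hS⟩ : ∃ S, S = ∑ m ∈ range x, chi m * g m := ⟨_, rfl⟩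
  have hb : ∀ m, |chi m * g m| ≤ 1 := fun m => by
    rw [abs_mul]
    exact mul_le_one₀ (chi_abs m) (abs_nonneg _) (hg m)
  have h1 : ∑ m ∈ range x, chi m * g (m + L) = - ∑ m ∈ range x, chi (m + L) * g (m + L) := by
    rw [← sum_neg_distrib]
    refine sum_congr rfl fun m _ => ?_
    rw [chi_shift m L hL]
    ring
  have h2 : ∑ m ∈ range L, chi m * g m + ∑ m ∈ range x, chi (m + L) * g (m + L) =
      ∑ m ∈ range x, chi m * g m + ∑ m ∈ range L, chi (x + m) * g (x + m) := by
    rw [← sum_range_add, add_comm x L, sum_range_add]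
    congr 1
    refine sum_congr rfl fun m _ => ?_
    rw [add_comm L m]
  have h3 : |∑ m ∈ range L, chi m * g m| ≤ L := by
    refine (abs_sum_le_sum_abs _ _).trans ((sum_le_sum fun m _ => hb m).trans ?_)
    simp
  have h4 : |∑ m ∈ range L, chi (x + m) * g (x + m)| ≤ L := by
    refine (abs_sum_le_sum_abs _ _).trans ((sum_le_sum fun m _ => hb (x + m)).trans ?_)
    simp
  have h5 : |∑ m ∈ range x, chi m * (g m - g (m + L))| ≤ ∑ m ∈ range x, |g m - g (m + L)| := by
    refine (abs_sum_le_sum_abs _ _).trans (sum_le_sum fun m _ => ?_)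
    rw [abs_mul]
    exact mul_le_of_le_one_left (abs_nonneg _) (chi_abs m)
  have h6 : ∑ m ∈ range x, chi m * (g m - g (m + L)) = S - ∑ m ∈ range x, chi m * g (m + L) := by
    rw [hS, ← sum_sub_distrib]
    refine sum_congr rfl fun m _ => ?_
    ring
  rw [← hS] at h2 ⊢
  rw [h6, h1] at h5
  rw [abs_le] at h3 h4 h5
  have : |S| = S ∨ |S| = -S := abs_choice S
  rcases this with h7 | h7 <;> rw [h7] <;> linarith [h3.1, h3.2, h4.1, h4.2, h5.1, h5.2]

lemma rough_shift (z : ℕ → ℕ) (n L B : ℕ) (hL : L = primorial B) (hz : z (n + L) = z n) (hB : z n ≤ B) :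
    Rough z (n + L) ↔ Rough z n := by
  unfold Rough
  rw [hz]
  refine forall_congr' fun q => forall_congr' fun hq => forall_congr' fun hqz => not_congr ?_
  have hd : q ∣ L := by
    rw [hL]
    exact hq.dvd_primorial_iff.2 (hqz.trans hB)
  exact (Nat.dvd_add_left hd)

/-- the density changes slowly -/
lemma rho_shift (z : ℕ → ℕ) (n L B : ℕ) (hL : L = primorial B) (hz : z (n + L) = z n) (hB : z n ≤ B) (δ : ℝ) (hδ0 : 0 ≤ δ)
    (hδ1 : δ ≤ 1) (hn : 0 < Real.log n) (hlog : (1 - δ) * Real.log ((n + L : ℕ) : ℝ) ≤ Real.log n) :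
    rho1 z (n + L) ≤ rho1 z n ∧ (1 - δ) * rho1 z n ≤ rho1 z (n + L) := by
  classical
  unfold rho1
  rw [if_congr (rough_shift z n L B hL hz hB) rfl rfl, hz]
  have hW : 0 < W (z n) := lt_of_lt_of_le one_pos (W_ge _)
  have hn0 : 0 < n := by
    rcases Nat.eq_zero_or_pos n with h | h
    · rw [h] at hn; simp at hn
    · exact h
  have hmono : Real.log n ≤ Real.log ((n + L : ℕ) : ℝ) := by
    apply Real.log_le_log (by exact_mod_cast hn0)
    push_cast
    linarith [Nat.cast_nonneg (α := ℝ) L]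
  split_ifs
  · constructor
    · exact min_le_min_left _ (div_le_div_of_nonneg_left hW.le hn hmono)
    · rw [mul_min_of_nonneg _ _ (by linarith), mul_one]
      apply le_min
      · exact (min_le_left _ _).trans (by linarith)
      · refine (min_le_right _ _).trans ?_
        rw [mul_div_assoc', div_le_div_iff₀ hn (lt_of_lt_of_le hn hmono)]
        nlinarith
  · simp

end Pool.Agent.Run7.h414.PM
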