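import Pool.Agent.Run7.h414.PM.Bal2

set_option autoImplicit false

/-! Patterns of residues modulo 4 of consecutive elements of a set: the balance of the two classes, part 3. -/

namespace Pool.Agent.Run7.h414.PM
open Finset Filter
open scoped Topology

lemma prim_mod (B : ℕ) (hB : 2 ≤ B) : primorial B % 4 = 2 := by
  have h2 : 2 ∣ primorial B := Nat.prime_two.dvd_primorial_iff.2 hB
  have h4 : ¬ 4 ∣ primorial B := by
    intro h
    have hsq : Squarefree (primorial B) := by
      unfold primorial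
      apply Finset.squarefree_prod_of_pairwise_isCoprime
      · intro p hp q hq hpq
        have hp' := (mem_filter.1 hp).2
        have hq' := (mem_filter.1 hq).2
        exact Nat.coprime_iff_isRelPrime.1 ((Nat.coprime_primes hp' hq').2 hpq)
      · intro p hp
        exact (mem_filter.1 hp).2.prime.squarefree
    have h5 := hsq 2 (by simpa using h)
    exact absurd (Nat.isUnit_iff.1 h5) (by norm_num)
  omega

/-- the elementary consequences of the sizes -/
lemma size_facts (z : ℕ → ℕ) (ε : ℝ) (x : ℕ) (hs : Sizes z ε x) : 16 ≤ (x : ℝ) ∧ (primorial (z (2 * x)) : ℝ) + 7 ≤ x ∧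
    (primorial (z (2 * x)) : ℝ) + 7 ≤ √(x : ℝ) ∧ 1 / ε ≤ (x : ℝ) ^ (1 / 16 : ℝ) ∧
    8 * Real.log x ^ 4 ≤ (x : ℝ) ^ (1 / 8 : ℝ) ∧ Real.log x ≤ (x : ℝ) ^ (1 / 16 : ℝ) := by
  obtain ⟨t, ht⟩ : ∃ t, t = Real.log (x : ℝ) := ⟨_, rfl⟩
  obtain ⟨w, hw⟩ : ∃ w, w = (x : ℝ) ^ (1 / 16 : ℝ) := ⟨_, rfl⟩
  have h1 := hs.logx
  have h2 := hs.epsx
  have h3 := hs.L1
  have h6 := hs.big
  have h7 := hs.big2
  rw [← ht] at h1 h2 h3 h6
  rw [← hw] at h6 h7
  have hx0 : (0 : ℝ) ≤ x := Nat.cast_nonneg x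
  have e8 : (x : ℝ) ^ (1 / 8 : ℝ) = w ^ 2 := by
    rw [hw, ← Real.rpow_natCast, ← Real.rpow_mul hx0]; norm_num
  have e2 : √(x : ℝ) = w ^ 8 := by
    rw [hw, Real.sqrt_eq_rpow, ← Real.rpow_natCast, ← Real.rpow_mul hx0]; norm_num
  have e1 : (x : ℝ) = w ^ 16 := by
    rw [hw, ← Real.rpow_natCast, ← Real.rpow_mul hx0]; norm_num
  have hw1 : (1 : ℝ) ≤ w := by linarith
  have ht1 : (1 : ℝ) ≤ t := by linarith
  have ht8 : t ≤ t ^ 8 := le_self_pow₀ ht1 (by norm_num)
  have ht28 : t ^ 2 ≤ t ^ 8 := pow_le_pow_right₀ ht1 (by norm_num)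
  have ht48 : t ^ 4 ≤ t ^ 8 := pow_le_pow_right₀ ht1 (by norm_num)
  have hwa : w ^ 2 ≤ w ^ 8 := pow_le_pow_right₀ hw1 (by norm_num)
  have hwb : w ^ 8 ≤ w ^ 16 := pow_le_pow_right₀ hw1 (by norm_num)
  have hww : 16 * w ≤ w ^ 2 := by nlinarith
  have hL : (primorial (z (2 * x)) : ℝ) + 7 ≤ w ^ 2 := by linarith
  have hε : 0 < ε := by
    by_contra hcon
    push Not at hcon
    nlinarith
  refine ⟨by rw [e1]; nlinarith, by rw [e1]; linarith, by rw [e2]; linarith, ?_, ?_, ?_⟩
  · rw [← hw, div_le_iff₀ hε]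
    have h10 : t ≤ w := ht8.trans h6
    nlinarith
  · rw [e8, ← ht]
    linarith
  · rw [← hw, ← ht]
    linarith

/-- lower bound for the sum of the weights -/
lemma HH_low (z : ℕ → ℕ) (hmono : Monotone z) (h3 : ∀ n, 3 ≤ z n) (ε : ℝ) (x : ℕ) (hs : Sizes z ε x) :
    (x : ℝ) ^ (7 / 8 : ℝ) ≤ HH z x := by
  classical
  obtain ⟨hx16, hLx, hLs, -, h8, -⟩ := size_facts z ε x hs
  obtain ⟨L, hL⟩ : ∃ L, L = primorial (z (2 * x)) := ⟨_, rfl⟩
  rw [← hL] at hLx hLs
  have hL1 := hs.L1
  rw [← hL] at hL1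
  have hlogx := hs.logx
  have hx : 0 < x := by
    have : (0 : ℝ) < x := by linarith
    exact_mod_cast this
  have hLx' : L + 7 ≤ x := by exact_mod_cast hLx
  have hL6 : 6 ≤ L := by
    have h2 : 2 ∣ L := by rw [hL]; exact Nat.prime_two.dvd_primorial_iff.2 (by have := h3 (2 * x); omega)
    have h3' : 3 ∣ L := by rw [hL]; exact Nat.prime_three.dvd_primorial_iff.2 (h3 (2 * x))
    have h6 : 6 ∣ L := Nat.Coprime.mul_dvd_of_dvd_of_dvd (by norm_num) h2 h3'
    exact Nat.le_of_dvd (by rw [hL]; exact primorial_pos _) h6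
  -- the good numbers
  have hgood : ∀ i < x / L, 1 / (4 * Real.log x ^ 2) ≤ hh z (L * (i + 1) - 6) := by
    intro i hi
    have h1 : L * (i + 1) ≤ x := by
      have := Nat.mul_div_le x L
      have h2 : L * (i + 1) ≤ L * (x / L) := Nat.mul_le_mul_left L hi
      omega
    have h2 : L ≤ L * (i + 1) := Nat.le_mul_of_pos_right L (Nat.succ_pos i)
    have hrough : ∀ n, n ≤ 2 * x → (n + 1 = L * (i + 1) ∨ n = L * (i + 1) + 1) → Rough z n := by
      intro n hn hnL q hq hqz hqn
      have hqL : q ∣ L := by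
        rw [hL]
        exact hq.dvd_primorial_iff.2 (hqz.trans (hmono hn))
      have hqL' : q ∣ L * (i + 1) := Dvd.dvd.mul_right hqL _
      rcases hnL with h | h
      · rw [← h] at hqL'
        exact hq.one_lt.ne' (Nat.dvd_one.1 ((Nat.dvd_add_right hqn).1 hqL'))
      · rw [h] at hqn
        exact hq.one_lt.ne' (Nat.dvd_one.1 ((Nat.dvd_add_right hqL').1 hqn))
    have hval : ∀ n, 2 ≤ n → n ≤ 2 * x → Rough z n → 1 / (2 * Real.log x) ≤ rho1 z n := by
      intro n hn2 hn hr
      unfold rho1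
      rw [if_pos hr]
      have hn1 : (1 : ℝ) < n := by exact_mod_cast (by omega : 1 < n)
      have hlogn : 0 < Real.log n := Real.log_pos hn1
      have hlogn2 : Real.log n ≤ 2 * Real.log x := by
        have h4 : (n : ℝ) ≤ (x : ℝ) * x := by
          have : n ≤ x * x := by nlinarith
          exact_mod_cast this
        have h5 := Real.log_le_log (by linarith) h4
        rw [Real.log_mul (by positivity) (by positivity)] at h5
        linarith
      apply le_min
      · rw [div_le_one (by linarith)]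
        linarith
      · exact div_le_div₀ (le_trans zero_le_one (W_ge _)) (W_ge _) hlogn hlogn2
    unfold hh
    have e5 : L * (i + 1) - 6 + 5 + 1 = L * (i + 1) := by omega
    have e7 : L * (i + 1) - 6 + 7 = L * (i + 1) + 1 := by omega
    have g1 := hval (L * (i + 1) - 6 + 5) (by omega) (by omega) (hrough _ (by omega) (Or.inl e5))
    have g2 := hval (L * (i + 1) - 6 + 7) (by omega) (by omega) (hrough _ (by omega) (Or.inr e7))
    have g3 : (0 : ℝ) < 1 / (2 * Real.log x) := by positivity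
    calc 1 / (4 * Real.log x ^ 2) = 1 / (2 * Real.log x) * (1 / (2 * Real.log x)) := by
          field_simp
          norm_num
      _ ≤ _ := mul_le_mul g1 g2 g3.le (g3.le.trans g1)
  have hinj : Set.InjOn (fun i => L * (i + 1) - 6) (range (x / L) : Finset ℕ) := by
    intro i _ j _ hij
    simp only at hij
    have h2 : L ≤ L * (i + 1) := Nat.le_mul_of_pos_right L (Nat.succ_pos i)
    have h2' : L ≤ L * (j + 1) := Nat.le_mul_of_pos_right L (Nat.succ_pos j)
    have h4 : L * (i + 1) = L * (j + 1) := by omega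
    have := Nat.eq_of_mul_eq_mul_left (by omega : 0 < L) h4
    omega
  have hsum : ((x / L : ℕ) : ℝ) * (1 / (4 * Real.log x ^ 2)) ≤ HH z x := by
    calc ((x / L : ℕ) : ℝ) * (1 / (4 * Real.log x ^ 2)) = ∑ i ∈ range (x / L), (1 / (4 * Real.log x ^ 2)) := by simp
      _ ≤ ∑ i ∈ range (x / L), hh z (L * (i + 1) - 6) := sum_le_sum fun i hi => hgood i (mem_range.1 hi)
      _ = ∑ m ∈ (range (x / L)).image (fun i => L * (i + 1) - 6), hh z m := by rw [sum_image hinj]
      _ ≤ HH z x := by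
        unfold HH
        apply sum_le_sum_of_subset_of_nonneg
        · intro m hm
          obtain ⟨i, hi, rfl⟩ := mem_image.1 hm
          have hi' := mem_range.1 hi
          have h1 : L * (i + 1) ≤ x := by
            have := Nat.mul_div_le x L
            have h2 : L * (i + 1) ≤ L * (x / L) := Nat.mul_le_mul_left L hi'
            omega
          have h2 : L ≤ L * (i + 1) := Nat.le_mul_of_pos_right L (Nat.succ_pos i)
          rw [mem_range]
          omega
        · intro m _ _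
          exact (hh_bounds z m).1
  refine le_trans ?_ hsum
  have hL0 : (0 : ℝ) < L := by exact_mod_cast (by omega : 0 < L)
  have h10 : (x : ℝ) / L - 1 ≤ ((x / L : ℕ) : ℝ) := by
    have h11 : (x : ℝ) / L < (x / L : ℕ) + 1 := by
      rw [div_lt_iff₀ hL0]
      have := Nat.lt_mul_div_succ x (by omega : 0 < L)
      have h12 : (x : ℝ) < ((L * (x / L + 1) : ℕ) : ℝ) := by exact_mod_cast this
      push_cast at h12
      linarith
    linarith
  have h12 : (x : ℝ) / L / 2 ≤ (x : ℝ) / L - 1 := by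
    have h13 : 2 ≤ (x : ℝ) / L := by
      rw [le_div_iff₀ hL0]
      have h14 : (L : ℝ) * L ≤ x := by
        have h15 : (L : ℝ) ≤ √(x : ℝ) := by linarith
        calc (L : ℝ) * L ≤ √(x : ℝ) * √(x : ℝ) := mul_le_mul h15 h15 hL0.le (Real.sqrt_nonneg _)
          _ = x := Real.mul_self_sqrt (by linarith)
      have h6 : (6 : ℝ) ≤ L := by exact_mod_cast hL6
      nlinarith
    linarith
  have hlog0 : 0 < Real.log (x : ℝ) := by linarith
  have h20 : (x : ℝ) / (8 * Real.log x ^ 4) ≤ ((x / L : ℕ) : ℝ) * (1 / (4 * Real.log x ^ 2)) := by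
    calc (x : ℝ) / (8 * Real.log x ^ 4) = (x : ℝ) / Real.log x ^ 2 / 2 * (1 / (4 * Real.log x ^ 2)) := by
          field_simp
          norm_num
      _ ≤ (x : ℝ) / L / 2 * (1 / (4 * Real.log x ^ 2)) := by gcongr
      _ ≤ _ := mul_le_mul_of_nonneg_right (h12.trans h10) (by positivity)
  refine le_trans ?_ h20
  rw [le_div_iff₀ (by positivity)]
  have hx0 : (0 : ℝ) < x := by linarith
  calc (x : ℝ) ^ (7 / 8 : ℝ) * (8 * Real.log x ^ 4) ≤ (x : ℝ) ^ (7 / 8 : ℝ) * (x : ℝ) ^ (1 / 8 : ℝ) :=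
        mul_le_mul_of_nonneg_left h8 (by positivity)
    _ = x := by
      rw [← Real.rpow_add hx0]
      norm_num

end Pool.Agent.Run7.h414.PM
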