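import Pool.Agent.Run7.h414.PM.Bal3

set_option autoImplicit false

/-! Patterns of residues modulo 4 of consecutive elements of a set: the balance of the two classes, part 4. -/

namespace Pool.Agent.Run7.h414.PM
open Finset Filter
open scoped Topology

open Classical in
/-- the number of the elements of `T` below `x` -/
noncomputable def cT (T : Set ℕ) (x : ℕ) : ℕ := ((range x).filter (fun n => n ∈ T)).card

open Classical in
lemma cT_add (T : Set ℕ) (x y c : ℕ) (h : x ≤ y + c) : (cT T x : ℝ) ≤ cT T y + c := by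
  unfold cT
  have h1 : (range x).filter (fun n => n ∈ T) ⊆ (range y).filter (fun n => n ∈ T) ∪ Ico y (y + c) := by
    intro n hn
    rw [mem_filter, mem_range] at hn
    rw [mem_union, mem_filter, mem_range, mem_Ico]
    by_cases h2 : n < y
    · exact Or.inl ⟨h2, hn.2⟩
    · right; omega
  have h2 := (card_le_card h1).trans (card_union_le _ _)
  rw [Nat.card_Ico] at h2
  have h3 : ((range x).filter (fun n => n ∈ T)).card ≤ ((range y).filter (fun n => n ∈ T)).card + c := by omega
  exact_mod_cast h3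

/-- the weight changes slowly -/
lemma hh_shift (z : ℕ → ℕ) (hmono : Monotone z) (ε : ℝ) (hε1 : ε ≤ 1) (x : ℕ) (hs : Sizes z ε x) (m : ℕ) (hm : √(x : ℝ) ≤ m)
    (hmx : m < x) (hz : z (m + 5) = z (m + primorial (z (2 * x)) + 7)) :
    |hh z m - hh z (m + primorial (z (2 * x)))| ≤ ε / 2 * hh z m := by
  obtain ⟨hx16, hLx, hLs, -, -, -⟩ := size_facts z ε x hs
  obtain ⟨L, hL⟩ : ∃ L, L = primorial (z (2 * x)) := ⟨_, rfl⟩
  rw [← hL] at hLx hLs hz ⊢
  have hepsx := hs.epsx
  have hlogx := hs.logx
  have hε : 0 < ε := by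
    by_contra hcon
    push Not at hcon
    nlinarith
  have key : ∀ n, m + 5 ≤ n → n ≤ m + 7 → rho1 z (n + L) ≤ rho1 z n ∧ (1 - ε / 4) * rho1 z n ≤ rho1 z (n + L) := by
    intro n h1 h2
    have hLx' : L + 7 ≤ x := by exact_mod_cast hLx
    have hz1 : z (n + L) = z n := by
      have g1 : z (m + 5) ≤ z n := hmono h1
      have g2 : z n ≤ z (n + L) := hmono (by omega)
      have g3 : z (n + L) ≤ z (m + L + 7) := hmono (by omega)
      omega
    have hzB : z n ≤ z (2 * x) := hmono (by omega)
    have hnr : √(x : ℝ) ≤ n := by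
      have : (m : ℝ) ≤ n := by exact_mod_cast (by omega : m ≤ n)
      linarith
    have hs0 : 0 < √(x : ℝ) := Real.sqrt_pos.2 (by linarith)
    have hn0 : (0 : ℝ) < n := by linarith
    have hlogn : Real.log x / 2 ≤ Real.log n := by
      have := Real.log_le_log hs0 hnr
      rwa [Real.log_sqrt (by linarith)] at this
    have hlogL : Real.log ((n + L : ℕ) : ℝ) ≤ Real.log n + 1 := by
      push_cast
      have h5 : (n : ℝ) + L ≤ 2 * n := by linarith
      have h6 := Real.log_le_log (by positivity) h5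
      rw [Real.log_mul (by norm_num) (by positivity)] at h6
      have := Real.log_two_lt_d9
      linarith
    have hlogm : Real.log n ≤ Real.log ((n + L : ℕ) : ℝ) := by
      apply Real.log_le_log hn0
      push_cast
      linarith [Nat.cast_nonneg (α := ℝ) L]
    refine rho_shift z n L (z (2 * x)) hL hz1 hzB (ε / 4) (by linarith) (by linarith) (by linarith) ?_
    nlinarith
  obtain ⟨a1, a2⟩ := key (m + 5) le_rfl (by omega)
  obtain ⟨b1, b2⟩ := key (m + 7) (by omega) le_rfl
  have c0 := (rho1_bounds z (m + 5)).1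
  have c1 := (rho1_bounds z (m + 7)).1
  have d0 := (rho1_bounds z (m + 5 + L)).1
  have d1 := (rho1_bounds z (m + 7 + L)).1
  unfold hh
  rw [show m + L + 5 = m + 5 + L by ring, show m + L + 7 = m + 7 + L by ring]
  have up : rho1 z (m + 5 + L) * rho1 z (m + 7 + L) ≤ rho1 z (m + 5) * rho1 z (m + 7) := mul_le_mul a1 b1 d1 c0
  have lo : ((1 - ε / 4) * rho1 z (m + 5)) * ((1 - ε / 4) * rho1 z (m + 7)) ≤ rho1 z (m + 5 + L) * rho1 z (m + 7 + L) :=
    mul_le_mul a2 b2 (mul_nonneg (by linarith) c1) d0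
  have h0 : 0 ≤ rho1 z (m + 5) * rho1 z (m + 7) := mul_nonneg c0 c1
  rw [abs_le]
  constructor
  · nlinarith
  · nlinarith [mul_nonneg (sq_nonneg (ε / 4)) h0]

/-- the weights are small -/
lemma hh_small (z : ℕ → ℕ) (hmono : Monotone z) (h3 : ∀ n, 3 ≤ z n) (ε : ℝ) (x : ℕ) (hs : Sizes z ε x) (m : ℕ) (hm : √(x : ℝ) ≤ m)
    (hmx : m < x) : hh z m * primorial (z (2 * x)) ≤ ε / 4 := by
  classical
  obtain ⟨hx16, hLx, hLs, -, -, -⟩ := size_facts z ε x hs
  have hlogx := hs.logx
  have hx7 : 7 ≤ x := by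
    have h : (7 : ℝ) ≤ x := by linarith
    exact_mod_cast h
  have key : ∀ n, m + 5 ≤ n → n ≤ m + 7 → rho1 z n ≤ 2 * z (2 * x) / Real.log x := by
    intro n h1 h2
    have hzB : z n ≤ z (2 * x) := hmono (by omega)
    have hnr : √(x : ℝ) ≤ n := by
      have : (m : ℝ) ≤ n := by exact_mod_cast (by omega : m ≤ n)
      linarith
    have hs0 : 0 < √(x : ℝ) := Real.sqrt_pos.2 (by linarith)
    have hlogn : Real.log x / 2 ≤ Real.log n := by
      have := Real.log_le_log hs0 hnr
      rwa [Real.log_sqrt (by linarith)] at this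
    have hz1 : 1 ≤ z n := by have := h3 n; omega
    have hWz : W (z n) ≤ z (2 * x) := (W_le (z n) hz1).trans (by exact_mod_cast hzB)
    unfold rho1
    split_ifs
    · refine (min_le_right _ _).trans ?_
      rw [div_le_div_iff₀ (by linarith) (by linarith)]
      have h5 : (0 : ℝ) ≤ z (2 * x) := Nat.cast_nonneg _
      have h6 : 0 ≤ W (z n) := zero_le_one.trans (W_ge _)
      calc W (z n) * Real.log x ≤ z (2 * x) * Real.log x := mul_le_mul_of_nonneg_right hWz (by linarith)
        _ ≤ z (2 * x) * (2 * Real.log n) := mul_le_mul_of_nonneg_left (by linarith) h5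
        _ = _ := by ring
    · positivity
  have g1 := key (m + 5) le_rfl (by omega)
  have g2 := key (m + 7) (by omega) le_rfl
  have h5 : (0 : ℝ) ≤ z (2 * x) := Nat.cast_nonneg _
  have hlog0 : 0 < Real.log (x : ℝ) := by linarith
  have h6 : hh z m ≤ (2 * z (2 * x) / Real.log x) * (2 * z (2 * x) / Real.log x) :=
    mul_le_mul g1 g2 (rho1_bounds z _).1 (by positivity)
  have h7 := hs.eta
  have hL0 : (0 : ℝ) ≤ primorial (z (2 * x)) := Nat.cast_nonneg _
  refine (mul_le_mul_of_nonneg_right h6 hL0).trans ?_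
  have e : (2 * (z (2 * x) : ℝ) / Real.log x) * (2 * z (2 * x) / Real.log x) * primorial (z (2 * x)) =
      (16 * (z (2 * x) : ℝ) ^ 2 * primorial (z (2 * x))) / Real.log x ^ 2 / 4 := by
    field_simp
    ring
  rw [e]
  have : (16 * (z (2 * x) : ℝ) ^ 2 * primorial (z (2 * x))) / Real.log x ^ 2 ≤ ε := by
    rw [div_le_iff₀ (by positivity)]
    exact h7
  linarith

open Classical in
/-- **balance**: the two classes modulo 4 have nearly the same weight after every pattern -/
theorem balance (z : ℕ → ℕ) (hmono : Monotone z) (h3 : ∀ n, 3 ≤ z n) (ε : ℝ) (hε1 : ε ≤ 1) (x : ℕ) (hs : Sizes z ε x)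
    (T : Set ℕ) (β : List ℕ) :
    |∑ m ∈ range x, chi m * (if St T m β then hh z m else 0)| ≤ 4 * ε * HH z x + ε * cT T (x + 5) := by
  obtain ⟨hx16, hLx, hLs, h1ε, h8, hlog16⟩ := size_facts z ε x hs
  have hepsx := hs.epsx
  have hlogx := hs.logx
  have hε : 0 < ε := by
    by_contra hcon
    push Not at hcon
    nlinarith
  have hlow := HH_low z hmono h3 ε x hs
  obtain ⟨g, hg⟩ : ∃ g : ℕ → ℝ, g = fun m => if St T m β then hh z m else 0 := ⟨_, rfl⟩
  have hgb : ∀ m, 0 ≤ g m ∧ g m ≤ hh z m := by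
    intro m
    rw [hg]
    simp only
    split_ifs
    · exact ⟨(hh_bounds z m).1, le_rfl⟩
    · exact ⟨le_rfl, (hh_bounds z m).1⟩
  have hg1 : ∀ m, |g m| ≤ 1 := fun m => by
    rw [abs_of_nonneg (hgb m).1]
    exact (hgb m).2.trans (hh_bounds z m).2
  obtain ⟨L, hL⟩ : ∃ L, L = primorial (z (2 * x)) := ⟨_, rfl⟩
  have hL4 : L % 4 = 2 := by rw [hL]; exact prim_mod _ (by have := h3 (2 * x); omega)
  have hsh := shift_sum g hg1 L x hL4
  have hsum : ∑ m ∈ range x, chi m * (if St T m β then hh z m else 0) = ∑ m ∈ range x, chi m * g m := by rw [hg]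
  rw [hsum]
  -- termwise bound
  have hL0 : (0 : ℝ) ≤ L := Nat.cast_nonneg _
  have hLx' : L + 7 ≤ x := by rw [hL]; exact_mod_cast hLx
  have hterm : ∀ m ∈ range x, |g m - g (m + L)| ≤ (if (m : ℝ) < √(x : ℝ) then (1 : ℝ) else 0) +
      ((z (m + 5 + (L + 2)) : ℝ) - z (m + 5)) + ε / 2 * hh z m +
      (if (m : ℝ) < √(x : ℝ) then (0 : ℝ) else ∑ j ∈ range L, if m + j ∈ T then hh z m else 0) := by
    intro m hm
    have hmx := mem_range.1 hm
    have hzz : (z (m + 5) : ℝ) ≤ z (m + 5 + (L + 2)) := by exact_mod_cast hmono (by omega)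
    have hh0 := (hh_bounds z m).1
    have hdiff1 : |g m - g (m + L)| ≤ 1 := by
      have a1 := hgb m
      have a2 := hgb (m + L)
      have a3 := (hh_bounds z m).2
      have a4 := (hh_bounds z (m + L)).2
      rw [abs_le]
      constructor <;> linarith
    by_cases hms : (m : ℝ) < √(x : ℝ)
    · rw [if_pos hms, if_pos hms]
      have : 0 ≤ ε / 2 * hh z m := by positivity
      linarith
    · rw [if_neg hms, if_neg hms]
      push Not at hms
      have hT0 : (0 : ℝ) ≤ ∑ j ∈ range L, if m + j ∈ T then hh z m else 0 :=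
        sum_nonneg fun j _ => by split_ifs; exacts [hh0, le_rfl]
      by_cases hz : z (m + 5) = z (m + L + 7)
      · have h10 := hh_shift z hmono ε hε1 x hs m hms hmx (by rw [← hL]; exact hz)
        rw [← hL] at h10
        by_cases hT : ∀ j < L, m + j ∉ T
        · have h11 : St T (m + L) β ↔ St T m β := St_eq β L hT
          have h12 : |g m - g (m + L)| ≤ |hh z m - hh z (m + L)| := by
            rw [hg]
            simp only
            rw [if_congr h11 rfl rfl]
            split_ifs
            · exact le_rfl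
            · simp
          linarith
        · push Not at hT
          obtain ⟨j, hj, hjT⟩ := hT
          have h13 : hh z m ≤ ∑ j ∈ range L, if m + j ∈ T then hh z m else 0 := by
            have := single_le_sum (f := fun j => if m + j ∈ T then hh z m else 0)
              (fun i _ => by split_ifs; exacts [hh0, le_rfl]) (mem_range.2 hj)
            simp only [if_pos hjT] at this
            exact this
          have h14 : |g m - g (m + L)| ≤ hh z m + |hh z m - hh z (m + L)| := by
            have a1 := hgb m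
            have a2 := hgb (m + L)
            rw [abs_le] at h10 ⊢
            have a3 := neg_abs_le (hh z m - hh z (m + L))
            have a4 := le_abs_self (hh z m - hh z (m + L))
            constructor <;> linarith
          linarith
      · have h15 : z (m + 5) < z (m + L + 7) := lt_of_le_of_ne (hmono (by omega)) hz
        have h16 : (z (m + 5) : ℝ) + 1 ≤ z (m + 5 + (L + 2)) := by
          rw [show m + 5 + (L + 2) = m + L + 7 by ring]
          exact_mod_cast h15
        have : 0 ≤ ε / 2 * hh z m := by positivity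
        linarith
  have htot := sum_le_sum hterm
  rw [sum_add_distrib, sum_add_distrib, sum_add_distrib] at htot
  -- the four sums
  have s1 : ∑ m ∈ range x, (if (m : ℝ) < √(x : ℝ) then (1 : ℝ) else 0) ≤ √(x : ℝ) + 1 := by
    rw [sum_ite, sum_const_zero, add_zero, sum_const, nsmul_eq_mul, mul_one]
    have h20 : (range x).filter (fun m : ℕ => (m : ℝ) < √(x : ℝ)) ⊆ range ⌈√(x : ℝ)⌉₊ := by
      intro m hm
      rw [mem_range]
      have := (mem_filter.1 hm).2
      exact Nat.lt_ceil.2 this
    have h21 := card_le_card h20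
    rw [card_range] at h21
    have h22 := (Nat.ceil_lt_add_one (Real.sqrt_nonneg (x : ℝ))).le
    have h23 : ((((range x).filter (fun m : ℕ => (m : ℝ) < √(x : ℝ))).card : ℕ) : ℝ) ≤ (⌈√(x : ℝ)⌉₊ : ℝ) := by exact_mod_cast h21
    linarith
  have s2 : ∑ m ∈ range x, ((z (m + 5 + (L + 2)) : ℝ) - z (m + 5)) ≤ (L + 2) * z (2 * x) := by
    have h24 := mono_sum (fun m => z (m + 5)) (fun a b hab => hmono (by omega)) (L + 2) x
    have h25 : ∑ m ∈ range x, ((z (m + 5 + (L + 2)) : ℝ) - z (m + 5)) = ∑ m ∈ range x, ((z (m + (L + 2) + 5) : ℝ) - z (m + 5)) := by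
      refine sum_congr rfl fun m _ => ?_
      rw [show m + (L + 2) + 5 = m + 5 + (L + 2) by ring]
    rw [h25]
    refine h24.trans ?_
    push_cast
    apply mul_le_mul_of_nonneg_left _ (by positivity)
    exact_mod_cast hmono (show x + (L + 2) + 5 ≤ 2 * x by omega)
  have s3 : ∑ m ∈ range x, ε / 2 * hh z m = ε / 2 * HH z x := by rw [HH, mul_sum]
  have s4 : ∑ m ∈ range x, (if (m : ℝ) < √(x : ℝ) then (0 : ℝ) else ∑ j ∈ range L, if m + j ∈ T then hh z m else 0) ≤
      ε / 4 * (cT T (x + 5) + L) := by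
    rcases Nat.eq_zero_or_pos L with hL00 | hLpos
    · exfalso
      rw [hL00] at hL4
      norm_num at hL4
    have hLr : (0 : ℝ) < L := by exact_mod_cast hLpos
    calc ∑ m ∈ range x, (if (m : ℝ) < √(x : ℝ) then (0 : ℝ) else ∑ j ∈ range L, if m + j ∈ T then hh z m else 0)
        ≤ ∑ m ∈ range x, ∑ j ∈ range L, (if m + j ∈ T then ε / 4 / L else 0) := by
          refine sum_le_sum fun m hm => ?_
          split_ifs with h30
          · exact sum_nonneg fun j _ => by split_ifs <;> positivity
          · refine sum_le_sum fun j _ => ?_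
            split_ifs
            · rw [le_div_iff₀ hLr, hL]
              exact hh_small z hmono h3 ε x hs m (not_lt.1 h30) (mem_range.1 hm)
            · exact le_rfl
      _ = ∑ j ∈ range L, ∑ m ∈ range x, (if m + j ∈ T then ε / 4 / L else 0) := sum_comm
      _ ≤ ∑ j ∈ range L, ε / 4 / L * cT T (x + L) := by
          refine sum_le_sum fun j hj => ?_
          rw [sum_ite, sum_const_zero, add_zero, sum_const, nsmul_eq_mul, mul_comm]
          apply mul_le_mul_of_nonneg_left _ (by positivity)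
          have h31 : ((range x).filter (fun m => m + j ∈ T)).card ≤ cT T (x + L) := by
            unfold cT
            rw [← card_image_of_injective ((range x).filter (fun m => m + j ∈ T)) (add_left_injective j)]
            apply card_le_card
            intro n hn
            obtain ⟨m, hm, rfl⟩ := mem_image.1 hn
            rw [mem_filter, mem_range] at hm ⊢
            have := mem_range.1 hj
            exact ⟨by omega, hm.2⟩
          exact_mod_cast h31
      _ = ε / 4 * cT T (x + L) := by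
          rw [sum_const, card_range, nsmul_eq_mul]
          field_simp
      _ ≤ _ := by
          apply mul_le_mul_of_nonneg_left _ (by positivity)
          exact cT_add T (x + L) (x + 5) L (by omega)
  -- the total
  have htot2 : ∑ m ∈ range x, |g m - g (m + L)| ≤ (√(x : ℝ) + 1) + (L + 2) * z (2 * x) + ε / 2 * HH z x +
      ε / 4 * (cT T (x + 5) + L) := by
    rw [s3] at htot
    exact htot.trans (by linarith)
  clear hterm htot s1 s2 s3 s4
  have hz0 : (0 : ℝ) ≤ z (2 * x) := Nat.cast_nonneg _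
  have hzx := hs.zx
  have hLs' : (L : ℝ) + 7 ≤ √(x : ℝ) := by rw [hL]; exact hLs
  have hx0 : (0 : ℝ) < x := by linarith
  obtain ⟨w, hw⟩ : ∃ w, w = (x : ℝ) ^ (1 / 16 : ℝ) := ⟨_, rfl⟩
  have e2 : √(x : ℝ) = w ^ 8 := by
    rw [hw, Real.sqrt_eq_rpow, ← Real.rpow_natCast, ← Real.rpow_mul hx0.le]; norm_num
  have e14 : (x : ℝ) ^ (7 / 8 : ℝ) = w ^ 14 := by
    rw [hw, ← Real.rpow_natCast, ← Real.rpow_mul hx0.le]; norm_num
  have hw16 : 16 ≤ w := by rw [hw]; exact hs.big2
  rw [← hw] at h1ε hlog16
  rw [e14] at hlow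
  rw [e2] at htot2 hLs'
  have hzw : (z (2 * x) : ℝ) ≤ w := hzx.trans hlog16
  have h40 : (L + 2 : ℝ) * z (2 * x) ≤ w ^ 8 * w := mul_le_mul (by linarith) hzw hz0 (by positivity)
  have h41 : w ^ 8 + 1 + w ^ 8 * w + 3 * (w ^ 8) ≤ w ^ 10 := by
    have h42 : 1 ≤ w ^ 8 := one_le_pow₀ (by linarith)
    have h43 : w ^ 10 = w ^ 8 * (w * w) := by ring
    rw [h43]
    have h43a : w + 5 ≤ w * w := by nlinarith
    have h43b := mul_le_mul_of_nonneg_left h43a (show 0 ≤ w ^ 8 by positivity)
    linarith
  have h44 : w ^ 10 ≤ ε * w ^ 14 := by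
    have h45 : 1 ≤ ε * w := by rwa [div_le_iff₀ hε, mul_comm] at h1ε
    have h46 : w ^ 14 = w * w ^ 3 * w ^ 10 := by ring
    rw [h46]
    have h47 : 1 ≤ ε * (w * w ^ 3) := by
      have : 1 ≤ w ^ 3 := one_le_pow₀ (by linarith)
      nlinarith
    have h48 : 0 ≤ w ^ 10 := by positivity
    nlinarith
  have h49 : ε * w ^ 14 ≤ ε * HH z x := mul_le_mul_of_nonneg_left hlow hε.le
  have hH0 : 0 ≤ HH z x := le_trans (by positivity) hlow
  have hc0 : (0 : ℝ) ≤ cT T (x + 5) := Nat.cast_nonneg _
  have h50 : ε / 4 * (cT T (x + 5) + L) ≤ ε / 4 * cT T (x + 5) + L := by nlinarith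
  have habs := abs_nonneg (∑ m ∈ range x, chi m * g m)
  have hc1 : 0 ≤ ε * (cT T (x + 5) : ℝ) := by positivity
  have hc2 : 0 ≤ ε * HH z x := by positivity
  linarith

end Pool.Agent.Run7.h414.PM
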