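import Mathlib

set_option autoImplicit false

/-! Patterns of residues modulo 4 of consecutive elements of a set: the deterministic part. -/

namespace Pool.Agent.Run7.h414.PM
open Finset Filter
open scoped Topology

/-- the last elements of `T` below `m` have the residues `α` modulo 4 (the last one first) -/
def St (T : Set ℕ) : ℕ → List ℕ → Prop
  | _, [] => True
  | 0, _ :: _ => False
  | m + 1, a :: α => (m ∈ T ∧ m % 4 = a ∧ St T m α) ∨ (m ∉ T ∧ St T m (a :: α))

lemma St_nil (T : Set ℕ) (m : ℕ) : St T m [] ↔ True := by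
  cases m <;> simp [St]

lemma St_zero (T : Set ℕ) (a : ℕ) (α : List ℕ) : St T 0 (a :: α) ↔ False := by simp [St]

lemma St_mem {T : Set ℕ} {m : ℕ} (h : m ∈ T) (a : ℕ) (α : List ℕ) : St T (m + 1) (a :: α) ↔ m % 4 = a ∧ St T m α := by
  simp [St, h]

lemma St_not {T : Set ℕ} {m : ℕ} (h : m ∉ T) (β : List ℕ) : St T (m + 1) β ↔ St T m β := by
  cases β with
  | nil => rw [St_nil, St_nil]
  | cons a α => simp [St, h]

lemma St_eq {T : Set ℕ} {m : ℕ} (β : List ℕ) (k : ℕ) (h : ∀ j < k, m + j ∉ T) : St T (m + k) β ↔ St T m β := by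
  induction k with
  | zero => exact Iff.rfl
  | succ k ih =>
    rw [← add_assoc, St_not (h k (Nat.lt_succ_self k)), ih fun j hj => h j (by omega)]

open Classical in
/-- the elements `n < x` of `T` with `n % 4 = b` after the pattern `β` -/
noncomputable def cS (T : Set ℕ) (β : List ℕ) (b x : ℕ) : ℕ := ((range x).filter (fun n => n ∈ T ∧ n % 4 = b ∧ St T n β)).card

open Classical in
/-- the elements `n < x` of `T` after the pattern `β` -/
noncomputable def cA (T : Set ℕ) (β : List ℕ) (x : ℕ) : ℕ := ((range x).filter (fun n => n ∈ T ∧ St T n β)).card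

open Classical in
lemma cS_cA (T : Set ℕ) (a : ℕ) (α : List ℕ) (x : ℕ) : cS T α a x = cA T (a :: α) x + (if St T x (a :: α) then 1 else 0) := by
  induction x with
  | zero => simp [cS, cA, St]
  | succ x ih =>
    unfold cS cA at ih ⊢
    rw [range_add_one, filter_insert, filter_insert]
    by_cases hx : x ∈ T
    · rw [if_congr (St_mem hx a α) rfl rfl]
      by_cases h2 : St T x (a :: α)
      · rw [if_pos (show x ∈ T ∧ St T x (a :: α) from ⟨hx, h2⟩), card_insert_of_notMem (s := (range x).filter (fun n => n ∈ T ∧ St T n (a :: α))) (by simp)]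
        rw [if_pos h2] at ih
        by_cases h1 : x % 4 = a ∧ St T x α
        · rw [if_pos (show x ∈ T ∧ x % 4 = a ∧ St T x α from ⟨hx, h1⟩), if_pos h1, card_insert_of_notMem (by simp), ih]
        · rw [if_neg (fun h : x ∈ T ∧ x % 4 = a ∧ St T x α => h1 h.2), if_neg h1, ih]
      · rw [if_neg (fun h : x ∈ T ∧ St T x (a :: α) => h2 h.2)]
        rw [if_neg h2] at ih
        by_cases h1 : x % 4 = a ∧ St T x α
        · rw [if_pos (show x ∈ T ∧ x % 4 = a ∧ St T x α from ⟨hx, h1⟩), if_pos h1, card_insert_of_notMem (by simp), ih]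
        · rw [if_neg (fun h : x ∈ T ∧ x % 4 = a ∧ St T x α => h1 h.2), if_neg h1, ih]
    · rw [if_neg (fun h : x ∈ T ∧ x % 4 = a ∧ St T x α => hx h.1), if_neg (fun h : x ∈ T ∧ St T x (a :: α) => hx h.1), ih,
        if_congr (St_not hx (a :: α)) rfl rfl]

open Classical in
lemma cA_split (T : Set ℕ) (hodd : ∀ n ∈ T, n % 2 = 1) (β : List ℕ) (x : ℕ) : cA T β x = cS T β 1 x + cS T β 3 x := by
  unfold cA cS
  rw [← card_union_of_disjoint]
  · congr 1
    ext n
    simp only [mem_filter, mem_union, mem_range]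
    constructor
    · rintro ⟨h1, h2, h3⟩
      have := hodd n h2
      have h4 : n % 4 = 1 ∨ n % 4 = 3 := by omega
      rcases h4 with h4 | h4
      · exact Or.inl ⟨h1, h2, h4, h3⟩
      · exact Or.inr ⟨h1, h2, h4, h3⟩
    · rintro (⟨h1, h2, h3, h4⟩ | ⟨h1, h2, h3, h4⟩)
      · exact ⟨h1, h2, h4⟩
      · exact ⟨h1, h2, h4⟩
  · rw [disjoint_left]
    intro n h1 h2
    rw [mem_filter] at h1 h2
    omega

/-- the frequencies of the patterns from the balance of the two classes -/
theorem freq (T : Set ℕ) (hodd : ∀ n ∈ T, n % 2 = 1) (H : ℕ → ℝ) (hH : Tendsto H atTop atTop)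
    (hlow : ∀ᶠ x in atTop, H x ≤ 2 * cA T [] x)
    (hbal : ∀ (β : List ℕ) (ε : ℝ), 0 < ε → ∀ᶠ x in atTop, |(cS T β 1 x : ℝ) - cS T β 3 x| ≤ ε * H x) :
    ∀ β : List ℕ, (∀ a ∈ β, a = 1 ∨ a = 3) → Tendsto (fun x => (cA T β x : ℝ) / cA T [] x) atTop (𝓝 ((1 / 2) ^ β.length)) ∧
      ∀ b : ℕ, b = 1 ∨ b = 3 → Tendsto (fun x => (cS T β b x : ℝ) / cA T [] x) atTop (𝓝 ((1 / 2) ^ (β.length + 1))) := by
  have hpos : ∀ᶠ x in atTop, 0 < H x ∧ 0 < (cA T [] x : ℝ) := by
    filter_upwards [hH.eventually_gt_atTop 0, hlow] with x h1 h2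
    exact ⟨h1, by linarith⟩
  have hdiff : ∀ β : List ℕ, Tendsto (fun x => ((cS T β 1 x : ℝ) - cS T β 3 x) / cA T [] x) atTop (𝓝 0) := by
    intro β
    rw [Metric.tendsto_nhds]
    intro ε hε
    filter_upwards [hbal β (ε / 4) (by positivity), hpos, hlow] with x h1 h2 h3
    rw [dist_zero_right, Real.norm_eq_abs, abs_div, abs_of_pos h2.2, div_lt_iff₀ h2.2]
    nlinarith [h2.1, h2.2]
  have hstep : ∀ β : List ℕ, Tendsto (fun x => (cA T β x : ℝ) / cA T [] x) atTop (𝓝 ((1 / 2) ^ β.length)) →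
      ∀ b : ℕ, b = 1 ∨ b = 3 → Tendsto (fun x => (cS T β b x : ℝ) / cA T [] x) atTop (𝓝 ((1 / 2) ^ (β.length + 1))) := by
    intro β hβ b hb
    have h1 := (hβ.add (hdiff β)).const_mul (1 / 2 : ℝ)
    have h3 := (hβ.sub (hdiff β)).const_mul (1 / 2 : ℝ)
    have e1 : (1 / 2 : ℝ) * ((1 / 2) ^ β.length + 0) = (1 / 2) ^ (β.length + 1) := by rw [pow_succ]; ring
    have e3 : (1 / 2 : ℝ) * ((1 / 2) ^ β.length - 0) = (1 / 2) ^ (β.length + 1) := by rw [pow_succ]; ring
    rw [e1] at h1
    rw [e3] at h3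
    rcases hb with rfl | rfl
    · refine h1.congr fun x => ?_
      have := cA_split T hodd β x
      rw [this]
      push_cast
      ring
    · refine h3.congr fun x => ?_
      have := cA_split T hodd β x
      rw [this]
      push_cast
      ring
  intro β
  induction β with
  | nil =>
    intro _
    have h0 : Tendsto (fun x => (cA T [] x : ℝ) / cA T [] x) atTop (𝓝 ((1 / 2) ^ ([] : List ℕ).length)) := by
      rw [List.length_nil, pow_zero]
      refine tendsto_const_nhds.congr' ?_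
      filter_upwards [hpos] with x hx
      rw [div_self hx.2.ne']
    exact ⟨h0, hstep [] h0⟩
  | cons a α ih =>
    intro hα
    have h1 := (ih fun c hc => hα c (List.mem_cons_of_mem a hc)).2 a (hα a List.mem_cons_self)
    have hinf : Tendsto (fun x => (cA T [] x : ℝ)) atTop atTop := by
      refine tendsto_atTop_mono' atTop ?_ (hH.const_mul_atTop (show (0 : ℝ) < 1 / 2 by norm_num))
      filter_upwards [hlow] with x hx
      linarith
    have h2 : Tendsto (fun x => (cA T (a :: α) x : ℝ) / cA T [] x) atTop (𝓝 ((1 / 2) ^ (a :: α).length)) := by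
      have h3 : Tendsto (fun x => ((cS T α a x : ℝ) - cA T (a :: α) x) / cA T [] x) atTop (𝓝 0) := by
        classical
        refine squeeze_zero_norm' ?_ hinf.inv_tendsto_atTop
        filter_upwards [hpos] with x hx
        rw [cS_cA, Real.norm_eq_abs, abs_div, abs_of_pos hx.2]
        show _ ≤ ((cA T [] x : ℝ))⁻¹
        rw [inv_eq_one_div]
        apply div_le_div_of_nonneg_right _ hx.2.le
        push_cast
        split_ifs <;> simp
      have h4 := h1.sub h3
      rw [sub_zero] at h4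
      rw [List.length_cons]
      refine h4.congr fun x => ?_
      ring
    exact ⟨h2, hstep (a :: α) h2⟩

/-- the pattern `a 0, …, a (k - 1)`, the last one first -/
def lst (a : ℕ → ℕ) : ℕ → List ℕ
  | 0 => []
  | k + 1 => a k :: lst a k

lemma lst_length (a : ℕ → ℕ) (k : ℕ) : (lst a k).length = k := by
  induction k with
  | zero => rfl
  | succ k ih => simp [lst, ih]

lemma mem_lst (a : ℕ → ℕ) (k c : ℕ) (h : c ∈ lst a k) : ∃ j < k, c = a j := by
  induction k with
  | zero => simp [lst] at h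
  | succ k ih =>
    simp only [lst, List.mem_cons] at h
    rcases h with h | h
    · exact ⟨k, Nat.lt_succ_self k, h⟩
    · obtain ⟨j, h1, h2⟩ := ih h
      exact ⟨j, by omega, h2⟩

lemma nth_zero_St {T : Set ℕ} (a : ℕ) (α : List ℕ) : ¬ St T (Nat.nth (· ∈ T) 0) (a :: α) := by
  have h := St_eq (T := T) (m := 0) (a :: α) (Nat.nth (· ∈ T) 0) (fun j hj hjT => by
    rw [zero_add] at hjT
    exact absurd hj (not_lt.2 (by
      classical
      rw [Nat.nth_zero]
      exact Nat.sInf_le hjT)))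
  rw [zero_add] at h
  rw [h, St_zero]
  exact id

lemma nth_succ_St {T : Set ℕ} (hT : T.Infinite) (i a : ℕ) (α : List ℕ) :
    St T (Nat.nth (· ∈ T) (i + 1)) (a :: α) ↔ Nat.nth (· ∈ T) i % 4 = a ∧ St T (Nat.nth (· ∈ T) i) α := by
  obtain ⟨e, he⟩ : ∃ e : ℕ → ℕ, e = Nat.nth (· ∈ T) := ⟨_, rfl⟩
  rw [← he]
  have hmem : e i ∈ T := by rw [he]; exact Nat.nth_mem_of_infinite (p := (· ∈ T)) hT i
  have hlt : e i < e (i + 1) := by rw [he]; exact (Nat.nth_strictMono (p := (· ∈ T)) hT) (Nat.lt_succ_self i)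
  obtain ⟨k, hk⟩ := Nat.exists_eq_add_of_lt hlt
  have e1 : e (i + 1) = e i + 1 + k := by omega
  rw [e1, St_eq (T := T) (m := e i + 1) (a :: α) k, St_mem hmem]
  intro j hj hjT
  classical
  have h1 : Nat.nth (· ∈ T) (Nat.count (· ∈ T) (e i + 1 + j)) = e i + 1 + j := Nat.nth_count hjT
  have h2 : i < Nat.count (· ∈ T) (e i + 1 + j) := by
    by_contra hcon
    have := (Nat.nth_strictMono (p := (· ∈ T)) hT).monotone (not_lt.1 hcon)
    rw [h1, ← he] at this
    omega
  have h3 := (Nat.nth_strictMono (p := (· ∈ T)) hT).monotone (show i + 1 ≤ Nat.count (· ∈ T) (e i + 1 + j) from h2)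
  rw [h1, ← he] at h3
  omega

lemma St_lst {T : Set ℕ} (hT : T.Infinite) (a : ℕ → ℕ) (k i : ℕ) :
    St T (Nat.nth (· ∈ T) i) (lst a k) ↔ k ≤ i ∧ ∀ j < k, Nat.nth (· ∈ T) (i - k + j) % 4 = a j := by
  induction k generalizing i with
  | zero => simp [lst, St_nil]
  | succ k ih =>
    cases i with
    | zero =>
      simp only [lst]
      constructor
      · intro h
        exact absurd h (nth_zero_St _ _)
      · rintro ⟨h, -⟩
        omega
    | succ i =>
      simp only [lst]
      rw [nth_succ_St hT, ih]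
      have e1 : i + 1 - (k + 1) = i - k := by omega
      rw [e1]
      constructor
      · rintro ⟨h1, h2, h3⟩
        refine ⟨by omega, fun j hj => ?_⟩
        rcases Nat.lt_succ_iff_lt_or_eq.1 hj with h4 | h4
        · exact h3 j h4
        · subst h4
          rw [Nat.sub_add_cancel h2]
          exact h1
      · rintro ⟨h1, h2⟩
        have h4 := h2 k (Nat.lt_succ_self k)
        rw [Nat.sub_add_cancel (by omega)] at h4
        exact ⟨h4, by omega, fun j hj => h2 j (by omega)⟩

open Classical in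
lemma filter_nth {T : Set ℕ} (hT : T.Infinite) (M : ℕ) :
    (range (Nat.nth (· ∈ T) M)).filter (fun n => n ∈ T) = (range M).image (Nat.nth (· ∈ T)) := by
  have hs := Nat.nth_strictMono (p := (· ∈ T)) hT
  ext n
  rw [mem_filter, mem_range, mem_image]
  constructor
  · rintro ⟨h1, h2⟩
    refine ⟨Nat.count (· ∈ T) n, ?_, Nat.nth_count h2⟩
    rw [mem_range, ← hs.lt_iff_lt, Nat.nth_count h2]
    exact h1
  · rintro ⟨i, h1, rfl⟩
    exact ⟨hs (mem_range.1 h1), Nat.nth_mem_of_infinite (p := (· ∈ T)) hT i⟩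

open Classical in
lemma cS_nth {T : Set ℕ} (hT : T.Infinite) (β : List ℕ) (b M : ℕ) :
    cS T β b (Nat.nth (· ∈ T) M) = ((range M).filter (fun i => Nat.nth (· ∈ T) i % 4 = b ∧ St T (Nat.nth (· ∈ T) i) β)).card := by
  unfold cS
  rw [← filter_filter, filter_nth hT, filter_image, card_image_of_injective _ (Nat.nth_strictMono (p := (· ∈ T)) hT).injective]

open Classical in
lemma cA_nth {T : Set ℕ} (hT : T.Infinite) (M : ℕ) : cA T [] (Nat.nth (· ∈ T) M) = M := by
  unfold cA
  rw [← filter_filter, filter_nth hT, filter_image, card_image_of_injective _ (Nat.nth_strictMono (p := (· ∈ T)) hT).injective,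
    filter_true_of_mem (fun i _ => by rw [St_nil]; trivial), card_range]

open Classical in
lemma pat_count {T : Set ℕ} (hT : T.Infinite) (a : ℕ → ℕ) (k M : ℕ) :
    ((range M).filter (fun i => ∀ j ≤ k, Nat.nth (· ∈ T) (i + j) % 4 = a j)).card =
      cS T (lst a k) (a k) (Nat.nth (· ∈ T) (M + k)) := by
  rw [cS_nth hT]
  rw [← card_image_of_injective ((range M).filter (fun i => ∀ j ≤ k, Nat.nth (· ∈ T) (i + j) % 4 = a j)) (add_left_injective k)]
  congr 1
  ext i
  simp only [mem_filter, mem_image, mem_range]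
  rw [St_lst hT]
  constructor
  · rintro ⟨i', ⟨h1, h2⟩, rfl⟩
    refine ⟨by omega, h2 k le_rfl, by omega, fun j hj => ?_⟩
    have e : i' + k - k + j = i' + j := by omega
    rw [e]
    exact h2 j hj.le
  · rintro ⟨h1, h2, h3, h4⟩
    refine ⟨i - k, ⟨by omega, fun j hj => ?_⟩, by omega⟩
    rcases Nat.lt_or_eq_of_le hj with h5 | h5
    · exact h4 j h5
    · subst h5
      rw [Nat.sub_add_cancel h3]
      exact h2

open Classical in
/-- the frequencies of the patterns, in the order of the elements -/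
theorem freq_nth (T : Set ℕ) (hT : T.Infinite) (hodd : ∀ n ∈ T, n % 2 = 1) (H : ℕ → ℝ) (hH : Tendsto H atTop atTop)
    (hlow : ∀ᶠ x in atTop, H x ≤ 2 * cA T [] x)
    (hbal : ∀ (β : List ℕ) (ε : ℝ), 0 < ε → ∀ᶠ x in atTop, |(cS T β 1 x : ℝ) - cS T β 3 x| ≤ ε * H x)
    (k : ℕ) (a : ℕ → ℕ) (ha : ∀ j ≤ k, a j = 1 ∨ a j = 3) :
    Tendsto (fun M : ℕ => (((range M).filter (fun i => ∀ j ≤ k, Nat.nth (· ∈ T) (i + j) % 4 = a j)).card : ℝ) / M) atTop
      (𝓝 ((1 / 2) ^ (k + 1))) := by
  have h1 := (freq T hodd H hH hlow hbal (lst a k) (fun c hc => by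
    obtain ⟨j, hj, rfl⟩ := mem_lst a k c hc
    exact ha j hj.le)).2 (a k) (ha k le_rfl)
  rw [lst_length] at h1
  have h2 : Tendsto (fun M : ℕ => Nat.nth (· ∈ T) (M + k)) atTop atTop :=
    (Nat.nth_strictMono (p := (· ∈ T)) hT).tendsto_atTop.comp (tendsto_add_atTop_nat k)
  have h3 := h1.comp h2
  have h4 : Tendsto (fun M : ℕ => ((M : ℝ) + k) / M) atTop (𝓝 1) := by
    have h5 : Tendsto (fun M : ℕ => 1 + (k : ℝ) / M) atTop (𝓝 (1 + 0)) :=
      tendsto_const_nhds.add (tendsto_const_div_atTop_nhds_zero_nat (k : ℝ))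
    rw [add_zero] at h5
    refine h5.congr' ?_
    filter_upwards [eventually_gt_atTop 0] with M hM
    have : (0 : ℝ) < M := by exact_mod_cast hM
    field_simp
  have h5 := h3.mul h4
  rw [mul_one] at h5
  refine h5.congr' ?_
  filter_upwards [eventually_gt_atTop 0] with M hM
  have hM' : (0 : ℝ) < M := by exact_mod_cast hM
  simp only [Function.comp]
  rw [← pat_count hT, cA_nth hT]
  push_cast
  have : (0 : ℝ) < (M : ℝ) + k := by positivity
  field_simp

end Pool.Agent.Run7.h414.PM
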