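import Pool.Agent.Y877.SxI
import Pool.Agent.Y877.SxP
import Pool.Agent.R494.SPL2
import Pool.Agent.N233.GM.Law
import Pool.Agent.Run7.h414.PM.Pert

set_option autoImplicit false

/-! The numbers `p_{k n} ^ 2 - 2` in random models. -/

namespace Pool.Agent.Run7.h414.PM.Kn
open Finset Filter MeasureTheory
open scoped Topology
open Pool.Agent.R528.RM (dens In)

/-- the `m`-th prime -/
noncomputable def pr (m : ℕ) : ℕ := Nat.nth Nat.Prime (m - 1)

lemma pr_prime (n : ℕ) : (pr n).Prime := Nat.prime_nth_prime _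

lemma pr_lt (n : ℕ) (hn : 1 ≤ n) : n < pr n := by
  unfold pr
  have := Nat.add_two_le_nth_prime (n - 1)
  omega

lemma pr_strict {m n : ℕ} (hm : 1 ≤ m) (h : m < n) : pr m < pr n :=
  Nat.nth_strictMono Nat.infinite_setOfPred_prime (by omega)

lemma pr_inj {m n : ℕ} (hm : 1 ≤ m) (hn : 1 ≤ n) (h : pr m = pr n) : m = n := by
  rcases lt_trichotomy m n with hlt | heq | hlt
  · exact absurd h (pr_strict hm hlt).ne
  · exact heq
  · exact absurd h (pr_strict hn hlt).ne'

/-- the number `p_{k n} ^ 2 - 2` -/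
noncomputable def val (n k : ℕ) : ℕ := pr (k * n) ^ 2 - 2

/-- the `k` from 1 to `n` with `2 k + 1` prime -/
def KK (n : ℕ) : Finset ℕ := (Icc 1 n).filter (fun k => (2 * k + 1).Prime)

lemma mem_KK (n k : ℕ) : k ∈ KK n ↔ (1 ≤ k ∧ k ≤ n) ∧ (2 * k + 1).Prime := by
  unfold KK
  rw [mem_filter, mem_Icc]

lemma val_low (n k : ℕ) (hn : 1 ≤ n) (hk : 1 ≤ k) : n ≤ val n k ∧ val n k + 2 = pr (k * n) ^ 2 := by
  have h1 : 1 ≤ k * n := Nat.mul_pos hk hn
  have h2 := pr_lt (k * n) h1
  have h3 : n ≤ k * n := Nat.le_mul_of_pos_left _ hk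
  have h4 : n + 2 ≤ pr (k * n) ^ 2 := by nlinarith
  unfold val
  omega

lemma val_inj (n : ℕ) (hn : 1 ≤ n) : Set.InjOn (val n) (KK n) := by
  intro k hk k' hk' h
  rw [mem_coe, mem_KK] at hk hk'
  obtain ⟨-, h1⟩ := val_low n k hn hk.1.1
  obtain ⟨-, h2⟩ := val_low n k' hn hk'.1.1
  have h3 : pr (k * n) ^ 2 = pr (k' * n) ^ 2 := by rw [← h1, ← h2, h]
  have h4 : pr (k * n) = pr (k' * n) := Nat.pow_left_injective (n := 2) (by norm_num) h3
  have h5 := pr_inj (Nat.mul_pos hk.1.1 hn) (Nat.mul_pos hk'.1.1 hn) h4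
  exact Nat.eq_of_mul_eq_mul_right hn h5

/-- the sieve by 2, 3, 5 does not touch the numbers `p ^ 2 - 2`, `p > 5` -/
lemma cop5 (p q : ℕ) (hp : p.Prime) (hp5 : 5 < p) (hq : q.Prime) (hq6 : q ≤ 6) (m : ℕ) (hm : m + 2 = p ^ 2) : ¬ q ∣ m := by
  intro h
  have h2 : ¬ 2 ∣ p := fun h => by
    have := (Nat.prime_dvd_prime_iff_eq Nat.prime_two hp).1 h
    omega
  have h3 : ¬ 3 ∣ p := fun h => by
    have := (Nat.prime_dvd_prime_iff_eq Nat.prime_three hp).1 h
    omega
  have h5 : ¬ 5 ∣ p := fun h => by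
    have := (Nat.prime_dvd_prime_iff_eq Nat.prime_five hp).1 h
    omega
  have e : m + 2 = p * p := by rw [hm, sq]
  have hq2 := hq.two_le
  have hqq : q = 2 ∨ q = 3 ∨ q = 5 := by
    interval_cases q
    · exact Or.inl rfl
    · exact Or.inr (Or.inl rfl)
    · exact absurd hq (by decide)
    · exact Or.inr (Or.inr rfl)
    · exact absurd hq (by decide)
  rcases hqq with rfl | rfl | rfl
  · have a : (m + 2) % 2 = (p % 2) * (p % 2) % 2 := by rw [e, Nat.mul_mod]
    have b : p % 2 = 1 := by omega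
    rw [b] at a
    omega
  · have a : (m + 2) % 3 = (p % 3) * (p % 3) % 3 := by rw [e, Nat.mul_mod]
    have b : p % 3 = 1 ∨ p % 3 = 2 := by omega
    rcases b with b | b <;> rw [b] at a <;> omega
  · have a : (m + 2) % 5 = (p % 5) * (p % 5) % 5 := by rw [e, Nat.mul_mod]
    have b : p % 5 = 1 ∨ p % 5 = 2 ∨ p % 5 = 3 ∨ p % 5 = 4 := by omega
    rcases b with b | b | b | b <;> rw [b] at a <;> omega

open Classical in
/-- the number of the `k` with `p_{k n} ^ 2 - 2` in `S` -/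
noncomputable def RR (S : Set ℕ) (n : ℕ) : ℕ := ((KK n).filter (fun k => val n k ∈ S)).card

/-- the expected number -/
noncomputable def EE (z : ℕ → ℕ) (n : ℕ) : ℝ := ∑ k ∈ KK n, Pool.Agent.N233.GM.rho z (val n k)

section

variable {Ω : Type} {m0 : MeasurableSpace Ω} {μ : Measure Ω} [IsProbabilityMeasure μ] {ℱ : Filtration ℕ m0} {A : ℕ → Set Ω}

lemma RR_eq (ω : Ω) (n : ℕ) : (RR {m | ω ∈ A m} n : ℝ) = ∑ k ∈ KK n, In A (val n k) ω := by
  classical
  unfold RR
  rw [card_filter]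
  push_cast
  refine sum_congr rfl fun k _ => ?_
  unfold Pool.Agent.R528.RM.In
  by_cases h : ω ∈ A (val n k)
  · simp [h]
  · simp [h]

/-- the law in the models -/
theorem model (z : ℕ → ℕ) (hV : ∀ᶠ m : ℕ in atTop, Pool.Agent.N233.GM.W (z m) / Real.log m < 1)
    (hA : ∀ n, MeasurableSet[ℱ n] (A n)) (hcop : ∀ n, ¬ Pool.Agent.N233.GM.Rough z n → A n = ∅)
    (hd : ∀ᵐ ω ∂μ, Tendsto (fun n : ℕ => dens μ ℱ A n ω * Real.log n / Pool.Agent.N233.GM.W (z (n + 1)))
      (atTop ⊓ 𝓟 {n : ℕ | Pool.Agent.N233.GM.Rough z (n + 1)}) (𝓝 1)) :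
    ∀ᵐ ω ∂μ, ∀ η : ℝ, 0 < η → ∃ K : ℝ, 0 ≤ K ∧ ∀ᶠ n : ℕ in atTop,
      |(RR {m | ω ∈ A m} n : ℝ) - EE z n| ≤ η * EE z n + K * Real.log n := by
  classical
  have hprof := Pool.Agent.N233.GM.profile (μ := μ) (ℱ := ℱ) (A := A) z hV hcop hd
  have h := Pool.Agent.R494.SPL.sparse_law (μ := μ) (ℱ := ℱ) (A := A) hA
    (fun n => (Pool.Agent.N233.GM.rho1_bounds z n).1) hprof 0 (fun x : ℕ => ({x} : Finset ℕ))
    (Eventually.of_forall fun x => by rw [card_singleton, pow_zero])
    (fun x : ℕ => (KK x).image (val x)) (fun x => x) tendsto_id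
    (by
      filter_upwards [eventually_ge_atTop 1] with x hx a ha m hm
      rw [mem_singleton] at ha
      subst ha
      obtain ⟨k, hk, rfl⟩ := mem_image.1 hm
      exact (val_low a k hx ((mem_KK a k).1 hk).1.1).1)
  obtain ⟨m1, hm1⟩ := eventually_atTop.1 hV
  filter_upwards [h] with ω hω η hη
  obtain ⟨K, hK0, hK⟩ := hω η hη
  refine ⟨K, hK0, ?_⟩
  filter_upwards [hK, eventually_ge_atTop 1, eventually_ge_atTop m1] with n g1 g2 g3
  have g4 := g1 n (mem_singleton_self n)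
  have e1 : ∑ m ∈ (KK n).image (val n), In A m ω = RR {m | ω ∈ A m} n := by
    rw [RR_eq, sum_image (val_inj n g2)]
  have e2 : ∑ m ∈ (KK n).image (val n), Pool.Agent.N233.GM.rho1 z m = EE z n := by
    unfold EE
    rw [sum_image (val_inj n g2)]
    refine sum_congr rfl fun k hk => ?_
    exact Pool.Agent.N233.GM.rho1_eq z _ (hm1 _ (g3.trans (val_low n k g2 ((mem_KK n k).1 hk).1.1).1))
  rw [e1, e2] at g4
  exact g4

end

lemma logt' : Tendsto (fun n : ℕ => Real.log (n : ℝ)) atTop atTop := Real.tendsto_log_atTop.comp tendsto_natCast_atTop_atTop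

/-- the `k` are numerous -/
lemma KK_low : ∀ᶠ n : ℕ in atTop, (n : ℝ) / (4 * Real.log n) ≤ (KK n).card := by
  obtain ⟨x0, hx0⟩ := Pool.Agent.Y877.SX.pi_low
  have hll := (Real.isLittleO_log_id_atTop.def (c := 1 / 16) (by norm_num))
  filter_upwards [eventually_ge_atTop x0, eventually_ge_atTop 16, logt'.eventually_ge_atTop 4,
    tendsto_natCast_atTop_atTop.eventually hll] with n h1 h2 h3 h4
  have hn : (16 : ℝ) ≤ n := by exact_mod_cast h2
  rw [Real.norm_of_nonneg (by linarith), id, Real.norm_of_nonneg (by linarith)] at h4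
  have h5 := hx0 (2 * n + 1) (by omega)
  have h6 : Nat.primeCounting (2 * n + 1) ≤ (KK n).card + 1 := by
    have e1 : Nat.primeCounting (2 * n + 1) = ((range (2 * n + 2)).filter Nat.Prime).card := by
      rw [Nat.primeCounting, Nat.primeCounting', Nat.count_eq_card_filter_range]
    rw [e1]
    have hsub : (range (2 * n + 2)).filter Nat.Prime ⊆ insert 2 ((KK n).image (fun k => 2 * k + 1)) := by
      intro q hq
      rw [mem_filter, mem_range] at hq
      obtain ⟨hq1, hq2⟩ := hq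
      rcases hq2.eq_two_or_odd with h | h
      · rw [h]
        exact mem_insert_self _ _
      · apply mem_insert_of_mem
        rw [mem_image]
        refine ⟨q / 2, ?_, by omega⟩
        rw [mem_KK]
        have e : 2 * (q / 2) + 1 = q := by omega
        refine ⟨⟨?_, by omega⟩, by rw [e]; exact hq2⟩
        have := hq2.two_le
        omega
    calc ((range (2 * n + 2)).filter Nat.Prime).card ≤ (insert 2 ((KK n).image (fun k => 2 * k + 1))).card := card_le_card hsub
      _ ≤ ((KK n).image (fun k => 2 * k + 1)).card + 1 := card_insert_le _ _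
      _ ≤ (KK n).card + 1 := Nat.add_le_add_right card_image_le 1
  have h7 : (Nat.primeCounting (2 * n + 1) : ℝ) ≤ (KK n).card + 1 := by exact_mod_cast h6
  have hlog : Real.log ((2 * n + 1 : ℕ) : ℝ) ≤ 2 * Real.log n := by
    have : ((2 * n + 1 : ℕ) : ℝ) ≤ (n : ℝ) ^ 2 := by
      push_cast
      nlinarith
    have := Real.log_le_log (by positivity) this
    rwa [Real.log_pow, Nat.cast_ofNat] at this
  have hl0 : 0 < Real.log ((2 * n + 1 : ℕ) : ℝ) := Real.log_pos (by push_cast; linarith)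
  have h8 : (n : ℝ) / (2 * Real.log n) ≤ ((2 * n + 1 : ℕ) : ℝ) / (2 * Real.log ((2 * n + 1 : ℕ) : ℝ)) := by
    rw [div_le_div_iff₀ (by linarith) (by positivity)]
    push_cast at hlog ⊢
    nlinarith
  have h9 : 1 ≤ (n : ℝ) / (4 * Real.log n) := by
    rw [le_div_iff₀ (by linarith)]
    linarith
  have h10 : (n : ℝ) / (2 * Real.log n) = n / (4 * Real.log n) + n / (4 * Real.log n) := by
    field_simp
    norm_num
  linarith

/-- the expected number is large, if one sieves by 2, 3, 5 only -/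
theorem EE_low (z : ℕ → ℕ) (hz : ∀ m, z m ≤ 6) : ∀ᶠ n : ℕ in atTop, (n : ℝ) / (64 * Real.log n ^ 2) ≤ EE z n := by
  obtain ⟨n0, hn0⟩ := Pool.Agent.Y877.SX.nth_le_log
  filter_upwards [KK_low, eventually_ge_atTop (max n0 8), logt'.eventually_ge_atTop 1] with n h1 h2 h3
  have hn8 : 8 ≤ n := le_trans (le_max_right _ _) h2
  have hnr : (8 : ℝ) ≤ n := by exact_mod_cast hn8
  have hterm : ∀ k ∈ KK n, 1 / (16 * Real.log n) ≤ Pool.Agent.N233.GM.rho z (val n k) := by
    intro k hk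
    rw [mem_KK] at hk
    obtain ⟨⟨hk1, hk2⟩, -⟩ := hk
    obtain ⟨g1, g2⟩ := val_low n k (by omega) hk1
    have hkn : n ≤ k * n := Nat.le_mul_of_pos_left _ hk1
    have hr : Pool.Agent.N233.GM.Rough z (val n k) := by
      intro q hq hqz
      exact cop5 (pr (k * n)) q (pr_prime _) (by have := pr_lt (k * n) (by omega); omega) hq (hqz.trans (hz _)) _ g2
    unfold Pool.Agent.N233.GM.rho
    rw [if_pos hr]
    have hW := Pool.Agent.N233.GM.W_ge (z (val n k))
    have hv0 : 0 < Real.log (val n k) := Real.log_pos (by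
      have : (8 : ℝ) ≤ val n k := by exact_mod_cast hn8.trans g1
      linarith)
    have hp : ((pr (k * n) : ℕ) : ℝ) ≤ (n : ℝ) ^ 4 := by
      have hm0 : n0 ≤ n ^ 2 := by
        have : n0 ≤ n := (le_max_left _ _).trans h2
        nlinarith
      have hi : k * n - 1 ≤ 4 * n ^ 2 := by
        have : k * n ≤ n * n := Nat.mul_le_mul_right _ hk2
        have e : n ^ 2 = n * n := sq n
        omega
      have g := hn0 (n ^ 2) hm0 (k * n - 1) hi
      have hl : Real.log ((n ^ 2 : ℕ) : ℝ) ≤ n := by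
        push_cast
        rw [Real.log_pow, Nat.cast_ofNat]
        have e1 := Real.add_one_le_exp (Real.log n / 2)
        have e2 : Real.exp (Real.log n / 2) ^ 2 = n := by
          rw [← Real.exp_nat_mul]
          have : ((2 : ℕ) : ℝ) * (Real.log n / 2) = Real.log n := by push_cast; ring
          rw [this, Real.exp_log (by linarith)]
        nlinarith [Real.exp_pos (Real.log n / 2)]
      have hl0 : 0 ≤ Real.log ((n ^ 2 : ℕ) : ℝ) := Real.log_natCast_nonneg _
      calc ((pr (k * n) : ℕ) : ℝ) ≤ ((n ^ 2 : ℕ) : ℝ) * Real.log ((n ^ 2 : ℕ) : ℝ) ^ 2 := g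
        _ ≤ ((n ^ 2 : ℕ) : ℝ) * (n : ℝ) ^ 2 := by
            apply mul_le_mul_of_nonneg_left _ (Nat.cast_nonneg _)
            exact pow_le_pow_left₀ hl0 hl 2
        _ = (n : ℝ) ^ 4 := by push_cast; ring
    have hv : (val n k : ℝ) ≤ (n : ℝ) ^ 8 := by
      have e1 : (val n k : ℝ) + 2 = (pr (k * n) : ℝ) ^ 2 := by exact_mod_cast g2
      have e2 : (pr (k * n) : ℝ) ^ 2 ≤ ((n : ℝ) ^ 4) ^ 2 := pow_le_pow_left₀ (Nat.cast_nonneg _) hp 2
      have e3 : ((n : ℝ) ^ 4) ^ 2 = (n : ℝ) ^ 8 := by ring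
      linarith
    have hvl : Real.log (val n k) ≤ 8 * Real.log n := by
      have hvp : (0 : ℝ) < val n k := by
        have : (8 : ℝ) ≤ val n k := by exact_mod_cast hn8.trans g1
        linarith
      have := Real.log_le_log hvp hv
      rw [Real.log_pow] at this
      exact_mod_cast this
    rw [div_le_div_iff₀ (by linarith) hv0]
    nlinarith
  unfold EE
  calc (n : ℝ) / (64 * Real.log n ^ 2) = n / (4 * Real.log n) * (1 / (16 * Real.log n)) := by
        field_simp
        norm_num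
    _ ≤ (KK n).card * (1 / (16 * Real.log n)) := mul_le_mul_of_nonneg_right h1 (by positivity)
    _ = ∑ k ∈ KK n, 1 / (16 * Real.log n) := by rw [sum_const, nsmul_eq_mul]
    _ ≤ _ := sum_le_sum hterm

/-- from the law with an error to the asymptotic formula -/
lemma ratio (R E : ℕ → ℝ) (hE : ∀ᶠ n : ℕ in atTop, (n : ℝ) / (64 * Real.log n ^ 2) ≤ E n)
    (h : ∀ η : ℝ, 0 < η → ∃ K : ℝ, 0 ≤ K ∧ ∀ᶠ n : ℕ in atTop, |R n - E n| ≤ η * E n + K * Real.log n) :
    Tendsto (fun n => R n / E n) atTop (𝓝 1) := by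
  rw [Metric.tendsto_nhds]
  intro ε hε
  obtain ⟨K, hK0, hK⟩ := h (ε / 4) (by positivity)
  have hlo := (isLittleO_log_rpow_rpow_atTop (3 : ℝ) (show (0 : ℝ) < 1 by norm_num)).def
    (c := ε / (4 * 64 * (K + 1))) (by positivity)
  filter_upwards [hK, hE, logt'.eventually_ge_atTop 1, eventually_ge_atTop 1,
    tendsto_natCast_atTop_atTop.eventually hlo] with n h1 h2 h3 h4 h5
  have hn : (1 : ℝ) ≤ n := by exact_mod_cast h4
  have hl : 0 < Real.log n := by linarith
  have hl2 : 0 < 64 * Real.log n ^ 2 := by positivity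
  have hE0 : 0 < E n := lt_of_lt_of_le (by positivity) h2
  rw [Real.norm_of_nonneg (by positivity), Real.norm_of_nonneg (by positivity), Real.rpow_one,
    show ((3 : ℝ)) = ((3 : ℕ) : ℝ) by norm_num, Real.rpow_natCast] at h5
  have h6 : K * Real.log n ≤ ε / 4 * E n := by
    have h7 : K * Real.log n ≤ ε / 4 * ((n : ℝ) / (64 * Real.log n ^ 2)) := by
      rw [← mul_div_assoc, le_div_iff₀ hl2]
      have e1 : K * Real.log n * (64 * Real.log n ^ 2) = 64 * K * Real.log n ^ 3 := by ring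
      rw [e1]
      calc 64 * K * Real.log n ^ 3 ≤ 64 * (K + 1) * Real.log n ^ 3 := by
            apply mul_le_mul_of_nonneg_right _ (by positivity)
            linarith
        _ ≤ 64 * (K + 1) * (ε / (4 * 64 * (K + 1)) * n) := mul_le_mul_of_nonneg_left h5 (by positivity)
        _ = ε / 4 * n := by
            field_simp
    exact h7.trans (mul_le_mul_of_nonneg_left h2 (by positivity))
  rw [Real.dist_eq, show R n / E n - 1 = (R n - E n) / E n by field_simp, abs_div, abs_of_pos hE0, div_lt_iff₀ hE0]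
  have : 0 < ε * E n := by positivity
  linarith

end Pool.Agent.Run7.h414.PM.Kn
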