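import Pool.Agent.R494.SPL2
import Pool.Agent.N233.GM.Law
import Pool.Agent.Run7.h414.PM.Pert

set_option autoImplicit false

/-! The numbers `2 k p + 1` in random models. -/

namespace Pool.Agent.Run7.h414.PM.Lk
open Finset Filter MeasureTheory
open scoped Topology
open Pool.Agent.R528.RM (dens In)

/-- the `k ≤ H` which are not divisible by `p` -/
def KH (p H : ℕ) : Finset ℕ := (Icc 1 H).filter (fun k => ¬ p ∣ k)

lemma mem_KH (p H k : ℕ) : k ∈ KH p H ↔ (1 ≤ k ∧ k ≤ H) ∧ ¬ p ∣ k := by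
  unfold KH
  rw [mem_filter, mem_Icc]

lemma val_inj (p H : ℕ) (hp : 1 ≤ p) : Set.InjOn (fun k => 2 * k * p + 1) (KH p H) := by
  intro k _ k' _ h
  beta_reduce at h
  have h1 : 2 * k * p = 2 * k' * p := by omega
  have h2 := Nat.eq_of_mul_eq_mul_right hp h1
  omega

lemma logt' : Tendsto (fun n : ℕ => Real.log (n : ℝ)) atTop atTop := Real.tendsto_log_atTop.comp tendsto_natCast_atTop_atTop

section

variable {Ω : Type} {m0 : MeasurableSpace Ω} {μ : Measure Ω} [IsProbabilityMeasure μ] {ℱ : Filtration ℕ m0} {A : ℕ → Set Ω}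

/-- the law in the models -/
theorem model (z : ℕ → ℕ) (hV : ∀ᶠ m : ℕ in atTop, Pool.Agent.N233.GM.W (z m) / Real.log m < 1)
    (hA : ∀ n, MeasurableSet[ℱ n] (A n)) (hcop : ∀ n, ¬ Pool.Agent.N233.GM.Rough z n → A n = ∅)
    (hd : ∀ᵐ ω ∂μ, Tendsto (fun n : ℕ => dens μ ℱ A n ω * Real.log n / Pool.Agent.N233.GM.W (z (n + 1)))
      (atTop ⊓ 𝓟 {n : ℕ | Pool.Agent.N233.GM.Rough z (n + 1)}) (𝓝 1)) :
    ∀ᵐ ω ∂μ, ∀ η : ℝ, 0 < η → ∃ K : ℝ, 0 ≤ K ∧ ∀ᶠ p : ℕ in atTop, ∀ H : ℕ, H ≤ 2 * p + 1 →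
      |∑ k ∈ KH p H, In A (2 * k * p + 1) ω - ∑ k ∈ KH p H, Pool.Agent.N233.GM.rho z (2 * k * p + 1)| ≤
        η * ∑ k ∈ KH p H, Pool.Agent.N233.GM.rho z (2 * k * p + 1) + K * Real.log p := by
  classical
  have hprof := Pool.Agent.N233.GM.profile (μ := μ) (ℱ := ℱ) (A := A) z hV hcop hd
  have h := Pool.Agent.R494.SPL.sparse_law (μ := μ) (ℱ := ℱ) (A := A) hA
    (fun n => (Pool.Agent.N233.GM.rho1_bounds z n).1) hprof 2
    (fun p : ℕ => ({p} : Finset ℕ) ×ˢ range (2 * p + 2))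
    (by
      filter_upwards [eventually_ge_atTop 3] with x hx
      rw [card_product, card_singleton, card_range, one_mul]
      nlinarith)
    (fun a : ℕ × ℕ => (KH a.1 a.2).image (fun k => 2 * k * a.1 + 1))
    (fun x => x) tendsto_id
    (by
      refine Eventually.of_forall fun x a ha m hm => ?_
      obtain ⟨a1, H⟩ := a
      rw [mem_product, mem_singleton] at ha
      obtain ⟨ha1, -⟩ := ha
      simp only at ha1
      subst ha1
      obtain ⟨k, hk, rfl⟩ := mem_image.1 hm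
      have hk1 := ((mem_KH _ _ _).1 hk).1.1
      have : 1 * a1 ≤ 2 * k * a1 := Nat.mul_le_mul_right _ (by omega)
      simp only
      omega)
  obtain ⟨m1, hm1⟩ := eventually_atTop.1 hV
  filter_upwards [h] with ω hω η hη
  obtain ⟨K, hK0, hK⟩ := hω η hη
  refine ⟨K, hK0, ?_⟩
  filter_upwards [hK, eventually_ge_atTop 1, eventually_ge_atTop m1] with p g1 g2 g3 H hH
  have g4 := g1 (p, H) (by
    rw [mem_product, mem_singleton, mem_range]
    exact ⟨rfl, by simp only; omega⟩)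
  simp only at g4
  rw [sum_image (val_inj p H g2), sum_image (val_inj p H g2)] at g4
  have e2 : ∑ k ∈ KH p H, Pool.Agent.N233.GM.rho1 z (2 * k * p + 1) = ∑ k ∈ KH p H, Pool.Agent.N233.GM.rho z (2 * k * p + 1) := by
    refine sum_congr rfl fun k hk => ?_
    refine Pool.Agent.N233.GM.rho1_eq z _ (hm1 _ ?_)
    have hk1 := ((mem_KH _ _ _).1 hk).1.1
    have : 1 * p ≤ 2 * k * p := Nat.mul_le_mul_right _ (by omega)
    omega
  rw [e2] at g4
  exact g4

end

/-- the expected number is large -/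
theorem E_low (C₀ : ℕ) (z : ℕ → ℕ) (hz : ∀ᶠ m : ℕ in atTop, (z m : ℝ) ≤ C₀ * Real.log (Real.log m)) :
    ∀ᶠ p : ℕ in atTop, ∀ H : ℕ, Real.log p ^ (2 * C₀ + 5) ≤ H → H ≤ 2 * p + 1 →
      (H : ℝ) / Real.log p ^ (2 * C₀ + 2) ≤ ∑ k ∈ KH p H, Pool.Agent.N233.GM.rho z (2 * k * p + 1) := by
  classical
  obtain ⟨m1, hm1⟩ := eventually_atTop.1 hz
  have hll : Tendsto (fun n : ℕ => Real.log (Real.log (n : ℝ))) atTop atTop := Real.tendsto_log_atTop.comp logt'
  filter_upwards [eventually_ge_atTop (max m1 8), logt'.eventually_ge_atTop 24, hll.eventually_ge_atTop (10 * Real.log 3)]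
    with p h1 h2 h3 H hH1 hH2
  have hp8 : 8 ≤ p := le_trans (le_max_right _ _) h1
  have hpr : (8 : ℝ) ≤ p := by exact_mod_cast hp8
  obtain ⟨l, hl⟩ : ∃ l, l = Real.log p := ⟨_, rfl⟩
  rw [← hl] at h2 h3 hH1 ⊢
  have hC : (0 : ℝ) ≤ C₀ := Nat.cast_nonneg C₀
  have hlog3 : 0 < Real.log 3 := Real.log_pos (by norm_num)
  have hll0 : 0 < Real.log l := by linarith
  obtain ⟨B, hB⟩ : ∃ B, B = ⌊(11 / 10 : ℝ) * C₀ * Real.log l⌋₊ := ⟨_, rfl⟩
  have hBle : (B : ℝ) ≤ (11 / 10 : ℝ) * C₀ * Real.log l := by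
    rw [hB]
    exact Nat.floor_le (by positivity)
  obtain ⟨w, hw⟩ : ∃ w, w = primorial B := ⟨_, rfl⟩
  have hw1 : 1 ≤ w := by rw [hw]; exact primorial_pos B
  have hwr : (0 : ℝ) < w := by exact_mod_cast hw1
  have hwl : (w : ℝ) ≤ l ^ (2 * C₀) := by
    have e1 : (w : ℝ) ≤ (4 : ℝ) ^ B := by
      rw [hw]
      exact_mod_cast primorial_le_four_pow B
    refine e1.trans ?_
    rw [← Real.exp_log (show (0 : ℝ) < (4 : ℝ) ^ B by positivity), ← Real.exp_log (show (0 : ℝ) < l ^ (2 * C₀) by positivity)]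
    apply Real.exp_le_exp.2
    rw [Real.log_pow, Real.log_pow]
    have e2 : Real.log 4 ≤ 1.39 := by
      have : (4 : ℝ) = 2 ^ 2 := by norm_num
      rw [this, Real.log_pow]
      have := Real.log_two_lt_d9
      push_cast
      linarith
    have e3 : 0 < Real.log 4 := Real.log_pos (by norm_num)
    push_cast
    calc (B : ℝ) * Real.log 4 ≤ ((11 / 10 : ℝ) * C₀ * Real.log l) * 1.39 :=
          mul_le_mul hBle e2 e3.le (by positivity)
      _ ≤ 2 * C₀ * Real.log l := by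
          have : 0 ≤ (C₀ : ℝ) * Real.log l := by positivity
          nlinarith
  have hml : ∀ k, 1 ≤ k → k ≤ 2 * p + 1 → p ≤ 2 * k * p + 1 ∧ Real.log ((2 * k * p + 1 : ℕ) : ℝ) ≤ 3 * l ∧
      0 < Real.log ((2 * k * p + 1 : ℕ) : ℝ) := by
    intro k hk1 hk2
    have e0 : 1 * p ≤ 2 * k * p := Nat.mul_le_mul_right _ (by omega)
    have e1 : 2 * k * p + 1 ≤ p ^ 3 := by
      have : 2 * k * p ≤ 2 * (2 * p + 1) * p := Nat.mul_le_mul_right _ (by omega)
      nlinarith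
    have e2 : ((2 * k * p + 1 : ℕ) : ℝ) ≤ (p : ℝ) ^ 3 := by exact_mod_cast e1
    have e3 : (8 : ℝ) ≤ ((2 * k * p + 1 : ℕ) : ℝ) := by exact_mod_cast (by omega : 8 ≤ 2 * k * p + 1)
    refine ⟨by omega, ?_, Real.log_pos (by linarith)⟩
    have := Real.log_le_log (by linarith) e2
    rw [Real.log_pow] at this
    rw [hl]
    exact_mod_cast this
  have hzB : ∀ k, 1 ≤ k → k ≤ 2 * p + 1 → z (2 * k * p + 1) ≤ B := by
    intro k hk1 hk2
    obtain ⟨e1, e2, e3⟩ := hml k hk1 hk2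
    rw [hB]
    apply Nat.le_floor
    have e4 := hm1 (2 * k * p + 1) (((le_max_left _ _).trans h1).trans e1)
    have e5 : Real.log (Real.log ((2 * k * p + 1 : ℕ) : ℝ)) ≤ Real.log 3 + Real.log l := by
      rw [← Real.log_mul (by norm_num) (by linarith)]
      exact Real.log_le_log e3 e2
    calc (z (2 * k * p + 1) : ℝ) ≤ C₀ * Real.log (Real.log ((2 * k * p + 1 : ℕ) : ℝ)) := e4
      _ ≤ C₀ * (11 / 10 * Real.log l) := mul_le_mul_of_nonneg_left (by linarith) hC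
      _ = _ := by ring
  obtain ⟨T, hT⟩ : ∃ T, T = (min H (p - 1)) / w := ⟨_, rfl⟩
  have hTK : ∀ t ∈ Icc 1 T, w * t ∈ KH p H ∧ w * t ≤ 2 * p + 1 := by
    intro t ht
    rw [mem_Icc] at ht
    have e1 : w * t ≤ min H (p - 1) := by
      calc w * t ≤ w * T := Nat.mul_le_mul_left _ ht.2
        _ ≤ _ := by rw [hT]; exact Nat.mul_div_le _ _
    have e2 : w * t ≤ H := e1.trans (min_le_left _ _)
    have e3 : w * t ≤ p - 1 := e1.trans (min_le_right _ _)
    have e4 : 1 ≤ w * t := Nat.mul_pos hw1 ht.1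
    refine ⟨?_, by omega⟩
    rw [mem_KH]
    refine ⟨⟨e4, e2⟩, fun hd => ?_⟩
    have := Nat.le_of_dvd e4 hd
    omega
  have hrt : ∀ t ∈ Icc 1 T, 1 / (3 * l) ≤ Pool.Agent.N233.GM.rho z (2 * (w * t) * p + 1) := by
    intro t ht
    obtain ⟨e1, e2⟩ := hTK t ht
    have e3 := ((mem_KH _ _ _).1 e1).1.1
    obtain ⟨e4, e5, e6⟩ := hml (w * t) e3 e2
    have e7 := hzB (w * t) e3 e2
    have hr : Pool.Agent.N233.GM.Rough z (2 * (w * t) * p + 1) := by
      intro q hq hqz hqd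
      have f1 : q ∣ w := by
        rw [hw]
        exact hq.dvd_primorial_iff.2 (hqz.trans e7)
      have f2 : q ∣ 2 * (w * t) * p := by
        have : 2 * (w * t) * p = w * (2 * t * p) := by ring
        rw [this]
        exact f1.mul_right _
      have f3 : q ∣ 1 := (Nat.dvd_add_right f2).1 hqd
      exact hq.one_lt.ne' (Nat.dvd_one.1 f3)
    unfold Pool.Agent.N233.GM.rho
    rw [if_pos hr]
    have hW := Pool.Agent.N233.GM.W_ge (z (2 * (w * t) * p + 1))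
    rw [div_le_div_iff₀ (by positivity) e6]
    nlinarith
  have hnn : ∀ m, 0 ≤ Pool.Agent.N233.GM.rho z m := by
    intro m
    unfold Pool.Agent.N233.GM.rho
    split_ifs
    · exact div_nonneg (zero_le_one.trans (Pool.Agent.N233.GM.W_ge _)) (Real.log_natCast_nonneg m)
    · exact le_rfl
  have hsum : (T : ℝ) * (1 / (3 * l)) ≤ ∑ k ∈ KH p H, Pool.Agent.N233.GM.rho z (2 * k * p + 1) := by
    have hinj : Set.InjOn (fun t => w * t) (Icc 1 T : Finset ℕ) := by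
      intro t _ t' _ h
      exact Nat.eq_of_mul_eq_mul_left hw1 h
    calc (T : ℝ) * (1 / (3 * l)) = ∑ t ∈ Icc 1 T, 1 / (3 * l) := by
          rw [sum_const, Nat.card_Icc, Nat.add_sub_cancel, nsmul_eq_mul]
      _ ≤ ∑ t ∈ Icc 1 T, Pool.Agent.N233.GM.rho z (2 * (w * t) * p + 1) := sum_le_sum hrt
      _ = ∑ k ∈ (Icc 1 T).image (fun t => w * t), Pool.Agent.N233.GM.rho z (2 * k * p + 1) := by
          rw [sum_image hinj]
      _ ≤ _ := by
          refine sum_le_sum_of_subset_of_nonneg ?_ fun m _ _ => hnn _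
          intro k hk
          obtain ⟨t, ht, rfl⟩ := mem_image.1 hk
          exact (hTK t ht).1
  refine le_trans ?_ hsum
  -- the size of `T`
  have hl1 : (1 : ℝ) ≤ l := by linarith
  have hHw : 24 * (w : ℝ) ≤ H := by
    refine le_trans ?_ hH1
    calc 24 * (w : ℝ) ≤ l * l ^ (2 * C₀) := mul_le_mul h2 hwl hwr.le (by linarith)
      _ = l ^ (2 * C₀ + 1) := by ring
      _ ≤ l ^ (2 * C₀ + 5) := pow_le_pow_right₀ hl1 (by omega)
  have hTlow : (H : ℝ) / (4 * w) ≤ T := by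
    have e1 : (min H (p - 1) : ℕ) < w * T + w := by
      rw [hT]
      exact Nat.lt_mul_div_succ _ hw1
    have e2 : ((min H (p - 1) : ℕ) : ℝ) < w * T + w := by exact_mod_cast e1
    have e3 : H ≤ 3 * min H (p - 1) := by
      rcases le_total H (p - 1) with h | h
      · rw [min_eq_left h]
        omega
      · rw [min_eq_right h]
        omega
    have e4 : (H : ℝ) ≤ 3 * ((min H (p - 1) : ℕ) : ℝ) := by exact_mod_cast e3
    rw [div_le_iff₀ (by positivity)]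
    nlinarith
  calc (H : ℝ) / l ^ (2 * C₀ + 2) ≤ (H : ℝ) / (4 * w) * (1 / (3 * l)) := by
        rw [div_mul_div_comm, mul_one]
        apply div_le_div_of_nonneg_left (Nat.cast_nonneg _) (by positivity)
        calc 4 * (w : ℝ) * (3 * l) = 12 * l * w := by ring
          _ ≤ (l * l) * l ^ (2 * C₀) := by
              apply mul_le_mul _ hwl hwr.le (by positivity)
              nlinarith
          _ = l ^ (2 * C₀ + 2) := by ring
    _ ≤ T * (1 / (3 * l)) := mul_le_mul_of_nonneg_right hTlow (by positivity)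

/-- from the law with an error to the asymptotic formula -/
theorem final (C₀ : ℕ) (R E : ℕ → ℕ → ℝ)
    (hE : ∀ᶠ p : ℕ in atTop, ∀ H : ℕ, Real.log p ^ (2 * C₀ + 5) ≤ H → H ≤ 2 * p + 1 →
      (H : ℝ) / Real.log p ^ (2 * C₀ + 2) ≤ E p H)
    (h : ∀ η : ℝ, 0 < η → ∃ K : ℝ, 0 ≤ K ∧ ∀ᶠ p : ℕ in atTop, ∀ H : ℕ, H ≤ 2 * p + 1 →
      |R p H - E p H| ≤ η * E p H + K * Real.log p) :
    ∀ η : ℝ, 0 < η → ∀ᶠ p : ℕ in atTop, ∀ H : ℕ, Real.log p ^ (2 * C₀ + 5) ≤ H → H ≤ 2 * p + 1 →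
      |R p H - E p H| ≤ η * E p H := by
  intro η hη
  obtain ⟨K, hK0, hK⟩ := h (η / 2) (by positivity)
  filter_upwards [hK, hE, logt'.eventually_ge_atTop (2 * K / η), logt'.eventually_ge_atTop 1] with p h1 h2 h3 h4 H hH1 hH2
  have g1 := h1 H hH2
  have g2 := h2 H hH1 hH2
  obtain ⟨l, hl⟩ : ∃ l, l = Real.log p := ⟨_, rfl⟩
  rw [← hl] at h3 h4 hH1 g1 g2
  have e1 : l ^ 3 ≤ E p H := by
    refine le_trans ?_ g2
    rw [le_div_iff₀ (by positivity), ← pow_add]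
    refine le_trans (le_of_eq ?_) hH1
    congr 1
    omega
  have e2 : l ^ 2 ≤ l ^ 3 := pow_le_pow_right₀ h4 (by norm_num)
  have e3 : K * l ≤ η / 2 * E p H := by
    rw [div_le_iff₀ hη] at h3
    have e4 : K ≤ η / 2 * l := by linarith
    calc K * l ≤ η / 2 * l * l := mul_le_mul_of_nonneg_right e4 (by linarith)
      _ = η / 2 * l ^ 2 := by ring
      _ ≤ η / 2 * E p H := mul_le_mul_of_nonneg_left (e2.trans e1) (by positivity)
  linarith

end Pool.Agent.Run7.h414.PM.Lk
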