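import Pool.Agent.R528.RM.Gold
import Pool.Agent.Run7.h414.PM.Bal4

set_option autoImplicit false

/-! Patterns of residues modulo 4 of consecutive pairs in random sets: the probabilistic part. -/

namespace Pool.Agent.Run7.h414.PM
open Finset Filter MeasureTheory
open scoped Topology
open Pool.Agent.R528.RM (dens dens_meas dens01 Sw Sw_tail bc_real In In_nonneg In_le In_meas)

variable {Ω : Type} {m0 : MeasurableSpace Ω} {μ : Measure Ω} [IsProbabilityMeasure μ] {ℱ : Filtration ℕ m0} {A : ℕ → Set Ω}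

/-- the first members of the pairs -/
def TT (A : ℕ → Set Ω) (ω : Ω) : Set ℕ := {n | ω ∈ A n ∧ ω ∈ A (n + 2)}

lemma TT_meas (hA : ∀ n, MeasurableSet[ℱ n] (A n)) (m : ℕ) : MeasurableSet[ℱ (m + 2)] {ω | m ∈ TT A ω} :=
  (ℱ.mono (by omega) _ (hA m)).inter (hA (m + 2))

lemma St_meas (hA : ∀ n, MeasurableSet[ℱ n] (A n)) (m : ℕ) (β : List ℕ) : MeasurableSet[ℱ (m + 1)] {ω | St (TT A ω) m β} := by
  induction m generalizing β with
  | zero =>
    cases β with
    | nil =>
      have : {ω | St (TT A ω) 0 []} = Set.univ := by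
        ext ω; simp [St]
      rw [this]
      exact @MeasurableSet.univ _ (ℱ _)
    | cons a β =>
      have : {ω | St (TT A ω) 0 (a :: β)} = ∅ := by
        ext ω; simp [St]
      rw [this]
      exact @MeasurableSet.empty _ (ℱ _)
  | succ m ih =>
    cases β with
    | nil =>
      have : {ω | St (TT A ω) (m + 1) []} = Set.univ := by
        ext ω; simp [St]
      rw [this]
      exact @MeasurableSet.univ _ (ℱ _)
    | cons a β =>
      have h1 := TT_meas hA m
      have h2 := ℱ.mono (show m + 1 ≤ m + 2 by omega) _ (ih β)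
      have h3 := ℱ.mono (show m + 1 ≤ m + 2 by omega) _ (ih (a :: β))
      have e : {ω | St (TT A ω) (m + 1) (a :: β)} =
          ({ω | m ∈ TT A ω} ∩ ({_ω | m % 4 = a} ∩ {ω | St (TT A ω) m β})) ∪ ({ω | m ∈ TT A ω}ᶜ ∩ {ω | St (TT A ω) m (a :: β)}) := by
        ext ω; simp [St]
      rw [e]
      exact (h1.inter ((MeasurableSet.const _).inter h2)).union (h1.compl.inter h3)

open Classical in
/-- the weight of `m`: the last pairs have the pattern `β` and `m + 5` is in the class `b` -/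
noncomputable def qq (A : ℕ → Set Ω) (β : List ℕ) (b m : ℕ) (ω : Ω) : ℝ :=
  ({ω | St (TT A ω) m β ∧ (m + 5) % 4 = b} : Set Ω).indicator (fun _ => (1 : ℝ)) ω

lemma qq_nonneg (β : List ℕ) (b m : ℕ) (ω : Ω) : 0 ≤ qq A β b m ω := Set.indicator_nonneg (fun _ _ => zero_le_one) _

lemma qq_le (β : List ℕ) (b m : ℕ) (ω : Ω) : qq A β b m ω ≤ 1 := Set.indicator_le_self' (fun _ _ => zero_le_one) ω

lemma qq_meas (hA : ∀ n, MeasurableSet[ℱ n] (A n)) (β : List ℕ) (b m k : ℕ) (h : m + 1 ≤ k) :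
    StronglyMeasurable[ℱ k] (qq A β b m) :=
  (@stronglyMeasurable_const _ _ (ℱ k) _ _).indicator (ℱ.mono h _ ((St_meas hA m β).inter (MeasurableSet.const _)))

/-- weighted sums of the innovations are small almost surely -/
lemma as_small (hA : ∀ n, MeasurableSet[ℱ n] (A n)) (a : ℕ) (w : ℕ → Ω → ℝ) (hw : ∀ k, StronglyMeasurable[ℱ (a + k)] (w k))
    (hw1 : ∀ k ω, |w k ω| ≤ 1) : ∀ᵐ ω ∂μ, ∀ᶠ x : ℕ in atTop, |Sw μ ℱ A a w x ω| ≤ 2 * √(x * Real.log x) := by
  have hsum : Summable (fun n : ℕ => 2 * ((n : ℝ) ^ 2)⁻¹) := (Real.summable_nat_pow_inv.2 (by norm_num)).mul_left 2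
  have h1 := bc_real (μ := μ) hsum (s := fun n => {ω | 2 * √(n * Real.log n) ≤ |Sw μ ℱ A a w n ω|}) (by
    filter_upwards [eventually_ge_atTop 1] with n hn
    have hn' : (1 : ℝ) ≤ n := by exact_mod_cast hn
    have hlog : 0 ≤ Real.log (n : ℝ) := Real.log_natCast_nonneg n
    have h1 := Sw_tail (μ := μ) hA a w hw hw1 n hn (lam := 2 * √(n * Real.log n)) (by positivity)
    refine h1.trans (mul_le_mul_of_nonneg_left (le_of_eq ?_) (by norm_num))
    have e1 : ((n : ℝ) ^ 2)⁻¹ = Real.exp (-(2 * Real.log n)) := by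
      rw [Real.exp_neg, mul_comm, Real.exp_mul, Real.exp_log (by linarith)]
      norm_num
    rw [e1]
    congr 2
    rw [mul_pow, Real.sq_sqrt (by positivity)]
    field_simp)
  filter_upwards [h1] with ω hω
  filter_upwards [hω] with n hn
  exact (not_le.1 hn).le

/-- the error term is small compared with the sum of the weights -/
lemma err_small (z : ℕ → ℕ) (hmono : Monotone z) (h3 : ∀ n, 3 ≤ z n)
    (hz : ∀ᶠ n : ℕ in atTop, (z n : ℝ) ≤ Real.log (Real.log n)) (C ε : ℝ) (hε : 0 < ε) :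
    ∀ᶠ x : ℕ in atTop, C * (2 * √(x * Real.log x)) + C ≤ ε * HH z x := by
  have h1 : ∀ᶠ x : ℕ in atTop, (|C| * 3) / ε ≤ (x : ℝ) ^ (1 / 4 : ℝ) :=
    ((tendsto_rpow_atTop (show (0 : ℝ) < 1 / 4 by norm_num)).comp tendsto_natCast_atTop_atTop).eventually_ge_atTop _
  filter_upwards [sizes z hz 1 one_pos, h1] with x hs h2
  have hlow := HH_low z hmono h3 1 x hs
  obtain ⟨hx16, -, -, -, -, hlog⟩ := size_facts z 1 x hs
  have hx0 : (0 : ℝ) < x := by linarith
  obtain ⟨w, hw⟩ : ∃ w, w = (x : ℝ) ^ (1 / 16 : ℝ) := ⟨_, rfl⟩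
  have e14 : (x : ℝ) ^ (7 / 8 : ℝ) = w ^ 14 := by
    rw [hw, ← Real.rpow_natCast, ← Real.rpow_mul hx0.le]; norm_num
  have e4 : (x : ℝ) ^ (1 / 4 : ℝ) = w ^ 4 := by
    rw [hw, ← Real.rpow_natCast, ← Real.rpow_mul hx0.le]; norm_num
  have e16 : (x : ℝ) = w ^ 16 := by
    rw [hw, ← Real.rpow_natCast, ← Real.rpow_mul hx0.le]; norm_num
  have hw16 : 16 ≤ w := by rw [hw]; exact hs.big2
  rw [e14] at hlow
  rw [e4, div_le_iff₀ hε] at h2
  have hsq : √(x * Real.log x) ≤ w ^ 9 := by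
    apply Real.sqrt_le_iff.2
    refine ⟨by positivity, ?_⟩
    rw [← hw] at hlog
    calc (x : ℝ) * Real.log x ≤ w ^ 16 * w := by
          rw [e16] at hlog ⊢
          exact mul_le_mul_of_nonneg_left hlog (by positivity)
      _ ≤ w ^ 16 * (w * w) := by
          apply mul_le_mul_of_nonneg_left _ (by positivity)
          nlinarith
      _ = (w ^ 9) ^ 2 := by ring
  have h5 : C * (2 * √(x * Real.log x)) + C ≤ |C| * 3 * w ^ 9 := by
    have h6 : C ≤ |C| := le_abs_self C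
    have h7 : 1 ≤ w ^ 9 := one_le_pow₀ (by linarith)
    have h8 : 0 ≤ √(x * Real.log x) := Real.sqrt_nonneg _
    have h9 : 0 ≤ |C| := abs_nonneg C
    calc C * (2 * √(x * Real.log x)) + C ≤ |C| * (2 * √(x * Real.log x)) + |C| := by
          have := mul_le_mul_of_nonneg_right h6 (show 0 ≤ 2 * √(x * Real.log x) by positivity)
          linarith
      _ ≤ |C| * (2 * w ^ 9) + |C| * w ^ 9 := by
          have g1 : |C| * (2 * √(x * Real.log x)) ≤ |C| * (2 * w ^ 9) := mul_le_mul_of_nonneg_left (by linarith) h9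
          have g2 : |C| * 1 ≤ |C| * w ^ 9 := mul_le_mul_of_nonneg_left h7 h9
          linarith
      _ = _ := by ring
  refine h5.trans ?_
  calc |C| * 3 * w ^ 9 ≤ w ^ 4 * ε * w ^ 9 := mul_le_mul_of_nonneg_right h2 (by positivity)
    _ = ε * w ^ 13 := by ring
    _ ≤ ε * w ^ 14 := mul_le_mul_of_nonneg_left (pow_le_pow_right₀ (by linarith) (by norm_num)) hε.le
    _ ≤ _ := mul_le_mul_of_nonneg_left hlow hε.le

/-- the count of the pairs after a pattern, from the innovations -/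
theorem count_law (z : ℕ → ℕ) (hmono : Monotone z) (h3 : ∀ n, 3 ≤ z n)
    (hz : ∀ᶠ n : ℕ in atTop, (z n : ℝ) ≤ Real.log (Real.log n)) (hA : ∀ n, MeasurableSet[ℱ n] (A n))
    (hprof : ∀ᵐ ω ∂μ, ∀ ε : ℝ, 0 < ε → ∀ᶠ n : ℕ in atTop, |dens μ ℱ A n ω - rho1 z (n + 1)| ≤ ε * rho1 z (n + 1))
    (β : List ℕ) (b : ℕ) :
    ∀ᵐ ω ∂μ, ∀ ε : ℝ, 0 < ε → ∀ᶠ x : ℕ in atTop,
      |∑ k ∈ range x, qq A β b k ω * (In A (k + 5) ω * In A (k + 7) ω) - ∑ k ∈ range x, qq A β b k ω * hh z k| ≤ ε * HH z x := by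
  have h1 := as_small (μ := μ) (ℱ := ℱ) hA 6 (fun k ω => qq A β b k ω * In A (k + 5) ω)
    (fun k => (qq_meas hA β b k (6 + k) (by omega)).mul (In_meas hA (by omega))) (fun k ω => by
      rw [abs_of_nonneg (mul_nonneg (qq_nonneg _ _ _ _) (In_nonneg _ _))]
      exact mul_le_one₀ (qq_le _ _ _ _) (In_nonneg _ _) (In_le _ _))
  have h2 := as_small (μ := μ) (ℱ := ℱ) hA 4 (fun k ω => qq A β b k ω * rho1 z (k + 7))
    (fun k => (qq_meas hA β b k (4 + k) (by omega)).mul stronglyMeasurable_const) (fun k ω => by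
      rw [abs_of_nonneg (mul_nonneg (qq_nonneg _ _ _ _) (rho1_bounds z _).1)]
      exact mul_le_one₀ (qq_le _ _ _ _) (rho1_bounds z _).1 (rho1_bounds z _).2)
  have h4 := as_small (μ := μ) (ℱ := ℱ) hA 4 (fun k _ => rho1 z (k + 7))
    (fun k => stronglyMeasurable_const) (fun k ω => by
      rw [abs_of_nonneg (rho1_bounds z _).1]
      exact (rho1_bounds z _).2)
  have h01 : ∀ᵐ ω ∂μ, ∀ n, 0 ≤ dens μ ℱ A n ω ∧ dens μ ℱ A n ω ≤ 1 := ae_all_iff.2 fun n => dens01 hA n
  filter_upwards [h1, h2, h4, h01, hprof] with ω g1 g2 g4 g01 gp ε₀ hε₀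
  obtain ⟨ε, hε, hε1, hεε⟩ : ∃ ε : ℝ, 0 < ε ∧ ε ≤ 1 ∧ 5 * ε ≤ ε₀ :=
    ⟨min 1 (ε₀ / 5), lt_min one_pos (by positivity), min_le_left _ _, by
      have := min_le_right 1 (ε₀ / 5)
      linarith⟩
  obtain ⟨N, hN⟩ := eventually_atTop.1 (gp ε hε)
  filter_upwards [g1, g2, g4, err_small z hmono h3 hz (3 + 3 * N) ε hε] with x f1 f2 f4 f5
  obtain ⟨E, hE⟩ : ∃ E, E = 2 * √((x : ℝ) * Real.log x) := ⟨_, rfl⟩
  rw [← hE] at f1 f2 f4 f5
  have hE0 : 0 ≤ E := by rw [hE]; positivity
  have hN0 : (0 : ℝ) ≤ N := Nat.cast_nonneg N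
  -- abbreviations
  have d1 : Sw μ ℱ A 6 (fun k ω => qq A β b k ω * In A (k + 5) ω) x ω =
      ∑ k ∈ range x, qq A β b k ω * In A (k + 5) ω * (In A (k + 7) ω - dens μ ℱ A (6 + k) ω) := by
    unfold Sw In
    refine sum_congr rfl fun k _ => ?_
    rw [show 6 + k + 1 = k + 7 by ring]
  have d2 : Sw μ ℱ A 4 (fun k ω => qq A β b k ω * rho1 z (k + 7)) x ω =
      ∑ k ∈ range x, qq A β b k ω * rho1 z (k + 7) * (In A (k + 5) ω - dens μ ℱ A (4 + k) ω) := by
    unfold Sw In
    refine sum_congr rfl fun k _ => ?_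
    rw [show 4 + k + 1 = k + 5 by ring]
  have d4 : Sw μ ℱ A 4 (fun k _ => rho1 z (k + 7)) x ω =
      ∑ k ∈ range x, rho1 z (k + 7) * (In A (k + 5) ω - dens μ ℱ A (4 + k) ω) := by
    unfold Sw In
    refine sum_congr rfl fun k _ => ?_
    rw [show 4 + k + 1 = k + 5 by ring]
  rw [d1] at f1
  rw [d2] at f2
  rw [d4] at f4
  -- the deviations of the densities
  have dev : ∀ n, |dens μ ℱ A n ω - rho1 z (n + 1)| ≤ ε * rho1 z (n + 1) + (if n < N then 1 else 0) := by
    intro n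
    by_cases hn : n < N
    · rw [if_pos hn]
      have r1 := rho1_bounds z (n + 1)
      have r2 := g01 n
      have : 0 ≤ ε * rho1 z (n + 1) := mul_nonneg hε.le r1.1
      rw [abs_le]
      constructor <;> linarith
    · rw [if_neg hn, add_zero]
      exact hN n (not_lt.1 hn)
  have cntN : ∀ a : ℕ, ∑ k ∈ range x, (if a + k < N then (1 : ℝ) else 0) ≤ N := by
    intro a
    rw [sum_ite, sum_const_zero, add_zero, sum_const, nsmul_eq_mul, mul_one]
    have : (range x).filter (fun k => a + k < N) ⊆ range N := by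
      intro k hk
      have := (mem_filter.1 hk).2
      rw [mem_range]; omega
    have h := card_le_card this
    rw [card_range] at h
    exact_mod_cast h
  have hHs : HH z x = ∑ k ∈ range x, rho1 z (k + 5) * rho1 z (k + 7) := rfl
  -- first deviation
  have e3 : |∑ k ∈ range x, qq A β b k ω * rho1 z (k + 7) * (dens μ ℱ A (4 + k) ω - rho1 z (k + 5))| ≤ ε * HH z x + N := by
    refine (abs_sum_le_sum_abs _ _).trans ?_
    calc ∑ k ∈ range x, |qq A β b k ω * rho1 z (k + 7) * (dens μ ℱ A (4 + k) ω - rho1 z (k + 5))|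
        ≤ ∑ k ∈ range x, (ε * (rho1 z (k + 5) * rho1 z (k + 7)) + (if 4 + k < N then 1 else 0)) := by
          refine sum_le_sum fun k _ => ?_
          have r1 := rho1_bounds z (k + 7)
          have hd := dev (4 + k)
          rw [show 4 + k + 1 = k + 5 by ring] at hd
          rw [abs_mul, abs_of_nonneg (mul_nonneg (qq_nonneg β b k ω) r1.1)]
          have q1 : qq A β b k ω * rho1 z (k + 7) ≤ rho1 z (k + 7) := mul_le_of_le_one_left r1.1 (qq_le β b k ω)
          have q2 : qq A β b k ω * rho1 z (k + 7) * |dens μ ℱ A (4 + k) ω - rho1 z (k + 5)| ≤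
              rho1 z (k + 7) * (ε * rho1 z (k + 5) + (if 4 + k < N then 1 else 0)) :=
            mul_le_mul q1 hd (abs_nonneg _) r1.1
          refine q2.trans ?_
          have q3 : rho1 z (k + 7) * (if 4 + k < N then (1 : ℝ) else 0) ≤ (if 4 + k < N then 1 else 0) :=
            mul_le_of_le_one_left (by split_ifs <;> norm_num) r1.2
          rw [mul_add]
          linarith [mul_comm (rho1 z (k + 7)) (ε * rho1 z (k + 5)), mul_assoc ε (rho1 z (k + 5)) (rho1 z (k + 7))]
      _ ≤ _ := by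
          rw [sum_add_distrib, ← mul_sum, ← hHs]
          linarith [cntN 4]
  -- the sum of `In * rho`
  have e4 : ∑ k ∈ range x, In A (k + 5) ω * rho1 z (k + 7) ≤ E + 2 * HH z x + N := by
    have g : ∑ k ∈ range x, In A (k + 5) ω * rho1 z (k + 7) =
        ∑ k ∈ range x, rho1 z (k + 7) * (In A (k + 5) ω - dens μ ℱ A (4 + k) ω) +
        ∑ k ∈ range x, rho1 z (k + 7) * dens μ ℱ A (4 + k) ω := by
      rw [← sum_add_distrib]
      refine sum_congr rfl fun k _ => ?_
      ring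
    have g' : ∑ k ∈ range x, rho1 z (k + 7) * dens μ ℱ A (4 + k) ω ≤ 2 * HH z x + N := by
      calc ∑ k ∈ range x, rho1 z (k + 7) * dens μ ℱ A (4 + k) ω
          ≤ ∑ k ∈ range x, (2 * (rho1 z (k + 5) * rho1 z (k + 7)) + (if 4 + k < N then 1 else 0)) := by
            refine sum_le_sum fun k _ => ?_
            have r1 := rho1_bounds z (k + 7)
            have r2 := rho1_bounds z (k + 5)
            have hd := (abs_le.1 (dev (4 + k))).2
            rw [show 4 + k + 1 = k + 5 by ring] at hd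
            have q1 : dens μ ℱ A (4 + k) ω ≤ 2 * rho1 z (k + 5) + (if 4 + k < N then 1 else 0) := by
              have : ε * rho1 z (k + 5) ≤ rho1 z (k + 5) := mul_le_of_le_one_left r2.1 hε1
              linarith
            refine (mul_le_mul_of_nonneg_left q1 r1.1).trans ?_
            have q3 : rho1 z (k + 7) * (if 4 + k < N then (1 : ℝ) else 0) ≤ (if 4 + k < N then 1 else 0) :=
              mul_le_of_le_one_left (by split_ifs <;> norm_num) r1.2
            rw [mul_add]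
            linarith [mul_comm (rho1 z (k + 7)) (rho1 z (k + 5)), mul_left_comm (rho1 z (k + 7)) 2 (rho1 z (k + 5))]
        _ ≤ _ := by
            rw [sum_add_distrib, ← mul_sum, ← hHs]
            linarith [cntN 4]
    have := (abs_le.1 f4).2
    rw [g]
    linarith
  -- second deviation
  have e5 : |∑ k ∈ range x, qq A β b k ω * In A (k + 5) ω * (dens μ ℱ A (6 + k) ω - rho1 z (k + 7))| ≤
      ε * (E + 2 * HH z x + N) + N := by
    refine (abs_sum_le_sum_abs _ _).trans ?_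
    calc ∑ k ∈ range x, |qq A β b k ω * In A (k + 5) ω * (dens μ ℱ A (6 + k) ω - rho1 z (k + 7))|
        ≤ ∑ k ∈ range x, (ε * (In A (k + 5) ω * rho1 z (k + 7)) + (if 6 + k < N then 1 else 0)) := by
          refine sum_le_sum fun k _ => ?_
          have i0 := In_nonneg (A := A) (k + 5) ω
          have i1 := In_le (A := A) (k + 5) ω
          have hd := dev (6 + k)
          rw [show 6 + k + 1 = k + 7 by ring] at hd
          rw [abs_mul, abs_of_nonneg (mul_nonneg (qq_nonneg β b k ω) i0)]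
          have q1 : qq A β b k ω * In A (k + 5) ω ≤ In A (k + 5) ω := mul_le_of_le_one_left i0 (qq_le β b k ω)
          refine (mul_le_mul q1 hd (abs_nonneg _) i0).trans ?_
          have q3 : In A (k + 5) ω * (if 6 + k < N then (1 : ℝ) else 0) ≤ (if 6 + k < N then 1 else 0) :=
            mul_le_of_le_one_left (by split_ifs <;> norm_num) i1
          rw [mul_add]
          linarith [mul_left_comm (In A (k + 5) ω) ε (rho1 z (k + 7))]
      _ ≤ _ := by
          rw [sum_add_distrib, ← mul_sum]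
          have := mul_le_mul_of_nonneg_left e4 hε.le
          linarith [cntN 6]
  have hsplit : ∑ k ∈ range x, qq A β b k ω * (In A (k + 5) ω * In A (k + 7) ω) - ∑ k ∈ range x, qq A β b k ω * hh z k =
      ∑ k ∈ range x, qq A β b k ω * In A (k + 5) ω * (In A (k + 7) ω - dens μ ℱ A (6 + k) ω) +
      ∑ k ∈ range x, qq A β b k ω * In A (k + 5) ω * (dens μ ℱ A (6 + k) ω - rho1 z (k + 7)) +
      ∑ k ∈ range x, qq A β b k ω * rho1 z (k + 7) * (In A (k + 5) ω - dens μ ℱ A (4 + k) ω) +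
      ∑ k ∈ range x, qq A β b k ω * rho1 z (k + 7) * (dens μ ℱ A (4 + k) ω - rho1 z (k + 5)) := by
    rw [← sum_sub_distrib, ← sum_add_distrib, ← sum_add_distrib, ← sum_add_distrib]
    refine sum_congr rfl fun k _ => ?_
    unfold hh
    ring
  rw [hsplit]
  have t1 := abs_add_le (∑ k ∈ range x, qq A β b k ω * In A (k + 5) ω * (In A (k + 7) ω - dens μ ℱ A (6 + k) ω) +
      ∑ k ∈ range x, qq A β b k ω * In A (k + 5) ω * (dens μ ℱ A (6 + k) ω - rho1 z (k + 7)) +
      ∑ k ∈ range x, qq A β b k ω * rho1 z (k + 7) * (In A (k + 5) ω - dens μ ℱ A (4 + k) ω))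
      (∑ k ∈ range x, qq A β b k ω * rho1 z (k + 7) * (dens μ ℱ A (4 + k) ω - rho1 z (k + 5)))
  have t2 := abs_add_le (∑ k ∈ range x, qq A β b k ω * In A (k + 5) ω * (In A (k + 7) ω - dens μ ℱ A (6 + k) ω) +
      ∑ k ∈ range x, qq A β b k ω * In A (k + 5) ω * (dens μ ℱ A (6 + k) ω - rho1 z (k + 7)))
      (∑ k ∈ range x, qq A β b k ω * rho1 z (k + 7) * (In A (k + 5) ω - dens μ ℱ A (4 + k) ω))
  have t3 := abs_add_le (∑ k ∈ range x, qq A β b k ω * In A (k + 5) ω * (In A (k + 7) ω - dens μ ℱ A (6 + k) ω))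
      (∑ k ∈ range x, qq A β b k ω * In A (k + 5) ω * (dens μ ℱ A (6 + k) ω - rho1 z (k + 7)))
  have hH0 : 0 ≤ HH z x := sum_nonneg fun k _ => (hh_bounds z k).1
  have u1 : ε * (E + 2 * HH z x + N) ≤ E + 2 * (ε * HH z x) + N := by
    have a1 : ε * E ≤ E := mul_le_of_le_one_left hE0 hε1
    have a2 : ε * N ≤ N := mul_le_of_le_one_left hN0 hε1
    linarith [mul_add ε (E + 2 * HH z x) (N : ℝ), mul_add ε E (2 * HH z x), mul_left_comm ε 2 (HH z x)]
  have u2 : (3 + 3 * (N : ℝ)) * E + (3 + 3 * N) ≤ ε * HH z x := f5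
  have u3 : 3 * E ≤ (3 + 3 * (N : ℝ)) * E := by
    have : 0 ≤ 3 * (N : ℝ) * E := by positivity
    linarith [add_mul 3 (3 * (N : ℝ)) E]
  have u4 : 5 * (ε * HH z x) ≤ ε₀ * HH z x := by
    rw [← mul_assoc]
    exact mul_le_mul_of_nonneg_right hεε hH0
  linarith

end Pool.Agent.Run7.h414.PM
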