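import Pool.Agent.R528.RM.BHFinal
import Pool.Agent.Run7.h414.PM.Prob

set_option autoImplicit false

/-! Patterns of residues modulo 4 of consecutive pairs in random sets: the law. -/

namespace Pool.Agent.Run7.h414.PM
open Finset Filter MeasureTheory
open scoped Topology
open Pool.Agent.R528.RM (dens dens_meas dens01 In In_nonneg In_le In_meas log_succ_ratio)

lemma logt : Tendsto (fun n : ℕ => Real.log (n : ℝ)) atTop atTop := Real.tendsto_log_atTop.comp tendsto_natCast_atTop_atTop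

lemma W_small (z : ℕ → ℕ) (h3 : ∀ n, 3 ≤ z n) (hz : ∀ᶠ n : ℕ in atTop, (z n : ℝ) ≤ Real.log (Real.log n)) :
    ∀ᶠ n : ℕ in atTop, W (z n) / Real.log n < 1 := by
  filter_upwards [hz, logt.eventually_gt_atTop 1] with n h1 h2
  rw [div_lt_one (by linarith)]
  have h4 := W_le (z n) (by have := h3 n; omega)
  have h5 : Real.log (Real.log n) ≤ Real.log n - 1 := Real.log_le_sub_one_of_pos (by linarith)
  linarith

/-- the integers with the residue 5 modulo 6 -/
lemma res6 (z : ℕ → ℕ) (h3 : ∀ n, 3 ≤ z n) (n : ℕ) (h1 : Rough z n) (h2 : Rough z (n + 2)) : n % 6 = 5 := by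
  have a1 : ¬ 2 ∣ n := h1 2 Nat.prime_two (by have := h3 n; omega)
  have a2 : ¬ 3 ∣ n := h1 3 Nat.prime_three (h3 n)
  have a3 : ¬ 3 ∣ n + 2 := h2 3 Nat.prime_three (h3 (n + 2))
  rw [Nat.dvd_iff_mod_eq_zero] at a1 a2 a3
  have b1 : n % 2 = (n % 6) % 2 := by omega
  have b2 : n % 3 = (n % 6) % 3 := by omega
  have b3 : (n + 2) % 3 = (n % 6 + 2) % 3 := by omega
  have b4 : n % 6 < 6 := Nat.mod_lt n (by norm_num)
  rw [b1] at a1
  rw [b2] at a2
  rw [b3] at a3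
  generalize n % 6 = r at a1 a2 a3 b4 ⊢
  interval_cases r <;> simp_all

section

variable {Ω : Type} {m0 : MeasurableSpace Ω} {μ : Measure Ω} [IsProbabilityMeasure μ] {ℱ : Filtration ℕ m0} {A : ℕ → Set Ω}

/-- the densities follow the profile -/
lemma profile (z : ℕ → ℕ) (hV : ∀ᶠ n : ℕ in atTop, W (z n) / Real.log n < 1)
    (hcop : ∀ n, ¬ Rough z n → A n = ∅)
    (hd : ∀ᵐ ω ∂μ, Tendsto (fun n : ℕ => dens μ ℱ A n ω * Real.log n / W (z (n + 1)))
      (atTop ⊓ 𝓟 {n : ℕ | Rough z (n + 1)}) (𝓝 1)) :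
    ∀ᵐ ω ∂μ, ∀ ε : ℝ, 0 < ε → ∀ᶠ n : ℕ in atTop, |dens μ ℱ A n ω - rho1 z (n + 1)| ≤ ε * rho1 z (n + 1) := by
  have hz' : ∀ᵐ ω ∂μ, ∀ n, ¬ Rough z (n + 1) → dens μ ℱ A n ω = 0 := by
    rw [ae_all_iff]
    intro n
    by_cases h : Rough z (n + 1)
    · exact Eventually.of_forall fun ω h2 => absurd h h2
    · have h1 : dens μ ℱ A n =ᵐ[μ] 0 := by
        unfold Pool.Agent.R528.RM.dens
        rw [hcop _ h, Set.indicator_empty]
        rw [show (fun _ : Ω => (0 : ℝ)) = 0 from rfl, condExp_zero]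
      filter_upwards [h1] with ω hω _
      exact hω
  filter_upwards [hz', hd] with ω hω1 hω2 ε hε
  have h1 : Tendsto (fun n : ℕ => dens μ ℱ A n ω * Real.log ((n + 1 : ℕ) : ℝ) / W (z (n + 1)))
      (atTop ⊓ 𝓟 {n : ℕ | Rough z (n + 1)}) (𝓝 1) := by
    have h2 := hω2.mul (log_succ_ratio.mono_left (inf_le_left : atTop ⊓ 𝓟 {n : ℕ | Rough z (n + 1)} ≤ atTop))
    rw [mul_one] at h2
    refine h2.congr' ?_
    apply Filter.Eventually.filter_mono inf_le_left
    filter_upwards [eventually_gt_atTop 1] with n hn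
    have hn' : (1 : ℝ) < n := by exact_mod_cast hn
    have hl : 0 < Real.log (n : ℝ) := Real.log_pos hn'
    field_simp
  have h2 := (Metric.tendsto_nhds.1 h1) ε hε
  rw [eventually_inf_principal] at h2
  have h3 : ∀ᶠ n : ℕ in atTop, W (z (n + 1)) / Real.log ((n + 1 : ℕ) : ℝ) < 1 :=
    (tendsto_add_atTop_nat 1).eventually hV
  filter_upwards [h2, h3, eventually_gt_atTop 2] with n hn hn2 hn3
  by_cases hcp : Rough z (n + 1)
  · have h4 := hn hcp
    have hl : 0 < Real.log ((n + 1 : ℕ) : ℝ) := Real.log_pos (by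
      push_cast
      have : (2 : ℝ) < n := by exact_mod_cast hn3
      linarith)
    have hV : 0 < W (z (n + 1)) := lt_of_lt_of_le one_pos (W_ge _)
    have e1 : rho1 z (n + 1) = W (z (n + 1)) / Real.log ((n + 1 : ℕ) : ℝ) := by
      unfold rho1
      rw [if_pos hcp, min_eq_right hn2.le]
    rw [e1]
    rw [Real.dist_eq] at h4
    have e2 : dens μ ℱ A n ω - W (z (n + 1)) / Real.log ((n + 1 : ℕ) : ℝ) =
        (dens μ ℱ A n ω * Real.log ((n + 1 : ℕ) : ℝ) / W (z (n + 1)) - 1) * (W (z (n + 1)) / Real.log ((n + 1 : ℕ) : ℝ)) := by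
      field_simp
    have h5 : 0 < W (z (n + 1)) / Real.log ((n + 1 : ℕ) : ℝ) := by positivity
    rw [e2, abs_mul, abs_of_pos h5]
    exact mul_le_mul_of_nonneg_right h4.le h5.le
  · rw [hω1 n hcp]
    have e1 : rho1 z (n + 1) = 0 := by
      unfold rho1
      rw [if_neg hcp]
    rw [e1]
    simp

end

section

variable {Ω : Type} {A : ℕ → Set Ω}

open Classical in
lemma In_eq (n : ℕ) (ω : Ω) : In A n ω = if ω ∈ A n then 1 else 0 := by
  unfold In
  rw [Set.indicator_apply]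

open Classical in
lemma qq_eq (β : List ℕ) (b m : ℕ) (ω : Ω) : qq A β b m ω = if St (TT A ω) m β ∧ (m + 5) % 4 = b then 1 else 0 := by
  unfold qq
  rw [Set.indicator_apply]
  rfl

open Classical in
/-- the number of the pairs after a pattern as a weighted sum -/
lemma cS_sum (z : ℕ → ℕ) (h3 : ∀ n, 3 ≤ z n) (hcop : ∀ n, ¬ Rough z n → A n = ∅) (ω : Ω) (β : List ℕ) (b y : ℕ) :
    (cS (TT A ω) β b (y + 5) : ℝ) = ∑ k ∈ range y, qq A β b k ω * (In A (k + 5) ω * In A (k + 7) ω) := by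
  have hr : ∀ n, ω ∈ A n → Rough z n := by
    intro n hn
    by_contra hcon
    rw [hcop n hcon] at hn
    exact hn
  have h6 : ∀ n ∈ TT A ω, n % 6 = 5 := fun n hn => res6 z h3 n (hr n hn.1) (hr (n + 2) hn.2)
  unfold cS
  rw [card_filter]
  push_cast
  rw [add_comm y 5, sum_range_add]
  have e0 : ∑ n ∈ range 5, (if n ∈ TT A ω ∧ n % 4 = b ∧ St (TT A ω) n β then (1 : ℝ) else 0) = 0 := by
    refine sum_eq_zero fun n hn => ?_
    have hn' := mem_range.1 hn
    rw [if_neg]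
    rintro ⟨h, -, -⟩
    have := h6 n h
    omega
  rw [e0, zero_add]
  refine sum_congr rfl fun k _ => ?_
  rw [In_eq, In_eq, qq_eq, add_comm 5 k]
  by_cases hk : k + 5 ∈ TT A ω
  · have hk1 : ω ∈ A (k + 5) := hk.1
    have hk2 : ω ∈ A (k + 7) := hk.2
    rw [if_pos hk1, if_pos hk2, mul_one, mul_one]
    have hs : St (TT A ω) (k + 5) β ↔ St (TT A ω) k β := St_eq β 5 fun j hj hjT => by
      have a1 := h6 _ hk
      have a2 := h6 _ hjT
      omega
    by_cases h : (k + 5) % 4 = b ∧ St (TT A ω) k β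
    · rw [if_pos ⟨hk, h.1, hs.2 h.2⟩, if_pos ⟨h.2, h.1⟩]
    · rw [if_neg (fun g => h ⟨g.2.1, hs.1 g.2.2⟩), if_neg (fun g => h ⟨g.2, g.1⟩)]
  · rw [if_neg (fun g => hk g.1)]
    by_cases hk1 : ω ∈ A (k + 5)
    · have hk2 : ω ∉ A (k + 7) := fun g => hk ⟨hk1, g⟩
      rw [if_neg hk2]
      ring
    · rw [if_neg hk1]
      ring

lemma hh_even (z : ℕ → ℕ) (h3 : ∀ n, 3 ≤ z n) (k : ℕ) (h : (k + 5) % 2 = 0) : hh z k = 0 := by
  unfold hh rho1
  rw [if_neg, zero_mul]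
  intro hr
  exact hr 2 Nat.prime_two (by have := h3 (k + 5); omega) (Nat.dvd_of_mod_eq_zero h)

open Classical in
lemma chi_sum (z : ℕ → ℕ) (ω : Ω) (β : List ℕ) (y : ℕ) :
    ∑ k ∈ range y, qq A β 1 k ω * hh z k - ∑ k ∈ range y, qq A β 3 k ω * hh z k =
      ∑ m ∈ range y, chi m * (if St (TT A ω) m β then hh z m else 0) := by
  rw [← sum_sub_distrib]
  refine sum_congr rfl fun k _ => ?_
  rw [qq_eq, qq_eq]
  unfold chi
  by_cases hs : St (TT A ω) k β
  · by_cases h1 : (k + 5) % 4 = 1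
    · have h2 : ¬ (k + 5) % 4 = 3 := by omega
      simp [hs, h1]
    · by_cases h2 : (k + 5) % 4 = 3
      · simp [hs, h2]
      · simp [hs, h1, h2]
  · simp [hs]

lemma all_sum (z : ℕ → ℕ) (h3 : ∀ n, 3 ≤ z n) (ω : Ω) (y : ℕ) :
    ∑ k ∈ range y, qq A [] 1 k ω * hh z k + ∑ k ∈ range y, qq A [] 3 k ω * hh z k = HH z y := by
  classical
  rw [← sum_add_distrib]
  unfold HH
  refine sum_congr rfl fun k _ => ?_
  rw [qq_eq, qq_eq]
  have hs : St (TT A ω) k [] := (St_nil _ _).2 trivial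
  have h0 : (k + 5) % 4 = 1 ∨ (k + 5) % 4 = 3 ∨ (k + 5) % 2 = 0 := by omega
  rcases h0 with h | h | h
  · simp [hs, h]
  · simp [hs, h]
  · rw [hh_even z h3 k h]
    simp

end

variable {Ω : Type} {m0 : MeasurableSpace Ω} {μ : Measure Ω} [IsProbabilityMeasure μ] {ℱ : Filtration ℕ m0} {A : ℕ → Set Ω}

open Classical in
/-- **the law**: all the patterns of residues modulo 4 of consecutive pairs have the same frequency -/
theorem model (z : ℕ → ℕ) (hmono : Monotone z) (h3 : ∀ n, 3 ≤ z n)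
    (hz : ∀ᶠ n : ℕ in atTop, (z n : ℝ) ≤ Real.log (Real.log n)) (hA : ∀ n, MeasurableSet[ℱ n] (A n))
    (hcop : ∀ n, ¬ Rough z n → A n = ∅)
    (hd : ∀ᵐ ω ∂μ, Tendsto (fun n : ℕ => dens μ ℱ A n ω * Real.log n / W (z (n + 1)))
      (atTop ⊓ 𝓟 {n : ℕ | Rough z (n + 1)}) (𝓝 1)) :
    ∀ᵐ ω ∂μ, (TT A ω).Infinite ∧ ∀ (k : ℕ) (a : ℕ → ℕ), (∀ j ≤ k, a j = 1 ∨ a j = 3) →
      Tendsto (fun M : ℕ => (((range M).filter (fun i => ∀ j ≤ k, Nat.nth (· ∈ TT A ω) (i + j) % 4 = a j)).card : ℝ) / M)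
        atTop (𝓝 ((1 / 2) ^ (k + 1))) := by
  have hprof := profile z (W_small z h3 hz) hcop hd
  have hcl : ∀ᵐ ω ∂μ, ∀ (β : List ℕ) (b : ℕ), ∀ ε : ℝ, 0 < ε → ∀ᶠ x : ℕ in atTop,
      |∑ k ∈ range x, qq A β b k ω * (In A (k + 5) ω * In A (k + 7) ω) - ∑ k ∈ range x, qq A β b k ω * hh z k| ≤ ε * HH z x := by
    rw [ae_all_iff]
    intro β
    rw [ae_all_iff]
    intro b
    exact count_law z hmono h3 hz hA hprof β b
  have hHpos : ∀ᶠ x : ℕ in atTop, (x : ℝ) ^ (7 / 8 : ℝ) ≤ HH z x := by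
    filter_upwards [sizes z hz 1 one_pos] with x hs
    exact HH_low z hmono h3 1 x hs
  have hHt : Tendsto (HH z) atTop atTop := by
    refine tendsto_atTop_mono' atTop hHpos ?_
    exact (tendsto_rpow_atTop (by norm_num)).comp tendsto_natCast_atTop_atTop
  have hsub : Tendsto (fun x : ℕ => x - 5) atTop atTop := tendsto_sub_atTop_nat 5
  filter_upwards [hcl] with ω hω
  obtain ⟨T, hT⟩ : ∃ T, T = TT A ω := ⟨_, rfl⟩
  have hcs : ∀ β b y, (cS T β b (y + 5) : ℝ) = ∑ k ∈ range y, qq A β b k ω * (In A (k + 5) ω * In A (k + 7) ω) := by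
    intro β b y
    rw [hT]
    exact cS_sum z h3 hcop ω β b y
  have hodd : ∀ n ∈ T, n % 2 = 1 := by
    intro n hn
    rw [hT] at hn
    have hr : ∀ n, ω ∈ A n → Rough z n := by
      intro n hn
      by_contra hcon
      rw [hcop n hcon] at hn
      exact hn
    have := res6 z h3 n (hr n hn.1) (hr (n + 2) hn.2)
    omega
  -- the total number of pairs
  have htot : ∀ᶠ y : ℕ in atTop, HH z y ≤ 2 * cA T [] (y + 5) ∧ (cA T [] (y + 5) : ℝ) ≤ 2 * HH z y := by
    filter_upwards [hω [] 1 (1 / 4) (by norm_num), hω [] 3 (1 / 4) (by norm_num)] with y h1 h2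
    have h5 := cA_split T hodd [] (y + 5)
    have h6 : (cA T [] (y + 5) : ℝ) = cS T [] 1 (y + 5) + cS T [] 3 (y + 5) := by exact_mod_cast h5
    have h7 := all_sum (A := A) z h3 ω y
    rw [h6, hcs, hcs]
    have h8 := abs_le.1 h1
    have h9 := abs_le.1 h2
    have hH0 : 0 ≤ HH z y := sum_nonneg fun k _ => (hh_bounds z k).1
    constructor <;> linarith [h8.1, h8.2, h9.1, h9.2]
  have hcT : ∀ x, (cT T x : ℝ) = cA T [] x := by
    intro x
    unfold cT cA
    congr 2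
    ext n
    simp [St_nil]
  have hbal : ∀ (β : List ℕ) (ε : ℝ), 0 < ε → ∀ᶠ y : ℕ in atTop,
      |(cS T β 1 (y + 5) : ℝ) - cS T β 3 (y + 5)| ≤ ε * HH z y := by
    intro β ε₀ hε₀
    obtain ⟨ε, hε, hε1, hεε⟩ : ∃ ε : ℝ, 0 < ε ∧ ε ≤ 1 ∧ 8 * ε ≤ ε₀ :=
      ⟨min 1 (ε₀ / 8), lt_min one_pos (by positivity), min_le_left _ _, by
        have := min_le_right 1 (ε₀ / 8)
        linarith⟩
    filter_upwards [hω β 1 ε hε, hω β 3 ε hε, htot, sizes z hz ε hε] with y h1 h2 h5 h6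
    have hb := balance z hmono h3 ε hε1 y h6 T β
    rw [hcT] at hb
    have hc := chi_sum (A := A) z ω β y
    rw [← hT] at hc
    rw [hcs, hcs]
    have hH0 : 0 ≤ HH z y := sum_nonneg fun k _ => (hh_bounds z k).1
    have a1 := abs_le.1 h1
    have a2 := abs_le.1 h2
    have a3 := abs_le.1 hb
    have a4 : ε * (cA T [] (y + 5) : ℝ) ≤ ε * (2 * HH z y) := mul_le_mul_of_nonneg_left h5.2 hε.le
    have a5 : 8 * ε * HH z y ≤ ε₀ * HH z y := mul_le_mul_of_nonneg_right hεε hH0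
    rw [abs_le]
    constructor <;> linarith [a1.1, a1.2, a2.1, a2.2, a3.1, a3.2]
  have hback : ∀ P : ℕ → Prop, (∀ᶠ y : ℕ in atTop, P (y + 5)) → ∀ᶠ x : ℕ in atTop, P x := by
    intro P hP
    obtain ⟨N, hN⟩ := eventually_atTop.1 hP
    rw [eventually_atTop]
    exact ⟨N + 5, fun x hx => by
      have := hN (x - 5) (by omega)
      rwa [Nat.sub_add_cancel (by omega)] at this⟩
  have hH' : Tendsto (fun x => HH z (x - 5)) atTop atTop := hHt.comp hsub
  have hlow' : ∀ᶠ x : ℕ in atTop, HH z (x - 5) ≤ 2 * cA T [] x := by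
    apply hback
    filter_upwards [htot] with y hy
    rw [Nat.add_sub_cancel]
    exact hy.1
  have hbal' : ∀ (β : List ℕ) (ε : ℝ), 0 < ε → ∀ᶠ x : ℕ in atTop, |(cS T β 1 x : ℝ) - cS T β 3 x| ≤ ε * HH z (x - 5) := by
    intro β ε hε
    apply hback (fun x => |(cS T β 1 x : ℝ) - cS T β 3 x| ≤ ε * HH z (x - 5))
    filter_upwards [hbal β ε hε] with y hy
    rw [Nat.add_sub_cancel]
    exact hy
  have hinf : T.Infinite := by
    intro hfin
    have h1 : Tendsto (fun x => (cA T [] x : ℝ)) atTop atTop := by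
      refine tendsto_atTop_mono' atTop ?_ (hH'.const_mul_atTop (show (0 : ℝ) < 1 / 2 by norm_num))
      filter_upwards [hlow'] with x hx
      linarith
    have h2 : ∀ x, (cA T [] x : ℝ) ≤ hfin.toFinset.card := by
      intro x
      have : cA T [] x ≤ hfin.toFinset.card := by
        unfold cA
        apply card_le_card
        intro n hn
        rw [Set.Finite.mem_toFinset]
        exact (mem_filter.1 hn).2.1
      exact_mod_cast this
    obtain ⟨x, hx⟩ := (h1.eventually_gt_atTop (hfin.toFinset.card : ℝ)).exists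
    exact absurd hx (not_lt.2 (h2 x))
  rw [← hT]
  exact ⟨hinf, fun k a ha => freq_nth T hinf hodd _ hH' hlow' hbal' k a ha⟩

end Pool.Agent.Run7.h414.PM
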