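import Pool.Agent.R528.RM.BHG
import Pool.Agent.N233.GM.Law
import Pool.Agent.Run7.h414.PM.Pert

set_option autoImplicit false

/-! The numbers `8 d ^ 2 + 1 = 64 b ^ 2 + 9` in random models. -/

namespace Pool.Agent.Run7.h414.PM.Pell
open Finset Filter MeasureTheory
open scoped Topology
open Pool.Agent.R528.RM (dens In)

/-- the solutions of `d ^ 2 - 8 b ^ 2 = 1` -/
def P : ℕ → ℕ × ℕ
  | 0 => (1, 0)
  | m + 1 => (3 * (P m).1 + 8 * (P m).2, (P m).1 + 3 * (P m).2)

/-- the numbers `8 d ^ 2 + 1` -/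
def N (m : ℕ) : ℕ := 8 * (P m).1 ^ 2 + 1

lemma pell (m : ℕ) : (P m).1 ^ 2 = 8 * (P m).2 ^ 2 + 1 := by
  induction m with
  | zero => rfl
  | succ m ih =>
    show (3 * (P m).1 + 8 * (P m).2) ^ 2 = 8 * ((P m).1 + 3 * (P m).2) ^ 2 + 1
    nlinarith

lemma N_eq (m : ℕ) : N m = 64 * (P m).2 ^ 2 + 9 := by
  unfold N
  rw [pell]
  ring

lemma P_pos (m : ℕ) : 1 ≤ (P m).1 := by
  have := pell m
  by_contra h
  have h1 : (P m).1 = 0 := by omega
  rw [h1] at this
  omega

lemma P_lt (m : ℕ) : (P m).1 < (P (m + 1)).1 := by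
  show (P m).1 < 3 * (P m).1 + 8 * (P m).2
  have := P_pos m
  omega

lemma N_strict : StrictMono N := by
  apply strictMono_nat_of_lt_succ
  intro m
  unfold N
  have := P_lt m
  have h : (P m).1 ^ 2 < (P (m + 1)).1 ^ 2 := Nat.pow_lt_pow_left this (by norm_num)
  omega

lemma N_ge (m : ℕ) : m ≤ N m := N_strict.id_le m

lemma N_pos (m : ℕ) : 9 ≤ N m := by
  rw [N_eq]
  omega

lemma P_le (m : ℕ) : (P m).1 ≤ 11 ^ m := by
  induction m with
  | zero => exact le_rfl
  | succ m ih =>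
    have h1 : (P m).2 ≤ (P m).1 := by
      have := pell m
      nlinarith
    show 3 * (P m).1 + 8 * (P m).2 ≤ 11 ^ (m + 1)
    rw [pow_succ]
    omega

lemma N_le (m : ℕ) : N m ≤ 2 ^ (7 * (m + 1)) := by
  have h1 : (P m).1 ^ 2 ≤ (11 ^ m) ^ 2 := Nat.pow_le_pow_left (P_le m) 2
  have h2 : (11 ^ m) ^ 2 = 121 ^ m := by rw [← pow_mul, mul_comm, pow_mul]; norm_num
  have h3 : 2 ^ (7 * (m + 1)) = 128 * 128 ^ m := by rw [pow_mul, pow_succ]; norm_num; ring
  have h4 : 121 ^ m ≤ 128 ^ m := Nat.pow_le_pow_left (by norm_num) m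
  have h5 : 1 ≤ 128 ^ m := Nat.one_le_pow _ _ (by norm_num)
  unfold N
  rw [h3]
  rw [h2] at h1
  omega

lemma N_log (m : ℕ) : Real.log (N m) ≤ 7 * (m + 1) := by
  have h0 : (0 : ℝ) < N m := by
    have := N_pos m
    exact_mod_cast (by omega : 0 < N m)
  have h1 : (N m : ℝ) ≤ (2 : ℝ) ^ (7 * (m + 1)) := by exact_mod_cast N_le m
  have h2 := Real.log_le_log h0 h1
  rw [Real.log_pow] at h2
  have h3 := Real.log_two_lt_d9
  push_cast at h2
  have h4 : (0 : ℝ) ≤ m := Nat.cast_nonneg m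
  nlinarith

/-- the recursion modulo `w` -/
def T (w : ℕ) : Equiv.Perm (ZMod w × ZMod w) where
  toFun x := (3 * x.1 + 8 * x.2, x.1 + 3 * x.2)
  invFun x := (3 * x.1 - 8 * x.2, - x.1 + 3 * x.2)
  left_inv x := by
    ext
    · simp only
      ring
    · simp only
      ring
  right_inv x := by
    ext
    · simp only
      ring
    · simp only
      ring

lemma T_pow (w m : ℕ) : ((T w) ^ m) (1, 0) = (((P m).1 : ZMod w), ((P m).2 : ZMod w)) := by
  induction m with
  | zero => simp [P]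
  | succ m ih =>
    rw [pow_succ', Equiv.Perm.mul_apply, ih]
    show (3 * ((P m).1 : ZMod w) + 8 * ((P m).2 : ZMod w), ((P m).1 : ZMod w) + 3 * ((P m).2 : ZMod w)) = _
    have e1 : (P (m + 1)).1 = 3 * (P m).1 + 8 * (P m).2 := rfl
    have e2 : (P (m + 1)).2 = (P m).1 + 3 * (P m).2 := rfl
    rw [e1, e2]
    push_cast
    rfl

/-- the sequence is periodic modulo `w` -/
lemma period (w : ℕ) (hw : 1 ≤ w) : ∃ L : ℕ, 1 ≤ L ∧ ∀ m₀ t : ℕ, N (m₀ + L * t) ≡ N m₀ [MOD w] := by
  have : NeZero w := ⟨by omega⟩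
  refine ⟨orderOf (T w), orderOf_pos _, fun m₀ t => ?_⟩
  rw [← ZMod.natCast_eq_natCast_iff]
  have h1 : ((T w) ^ (m₀ + orderOf (T w) * t)) (1, 0) = ((T w) ^ m₀) (1, 0) := by
    rw [pow_add, pow_mul, pow_orderOf_eq_one, one_pow, mul_one]
  rw [T_pow, T_pow] at h1
  have h2 := congrArg Prod.fst h1
  simp only at h2
  unfold N
  push_cast
  rw [h2]

lemma prime7 : (104411704393 : ℕ).Prime := by
  have h1 : (10 : ZMod 104411704393) ^ (104411704393 - 1) = 1 := by
    norm_num only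
    reduce_mod_char
  refine lucas_primality 104411704393 (10 : ZMod 104411704393) h1 ?_
  intro q hq hd
  have hf : (104411704393 - 1 : ℕ) = 2 ^ 3 * 3 ^ 2 * 113 ^ 2 * 337 ^ 2 := by norm_num
  rw [hf] at hd
  have hq' : q = 2 ∨ q = 3 ∨ q = 113 ∨ q = 337 := by
    rcases (Nat.Prime.dvd_mul hq).1 hd with h | h
    · rcases (Nat.Prime.dvd_mul hq).1 h with h | h
      · rcases (Nat.Prime.dvd_mul hq).1 h with h | h
        · exact Or.inl ((Nat.prime_dvd_prime_iff_eq hq Nat.prime_two).1 (hq.dvd_of_dvd_pow h))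
        · exact Or.inr (Or.inl ((Nat.prime_dvd_prime_iff_eq hq Nat.prime_three).1 (hq.dvd_of_dvd_pow h)))
      · exact Or.inr (Or.inr (Or.inl ((Nat.prime_dvd_prime_iff_eq hq (by norm_num)).1 (hq.dvd_of_dvd_pow h))))
    · exact Or.inr (Or.inr (Or.inr ((Nat.prime_dvd_prime_iff_eq hq (by norm_num)).1 (hq.dvd_of_dvd_pow h))))
  rcases hq' with rfl | rfl | rfl | rfl
  · norm_num only
    reduce_mod_char
    decide
  · norm_num only
    reduce_mod_char
    decide
  · norm_num only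
    reduce_mod_char
    decide
  · norm_num only
    reduce_mod_char
    decide

lemma N7 : N 7 = 104411704393 := by
  simp [N, P]

/-- the expected number -/
noncomputable def EE (z : ℕ → ℕ) (X : ℕ) : ℝ := ∑ m ∈ range X, Pool.Agent.N233.GM.rho z (N m)

lemma rho_nn (z : ℕ → ℕ) (m : ℕ) : 0 ≤ Pool.Agent.N233.GM.rho z m := by
  unfold Pool.Agent.N233.GM.rho
  split_ifs
  · exact div_nonneg (zero_le_one.trans (Pool.Agent.N233.GM.W_ge _)) (Real.log_natCast_nonneg m)
  · exact le_rfl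

/-- the expected number is large, if one sieves by the primes less than `104411704393` only -/
theorem EE_top (z : ℕ → ℕ) (B : ℕ) (hB : B < 104411704393) (hz : ∀ m, z m ≤ B) : Tendsto (EE z) atTop atTop := by
  obtain ⟨w, hw⟩ : ∃ w, w = primorial B := ⟨_, rfl⟩
  have hw1 : 1 ≤ w := by rw [hw]; exact primorial_pos B
  obtain ⟨L, hL1, hL⟩ := period w hw1
  have hr : ∀ t, Pool.Agent.N233.GM.Rough z (N (7 + L * t)) := by
    intro t q hq hqz hqd
    have h1 : q ∣ w := by rw [hw]; exact hq.dvd_primorial_iff.2 (hqz.trans (hz _))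
    have h2 : N (7 + L * t) ≡ N 7 [MOD q] := (hL 7 t).of_dvd h1
    have h3 : q ∣ N 7 := (h2.dvd_iff dvd_rfl).1 hqd
    rw [N7] at h3
    have h4 := (Nat.prime_dvd_prime_iff_eq hq prime7).1 h3
    have h5 := hqz.trans (hz (N (7 + L * t)))
    omega
  have hLr : (1 : ℝ) ≤ L := by exact_mod_cast hL1
  have hterm : ∀ t : ℕ, 1 / (56 * L) * (1 / ((t : ℝ) + 1)) ≤ Pool.Agent.N233.GM.rho z (N (7 + L * t)) := by
    intro t
    unfold Pool.Agent.N233.GM.rho
    rw [if_pos (hr t)]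
    have hW := Pool.Agent.N233.GM.W_ge (z (N (7 + L * t)))
    have hlog := N_log (7 + L * t)
    have hl0 : 0 < Real.log (N (7 + L * t)) := Real.log_pos (by
      have := N_pos (7 + L * t)
      exact_mod_cast (by omega : 1 < N (7 + L * t)))
    have ht : (0 : ℝ) ≤ t := Nat.cast_nonneg t
    rw [div_mul_div_comm, one_mul, div_le_div_iff₀ (by positivity) hl0, one_mul]
    push_cast at hlog
    have e1 : 7 * ((7 : ℝ) + L * t + 1) ≤ 56 * L * (t + 1) := by nlinarith
    have e2 : 56 * (L : ℝ) * (t + 1) ≤ Pool.Agent.N233.GM.W (z (N (7 + L * t))) * (56 * L * (t + 1)) := by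
      nlinarith [show (0 : ℝ) ≤ 56 * L * (t + 1) by positivity]
    linarith
  have hdiv : Tendsto (fun X : ℕ => (X - 8) / L) atTop atTop :=
    (Nat.tendsto_div_const_atTop (by omega)).comp (tendsto_sub_atTop_nat 8)
  have hH : Tendsto (fun X : ℕ => 1 / (56 * (L : ℝ)) * ∑ i ∈ range ((X - 8) / L), 1 / ((i : ℝ) + 1)) atTop atTop :=
    (Real.tendsto_sum_range_one_div_nat_succ_atTop.comp hdiv).const_mul_atTop (by positivity)
  refine tendsto_atTop_mono' atTop ?_ hH
  filter_upwards [eventually_ge_atTop 8] with X hX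
  have hinj : Set.InjOn (fun t => 7 + L * t) (range ((X - 8) / L) : Finset ℕ) := by
    intro t _ t' _ h
    beta_reduce at h
    have : L * t = L * t' := by omega
    exact Nat.eq_of_mul_eq_mul_left hL1 this
  rw [mul_sum]
  calc ∑ i ∈ range ((X - 8) / L), 1 / (56 * (L : ℝ)) * (1 / ((i : ℝ) + 1))
      ≤ ∑ i ∈ range ((X - 8) / L), Pool.Agent.N233.GM.rho z (N (7 + L * i)) := sum_le_sum fun i _ => hterm i
    _ = ∑ m ∈ (range ((X - 8) / L)).image (fun t => 7 + L * t), Pool.Agent.N233.GM.rho z (N m) := by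
        rw [sum_image hinj]
    _ ≤ EE z X := by
        unfold EE
        refine sum_le_sum_of_subset_of_nonneg ?_ fun m _ _ => rho_nn z _
        intro m hm
        obtain ⟨t, ht, rfl⟩ := mem_image.1 hm
        rw [mem_range] at ht ⊢
        have h1 : L * (t + 1) ≤ X - 8 := by
          calc L * (t + 1) ≤ L * ((X - 8) / L) := Nat.mul_le_mul_left _ ht
            _ ≤ X - 8 := Nat.mul_div_le _ _
        have h2 : L * (t + 1) = L * t + L := by ring
        omega

/-- two sequences which eventually agree -/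
lemma eventually_agree (a b : ℕ → ℝ) (n0 : ℕ) (h : ∀ n, n0 ≤ n → a n = b n)
    (hb : Tendsto (fun n => ∑ k ∈ range n, b k) atTop atTop) :
    Tendsto (fun n => ∑ k ∈ range n, a k) atTop atTop ∧
    Tendsto (fun n => (∑ k ∈ range n, a k) / ∑ k ∈ range n, b k) atTop (𝓝 1) := by
  obtain ⟨c, hc⟩ : ∃ c : ℝ, c = ∑ k ∈ range n0, (a k - b k) := ⟨_, rfl⟩
  have e : ∀ n, n0 ≤ n → ∑ k ∈ range n, a k = ∑ k ∈ range n, b k + c := by
    intro n hn
    induction n, hn using Nat.le_induction with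
    | base => rw [hc, sum_sub_distrib]; ring
    | succ n hn ih => rw [sum_range_succ, sum_range_succ, ih, h n hn]; ring
  constructor
  · refine (tendsto_atTop_add_const_right atTop c hb).congr' ?_
    filter_upwards [eventually_ge_atTop n0] with n hn
    rw [e n hn]
  · have h1 : Tendsto (fun n => 1 + c / ∑ k ∈ range n, b k) atTop (𝓝 (1 + 0)) :=
      tendsto_const_nhds.add (hb.const_div_atTop c)
    rw [add_zero] at h1
    refine h1.congr' ?_
    filter_upwards [eventually_ge_atTop n0, hb.eventually_gt_atTop 0] with n hn h0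
    rw [e n hn, add_div, div_self h0.ne']

section

variable {Ω : Type} {m0 : MeasurableSpace Ω} {μ : Measure Ω} [IsProbabilityMeasure μ] {ℱ : Filtration ℕ m0} {A : ℕ → Set Ω}

open Classical in
/-- the law in the models -/
theorem model (z : ℕ → ℕ) (hV : ∀ᶠ m : ℕ in atTop, Pool.Agent.N233.GM.W (z m) / Real.log m < 1)
    (hE : Tendsto (EE z) atTop atTop)
    (hA : ∀ n, MeasurableSet[ℱ n] (A n)) (hcop : ∀ n, ¬ Pool.Agent.N233.GM.Rough z n → A n = ∅)
    (hd : ∀ᵐ ω ∂μ, Tendsto (fun n : ℕ => dens μ ℱ A n ω * Real.log n / Pool.Agent.N233.GM.W (z (n + 1)))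
      (atTop ⊓ 𝓟 {n : ℕ | Pool.Agent.N233.GM.Rough z (n + 1)}) (𝓝 1)) :
    ∀ᵐ ω ∂μ, Tendsto (fun X : ℕ => (((range X).filter (fun m => ω ∈ A (N m))).card : ℝ) / EE z X) atTop (𝓝 1) := by
  have hprof := Pool.Agent.N233.GM.profile (μ := μ) (ℱ := ℱ) (A := A) z hV hcop hd
  obtain ⟨m1, hm1⟩ := eventually_atTop.1 hV
  obtain ⟨t1, t2⟩ := eventually_agree (fun m => Pool.Agent.N233.GM.rho1 z (N m)) (fun m => Pool.Agent.N233.GM.rho z (N m)) m1
    (fun m hm => Pool.Agent.N233.GM.rho1_eq z _ (hm1 _ (hm.trans (N_ge m)))) hE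
  have h := Pool.Agent.R528.RM.bhg (μ := μ) (ℱ := ℱ) (A := A) hA (Pool.Agent.N233.GM.rho1 z)
    (fun n => (Pool.Agent.N233.GM.rho1_bounds z n).1) (fun n => (Pool.Agent.N233.GM.rho1_bounds z n).2) hprof
    (fun _ : Unit => N) 1 {()} (card_singleton _) (fun _ _ => N_strict) (fun _ _ n => by have := N_pos n; omega)
    (fun i _ j _ hij => absurd (Subsingleton.elim i j) hij) (fun _ => 1) (fun _ => zero_le_one) (fun _ => le_rfl)
    (by
      refine t1.congr fun X => ?_
      refine sum_congr rfl fun m _ => ?_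
      rw [one_mul, prod_singleton])
  filter_upwards [h] with ω hω
  have h3 := hω.mul t2
  rw [one_mul] at h3
  refine h3.congr' ?_
  filter_upwards [t1.eventually_gt_atTop 0, hE.eventually_gt_atTop 0] with X h4 h5
  have e1 : ∑ n ∈ range X, (1 : ℝ) * Pool.Agent.R528.RM.YY A (fun _ : Unit => N) {()} n ω =
      ((range X).filter (fun m => ω ∈ A (N m))).card := by
    rw [card_filter]
    push_cast
    refine sum_congr rfl fun m _ => ?_
    rw [one_mul]
    unfold Pool.Agent.R528.RM.YY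
    rw [prod_singleton]
    by_cases h : ω ∈ A (N m)
    · rw [Set.indicator_of_mem h, if_pos h]
    · rw [Set.indicator_of_notMem h, if_neg h]
  have e2 : ∑ n ∈ range X, (1 : ℝ) * ∏ i ∈ ({()} : Finset Unit), Pool.Agent.N233.GM.rho1 z ((fun _ : Unit => N) i n) =
      ∑ m ∈ range X, Pool.Agent.N233.GM.rho1 z (N m) := by
    refine sum_congr rfl fun m _ => ?_
    rw [one_mul, prod_singleton]
  rw [e1, e2]
  unfold EE at h5 ⊢
  rw [div_mul_div_cancel₀ h4.ne']

end

end Pool.Agent.Run7.h414.PM.Pell
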