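import Pool.Agent.H373R2.T7.LamMaj
import Pool.Agent.N625.PT.X5
import Pool.Agent.Run7.h414.PM.Mod

set_option autoImplicit false

/-! Perturbed primes: the probability that `n + j w` is prime, `w` the product of the primes up to `z n`. -/

namespace Pool.Agent.Run7.h414.PM
open Finset Filter
open scoped Topology
open Pool.Agent.H373R2.T7 (lam_ap)
open Pool.Agent.N625.PT (pp_one)

lemma primeFactors_primorial (B : ℕ) : (primorial B).primeFactors = (Icc 1 B).filter Nat.Prime := by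
  ext p
  rw [Nat.mem_primeFactors, mem_filter, mem_Icc]
  constructor
  · rintro ⟨h1, h2, -⟩
    exact ⟨⟨h1.one_lt.le, h1.dvd_primorial_iff.1 h2⟩, h1⟩
  · rintro ⟨⟨-, h1⟩, h2⟩
    exact ⟨h2, h2.dvd_primorial_iff.2 h1, (primorial_pos B).ne'⟩

/-- `w / φ(w)` for the product of the primes up to `B` -/
lemma W_eq (B : ℕ) : W B = (primorial B : ℝ) / Nat.totient (primorial B) := by
  have h1 := Nat.totient_eq_mul_prod_factors (primorial B)
  rw [primeFactors_primorial] at h1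
  have h2 : (Nat.totient (primorial B) : ℝ) = primorial B * ∏ p ∈ (Icc 1 B).filter Nat.Prime, (1 - (p : ℝ)⁻¹) := by
    have := congrArg (fun q : ℚ => (q : ℝ)) h1
    push_cast at this
    exact this
  have h3 : (0 : ℝ) < primorial B := by exact_mod_cast primorial_pos B
  have h4 : ∏ p ∈ (Icc 1 B).filter Nat.Prime, (1 - (p : ℝ)⁻¹) ≠ 0 := by
    rw [prod_ne_zero_iff]
    intro p hp
    have hp2 : (1 : ℝ) < p := by exact_mod_cast (mem_filter.1 hp).2.one_lt
    have : (p : ℝ)⁻¹ < 1 := inv_lt_one_of_one_lt₀ hp2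
    linarith
  rw [h2]
  unfold W
  rw [prod_inv_distrib]
  field_simp

/-- the sum of `Λ` over a progression in an interval -/
lemma prog_sum (n w Q : ℕ) (hn : 1 ≤ n) (hw : 1 ≤ w) (f : ℕ → ℝ) :
    ∑ m ∈ (Icc 1 (n + Q * w - 1)).filter (fun m => m ≡ n [MOD w]), f m -
      ∑ m ∈ (Icc 1 (n - 1)).filter (fun m => m ≡ n [MOD w]), f m = ∑ j ∈ range Q, f (n + j * w) := by
  have hinj : Set.InjOn (fun j => n + j * w) (range Q : Finset ℕ) := by
    intro i _ j _ hij
    simp only at hij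
    exact Nat.eq_of_mul_eq_mul_right (by omega : 0 < w) (by omega)
  have hsub : (Icc 1 (n - 1)).filter (fun m => m ≡ n [MOD w]) ⊆ (Icc 1 (n + Q * w - 1)).filter (fun m => m ≡ n [MOD w]) := by
    apply filter_subset_filter
    apply Icc_subset_Icc_right
    omega
  rw [← sum_sdiff hsub, add_sub_cancel_right, ← sum_image hinj]
  apply sum_congr _ fun _ _ => rfl
  ext m
  rw [Finset.mem_sdiff, Finset.mem_filter, Finset.mem_filter, Finset.mem_Icc, Finset.mem_Icc, Finset.mem_image]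
  simp only [Finset.mem_range]
  constructor
  · rintro ⟨⟨⟨h1, h2⟩, h3⟩, h4⟩
    have h5 : n ≤ m := by
      by_contra hcon
      exact h4 ⟨⟨h1, by omega⟩, h3⟩
    obtain ⟨j, hj⟩ := (Nat.modEq_iff_dvd' h5).1 h3.symm
    have h6 : m = n + j * w := by rw [mul_comm]; omega
    refine ⟨j, ?_, h6.symm⟩
    by_contra hcon
    have := Nat.mul_le_mul_right w (not_lt.1 hcon)
    omega
  · rintro ⟨j, hj, rfl⟩
    have h7 : (j + 1) * w ≤ Q * w := Nat.mul_le_mul_right w hj
    have h8 : (j + 1) * w = j * w + w := by ring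
    refine ⟨⟨⟨by omega, by omega⟩, ?_⟩, ?_⟩
    · exact (Nat.modEq_iff_dvd' (by omega)).2 (by rw [Nat.add_sub_cancel_left]; exact Dvd.intro_left j rfl) |>.symm
    · rintro ⟨⟨h9, h10⟩, -⟩
      omega

open Classical in
/-- the number of the primes among `n + j w`, `j < Q` -/
noncomputable def cP (n w Q : ℕ) : ℕ := ((range Q).filter (fun j => (n + j * w).Prime)).card

set_option maxHeartbeats 800000 in
open Classical in
/-- primes among `n + j w`, `j < Q`, for a multiple `w` of few primes -/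
theorem prog_primes (z Q : ℕ → ℕ) (C : ℕ) (hz : ∀ᶠ n : ℕ in atTop, (z n : ℝ) ≤ C * Real.log (Real.log n))
    (hQ : ∀ᶠ n : ℕ in atTop, (n : ℝ) / Real.log n ^ C ≤ Q n * primorial (z n) ∧ Q n * primorial (z n) ≤ n) (ε : ℝ) (hε : 0 < ε) :
    ∀ᶠ n : ℕ in atTop, Rough z n → |(cP n (primorial (z n)) (Q n) : ℝ) / Q n * Real.log n / W (z n) - 1| ≤ ε := by
  obtain ⟨δ, hδ0, hδ1, hδε⟩ : ∃ δ : ℝ, 0 < δ ∧ δ ≤ 1 / 4 ∧ 4 * δ ≤ ε :=
    ⟨min (1 / 4) (ε / 4), lt_min (by norm_num) (by positivity), min_le_left _ _, by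
      have := min_le_right (1 / 4) (ε / 4)
      linarith⟩
  obtain ⟨N0, hN0⟩ := lam_ap (2 * C) (3 * C + 1)
  have h2x : Tendsto (fun n : ℕ => 2 * n) atTop atTop := tendsto_id.const_mul_atTop' (by norm_num)
  have hbig : ∀ᶠ n : ℕ in atTop, 4 * Real.log n ^ (3 * C) * (√((2 * n : ℕ) : ℝ) * Real.log ((2 * n : ℕ) : ℝ)) ≤ δ * n := by
    have h := (isLittleO_log_rpow_rpow_atTop ((3 * C + 1 : ℕ) : ℝ) (show (0 : ℝ) < 1 / 4 by norm_num)).def (c := 1) one_pos
    have h' : ∀ᶠ n : ℕ in atTop, 16 / δ ≤ (n : ℝ) ^ (1 / 4 : ℝ) :=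
      ((tendsto_rpow_atTop (show (0 : ℝ) < 1 / 4 by norm_num)).comp tendsto_natCast_atTop_atTop).eventually_ge_atTop _
    filter_upwards [tendsto_natCast_atTop_atTop.eventually h, h', eventually_ge_atTop 2] with n h1 h2 h3
    have hn : (2 : ℝ) ≤ n := by exact_mod_cast h3
    have hl0 : 0 ≤ Real.log (n : ℝ) := Real.log_natCast_nonneg n
    rw [one_mul, Real.norm_of_nonneg (by positivity), Real.norm_of_nonneg (by positivity), Real.rpow_natCast] at h1
    rw [div_le_iff₀ hδ0] at h2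
    have hs : √((2 * n : ℕ) : ℝ) ≤ 2 * √(n : ℝ) := by
      push_cast
      rw [Real.sqrt_mul (by norm_num)]
      have : √(2 : ℝ) ≤ 2 := by
        rw [Real.sqrt_le_iff]; norm_num
      exact mul_le_mul_of_nonneg_right this (Real.sqrt_nonneg _)
    have hl2 : Real.log ((2 * n : ℕ) : ℝ) ≤ 2 * Real.log n := by
      push_cast
      rw [Real.log_mul (by norm_num) (by positivity)]
      have := Real.log_le_log (by norm_num) hn
      linarith
    have hl20 : 0 ≤ Real.log ((2 * n : ℕ) : ℝ) := Real.log_natCast_nonneg _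
    have hsn : √(n : ℝ) = (n : ℝ) ^ (1 / 2 : ℝ) := Real.sqrt_eq_rpow _
    calc 4 * Real.log n ^ (3 * C) * (√((2 * n : ℕ) : ℝ) * Real.log ((2 * n : ℕ) : ℝ))
        ≤ 4 * Real.log n ^ (3 * C) * ((2 * √(n : ℝ)) * (2 * Real.log n)) := by
          apply mul_le_mul_of_nonneg_left _ (by positivity)
          exact mul_le_mul hs hl2 hl20 (by positivity)
      _ = 16 * (Real.log n ^ (3 * C + 1)) * √(n : ℝ) := by ring
      _ ≤ 16 * (n : ℝ) ^ (1 / 4 : ℝ) * √(n : ℝ) := by gcongr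
      _ ≤ ((n : ℝ) ^ (1 / 4 : ℝ) * δ) * (n : ℝ) ^ (1 / 4 : ℝ) * (n : ℝ) ^ (1 / 2 : ℝ) := by
          rw [← hsn]
          gcongr
      _ = δ * ((n : ℝ) ^ (1 / 4 : ℝ) * (n : ℝ) ^ (1 / 4 : ℝ) * (n : ℝ) ^ (1 / 2 : ℝ)) := by ring
      _ = δ * n := by
          rw [← Real.rpow_add (by linarith), ← Real.rpow_add (by linarith)]
          norm_num
  filter_upwards [hz, hQ, hbig, logt.eventually_ge_atTop (4 / δ + 1), eventually_ge_atTop N0, eventually_ge_atTop 4,
    (h2x.eventually (logt.eventually_ge_atTop 2))] with n h1 h2 h3 h4 h5 h6 h7 hr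
  obtain ⟨w, hw⟩ : ∃ w, w = primorial (z n) := ⟨_, rfl⟩
  rw [← hw] at h2 ⊢
  obtain ⟨q, hq⟩ : ∃ q, q = Q n := ⟨_, rfl⟩
  rw [← hq] at h2 ⊢
  have hn0 : (0 : ℝ) < n := by exact_mod_cast (by omega : 0 < n)
  have hn4 : (4 : ℝ) ≤ n := by exact_mod_cast h6
  obtain ⟨t, ht⟩ : ∃ t, t = Real.log (n : ℝ) := ⟨_, rfl⟩
  have ht4 : 4 / δ + 1 ≤ t := by rw [ht]; exact h4
  have h4δ : 0 < 4 / δ := by positivity
  have ht1 : 1 ≤ t := by linarith
  have ht0 : 0 < t := by linarith
  have hw1 : 1 ≤ w := by rw [hw]; exact primorial_pos _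
  have hw0 : (0 : ℝ) < w := by exact_mod_cast hw1
  -- the size of `w`
  have hwt : (w : ℝ) ≤ t ^ (2 * C) := by
    have h10 : (w : ℝ) ≤ (4 : ℝ) ^ (z n) := by rw [hw]; exact_mod_cast primorial_le_four_pow (z n)
    refine h10.trans ?_
    rw [← ht] at h1
    have h11 : Real.log 4 ≤ 2 := by
      have e : (4 : ℝ) = 2 ^ 2 := by norm_num
      rw [e, Real.log_pow]
      have := Real.log_two_lt_d9
      push_cast
      linarith
    rw [← Real.rpow_natCast, Real.rpow_def_of_pos (by norm_num), ← Real.rpow_natCast, Real.rpow_def_of_pos ht0]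
    apply Real.exp_le_exp.2
    have h12 : (0 : ℝ) ≤ z n := Nat.cast_nonneg _
    push_cast
    calc Real.log 4 * (z n : ℝ) ≤ 2 * z n := mul_le_mul_of_nonneg_right h11 h12
      _ ≤ 2 * (C * Real.log t) := by linarith
      _ = Real.log t * (2 * C) := by ring
  have hcop : Nat.Coprime n w := by
    rw [hw, Nat.coprime_comm]
    apply Nat.coprime_of_dvd
    intro p hp hp1 hp2
    exact hr p hp (hp.dvd_primorial_iff.1 hp1) hp2
  -- the size of `q`
  have hqw : (q : ℝ) * w ≤ n := by exact_mod_cast h2.2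
  have hqw' : q * w ≤ n := by exact_mod_cast h2.2
  have hqlow : (n : ℝ) / t ^ (3 * C) ≤ q := by
    have h20 : (n : ℝ) / t ^ C ≤ q * w := by rw [ht]; exact h2.1
    have h21 : (n : ℝ) / t ^ C ≤ q * t ^ (2 * C) := h20.trans (mul_le_mul_of_nonneg_left hwt (Nat.cast_nonneg _))
    have h22 : (n : ℝ) ≤ q * t ^ (2 * C) * t ^ C := by rwa [div_le_iff₀ (by positivity)] at h21
    rw [div_le_iff₀ (by positivity)]
    calc (n : ℝ) ≤ q * t ^ (2 * C) * t ^ C := h22
      _ = q * t ^ (3 * C) := by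
        rw [mul_assoc, ← pow_add]
        congr 2
        ring
  have hq0 : (0 : ℝ) < q := lt_of_lt_of_le (by positivity) hqlow
  have hW1 : 1 ≤ W (z n) := W_ge _
  -- the sum of `Λ`
  obtain ⟨S0, hS0⟩ : ∃ S0, S0 = ∑ j ∈ range q, ArithmeticFunction.vonMangoldt (n + j * w) := ⟨_, rfl⟩
  have hN2 : N0 ≤ 2 * n := by omega
  have hlog2n : t ≤ Real.log ((2 * n : ℕ) : ℝ) := by
    rw [ht]
    apply Real.log_le_log hn0
    push_cast
    linarith
  have hlog2n' : Real.log ((2 * n : ℕ) : ℝ) ≤ t + 1 := by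
    rw [ht]
    push_cast
    rw [Real.log_mul (by norm_num) (by positivity)]
    have := Real.log_two_lt_d9
    linarith
  have hwlog : (w : ℝ) ≤ Real.log ((2 * n : ℕ) : ℝ) ^ (2 * C) := hwt.trans (pow_le_pow_left₀ ht0.le hlog2n _)
  have a1 := hN0 (2 * n) hN2 w hw1 hwlog n (n + q * w - 1) (by omega)
  have a0 := hN0 (2 * n) hN2 w hw1 hwlog n (n - 1) (by omega)
  rw [if_pos hcop] at a1 a0
  have hφ0 : (0 : ℝ) < Nat.totient w := by exact_mod_cast Nat.totient_pos.2 hw1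
  have hmain : ((n + q * w - 1 : ℕ) : ℝ) / Nat.totient w - ((n - 1 : ℕ) : ℝ) / Nat.totient w = q * W (z n) := by
    rw [W_eq, ← hw, ← sub_div]
    have e1 : ((n + q * w - 1 : ℕ) : ℝ) = n + q * w - 1 := by
      rw [Nat.cast_sub (by omega)]
      push_cast
      ring
    have e2 : ((n - 1 : ℕ) : ℝ) = n - 1 := by
      rw [Nat.cast_sub (by omega)]
      push_cast
      ring
    rw [e1, e2]
    ring
  have hps := prog_sum n w q (by omega) hw1 (fun m => ArithmeticFunction.vonMangoldt m)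
  rw [← hS0] at hps
  have herr : |S0 - q * W (z n)| ≤ 2 * (((2 * n : ℕ) : ℝ) / Real.log ((2 * n : ℕ) : ℝ) ^ (3 * C + 1)) := by
    rw [← hps, ← hmain]
    rw [abs_le] at a1 a0 ⊢
    constructor <;> linarith [a1.1, a1.2, a0.1, a0.2]
  have herr2 : |S0 - q * W (z n)| ≤ δ * (q * W (z n)) := by
    refine herr.trans ?_
    have h30 : ((2 * n : ℕ) : ℝ) / Real.log ((2 * n : ℕ) : ℝ) ^ (3 * C + 1) ≤ ((2 * n : ℕ) : ℝ) / t ^ (3 * C + 1) := by
      apply div_le_div_of_nonneg_left (by positivity) (by positivity)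
      exact pow_le_pow_left₀ ht0.le hlog2n _
    have h31 : 2 * (((2 * n : ℕ) : ℝ) / t ^ (3 * C + 1)) = 4 / t * ((n : ℝ) / t ^ (3 * C)) := by
      rw [pow_succ]
      push_cast
      field_simp
      ring
    have h32 : 4 / t ≤ δ := by
      rw [div_le_iff₀ ht0]
      have : 4 / δ ≤ t := by linarith
      rw [div_le_iff₀ hδ0] at this
      linarith
    calc 2 * (((2 * n : ℕ) : ℝ) / Real.log ((2 * n : ℕ) : ℝ) ^ (3 * C + 1)) ≤ 4 / t * ((n : ℝ) / t ^ (3 * C)) := by
          rw [← h31]; linarith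
      _ ≤ δ * q := mul_le_mul h32 hqlow (by positivity) hδ0.le
      _ ≤ δ * (q * W (z n)) := by
          apply mul_le_mul_of_nonneg_left _ hδ0.le
          exact le_mul_of_one_le_right hq0.le hW1
  -- from `Λ` to primes
  obtain ⟨c, hc⟩ : ∃ c : ℝ, c = cP n w q := ⟨_, rfl⟩
  rw [← hc, ← ht]
  have hsplit : S0 = ∑ j ∈ (range q).filter (fun j => (n + j * w).Prime), Real.log ((n + j * w : ℕ) : ℝ) +
      ∑ j ∈ range q, (if (n + j * w).Prime then (0 : ℝ) else ArithmeticFunction.vonMangoldt (n + j * w)) := by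
    rw [hS0, sum_filter, ← sum_add_distrib]
    refine sum_congr rfl fun j _ => ?_
    split_ifs with hp
    · rw [ArithmeticFunction.vonMangoldt_apply_prime hp, add_zero]
    · rw [zero_add]
  have hpp := pp_one (2 * n) (by omega) (range q) (fun j => n + j * w) (by
    intro i _ j _ hij
    simp only at hij
    exact Nat.eq_of_mul_eq_mul_right (by omega : 0 < w) (by omega)) (by
    intro j hj
    have h40 : (j + 1) * w ≤ q * w := Nat.mul_le_mul_right w (mem_range.1 hj)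
    have h41 : (j + 1) * w = j * w + w := by ring
    constructor <;> omega)
  have hpp0 : 0 ≤ ∑ j ∈ range q, (if (n + j * w).Prime then (0 : ℝ) else ArithmeticFunction.vonMangoldt (n + j * w)) :=
    sum_nonneg fun j _ => by
      split_ifs
      · exact le_rfl
      · exact ArithmeticFunction.vonMangoldt_nonneg
  have hcard : ((((range q).filter (fun j => (n + j * w).Prime)).card : ℕ) : ℝ) = c := by rw [hc]; rfl
  have hlo : c * t ≤ ∑ j ∈ (range q).filter (fun j => (n + j * w).Prime), Real.log ((n + j * w : ℕ) : ℝ) := by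
    rw [← hcard, ← nsmul_eq_mul]
    apply card_nsmul_le_sum
    intro j _
    rw [ht]
    apply Real.log_le_log hn0
    push_cast
    have : (0 : ℝ) ≤ (j : ℝ) * w := by positivity
    linarith
  have hhi : ∑ j ∈ (range q).filter (fun j => (n + j * w).Prime), Real.log ((n + j * w : ℕ) : ℝ) ≤ c * (t + 1) := by
    rw [← hcard, ← nsmul_eq_mul]
    apply sum_le_card_nsmul
    intro j hj
    have h40 : (j + 1) * w ≤ q * w := Nat.mul_le_mul_right w (mem_range.1 (mem_filter.1 hj).1)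
    have h41 : (j + 1) * w = j * w + w := by ring
    refine le_trans (Real.log_le_log ?_ ?_) hlog2n'
    · exact_mod_cast (by omega : 0 < n + j * w)
    · exact_mod_cast (by omega : n + j * w ≤ 2 * n)
  have hppδ : 2 * √((2 * n : ℕ) : ℝ) * Real.log ((2 * n : ℕ) : ℝ) ≤ δ * (q * W (z n)) := by
    have h50 : 4 * t ^ (3 * C) * (√((2 * n : ℕ) : ℝ) * Real.log ((2 * n : ℕ) : ℝ)) ≤ δ * n := by rw [ht]; exact h3
    have h51 : 4 * (√((2 * n : ℕ) : ℝ) * Real.log ((2 * n : ℕ) : ℝ)) ≤ δ * ((n : ℝ) / t ^ (3 * C)) := by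
      rw [mul_div_assoc', le_div_iff₀ (by positivity)]
      linarith [mul_comm (t ^ (3 * C)) (√((2 * n : ℕ) : ℝ) * Real.log ((2 * n : ℕ) : ℝ)),
        mul_assoc 4 (t ^ (3 * C)) (√((2 * n : ℕ) : ℝ) * Real.log ((2 * n : ℕ) : ℝ)),
        mul_assoc 4 (√((2 * n : ℕ) : ℝ) * Real.log ((2 * n : ℕ) : ℝ)) (t ^ (3 * C))]
    have h52 : δ * ((n : ℝ) / t ^ (3 * C)) ≤ δ * (q * W (z n)) :=
      mul_le_mul_of_nonneg_left (hqlow.trans (le_mul_of_one_le_right hq0.le hW1)) hδ0.le
    have h53 : 0 ≤ √((2 * n : ℕ) : ℝ) * Real.log ((2 * n : ℕ) : ℝ) := mul_nonneg (Real.sqrt_nonneg _) (Real.log_natCast_nonneg _)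
    linarith [mul_assoc 2 (√((2 * n : ℕ) : ℝ)) (Real.log ((2 * n : ℕ) : ℝ))]
  have hqW : 0 < q * W (z n) := by positivity
  have e2 := abs_le.1 herr2
  have hup : c * t ≤ (1 + δ) * (q * W (z n)) := by linarith [e2.2]
  have hdn : (1 - 2 * δ) * (q * W (z n)) ≤ c * (t + 1) := by linarith [e2.1]
  have hc0 : 0 ≤ c := by rw [hc]; exact Nat.cast_nonneg _
  have hct : c ≤ δ / 4 * (c * t) := by
    have : 4 / δ ≤ t := by linarith
    rw [div_le_iff₀ hδ0] at this
    have h60 : 4 * c ≤ t * δ * c := mul_le_mul_of_nonneg_right this hc0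
    linarith [mul_assoc t δ c, mul_comm (t * δ) c, mul_comm t δ, mul_assoc δ t c, mul_comm t c, mul_assoc c t δ,
      mul_left_comm δ t c, mul_comm δ (c * t), mul_comm c (t * δ)]
  have hr1 : c / q * t / W (z n) = c * t / (q * W (z n)) := by
    field_simp
  rw [hr1, abs_le]
  constructor
  · rw [neg_le_sub_iff_le_add, ← sub_le_iff_le_add, le_div_iff₀ hqW]
    have h61 : c * t ≤ 2 * (q * W (z n)) := hup.trans (mul_le_mul_of_nonneg_right (by linarith) hqW.le)
    have h62 : c ≤ δ / 4 * (2 * (q * W (z n))) := hct.trans (mul_le_mul_of_nonneg_left h61 (by positivity))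
    have h63 : (1 - ε) * (q * W (z n)) ≤ (1 - 4 * δ) * (q * W (z n)) := mul_le_mul_of_nonneg_right (by linarith) hqW.le
    have h64 : 0 ≤ δ * (q * W (z n)) := by positivity
    linarith
  · rw [sub_le_iff_le_add, div_le_iff₀ hqW]
    refine hup.trans (mul_le_mul_of_nonneg_right (by linarith) hqW.le)

end Pool.Agent.Run7.h414.PM
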