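import Pool.Agent.Run7.h414.PM.Pert

set_option autoImplicit false

/-! The perturbed primes and the size of the sieve. -/

namespace Pool.Agent.Run7.h414.PM
open Finset Filter MeasureTheory ProbabilityTheory
open scoped Topology

lemma loglogt : Tendsto (fun n : ℕ => Real.log (Real.log (n : ℝ))) atTop atTop := Real.tendsto_log_atTop.comp logt

lemma sq_of_lin (z : ℕ → ℕ) (C : ℕ) (hz : ∀ᶠ n : ℕ in atTop, (z n : ℝ) ≤ C * Real.log (Real.log n)) (c : ℝ) (hc : 0 < c) :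
    ∀ᶠ n : ℕ in atTop, (z n : ℝ) ≤ c * Real.log (Real.log n) ^ 2 := by
  filter_upwards [hz, loglogt.eventually_ge_atTop (C / c), loglogt.eventually_ge_atTop 0] with n h1 h2 h3
  rw [div_le_iff₀ hc] at h2
  nlinarith

lemma pow_of_lin (z : ℕ → ℕ) (C : ℕ) (hz : ∀ᶠ n : ℕ in atTop, (z n : ℝ) ≤ C * Real.log (Real.log n)) (c : ℝ) (hc : 0 < c) :
    ∀ᶠ n : ℕ in atTop, (z n : ℝ) ≤ (n : ℝ) ^ c := by
  have h0 := (isLittleO_log_rpow_atTop hc).def (c := 1 / ((C : ℝ) + 1)) (by positivity)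
  filter_upwards [hz, tendsto_natCast_atTop_atTop.eventually h0, logt.eventually_ge_atTop 1, eventually_ge_atTop 1] with n h1 h2 h3 h4
  have hn : (0 : ℝ) < (n : ℝ) ^ c := Real.rpow_pos_of_pos (by exact_mod_cast h4) _
  have hC : (0 : ℝ) ≤ C := Nat.cast_nonneg C
  rw [Real.norm_of_nonneg (by linarith), Real.norm_of_nonneg hn.le] at h2
  have h5 : Real.log (Real.log n) ≤ Real.log n := (Real.log_le_sub_one_of_pos (by linarith)).trans (by linarith)
  have h6 : (C : ℝ) * Real.log (Real.log n) ≤ (C + 1) * Real.log n := by nlinarith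
  have h7 : ((C : ℝ) + 1) * Real.log n ≤ (C + 1) * (1 / (C + 1) * (n : ℝ) ^ c) := mul_le_mul_of_nonneg_left h2 (by linarith)
  have h8 : ((C : ℝ) + 1) * (1 / (C + 1) * (n : ℝ) ^ c) = (n : ℝ) ^ c := by field_simp
  linarith

end Pool.Agent.Run7.h414.PM
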